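import Pool.Agent.W_1b8d5d_gd.AGoodN
import Pool.Agent.W_1b8d5d_nc.NormD1
import Pool.Agent.W_1b8d5d_nc.Gen
import Pool.Agent.W_1b8d5d_wall.Bridge

/-!
MP_1b8d5d_pr, general dimension: from the true model to the good finite models and the medians.
-/

set_option autoImplicit false

open MeasureTheory ProbabilityTheory

namespace Pool.Agent.W_1b8d5d_gd

open Finset Filter Topology Pool.Agent.W_1b8d5d_h85 Pool.Agent.W_1b8d5d_nc

variable {d : ℕ} [NeZero d] {ν : Measure ℝ} {Ω : Type} [MeasurableSpace Ω] {P : Measure Ω} {τ : Edge d → Ω → ℝ}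

/-- Medians exist. -/
theorem exists_median {Ω : Type} [MeasurableSpace Ω] {P : Measure Ω} [IsProbabilityMeasure P] {X : Ω → ℝ}
    (hX : Measurable X) : ∃ s : ℝ, 1 / 2 ≤ P.real {ω | X ω ≤ s} ∧ 1 / 2 ≤ P.real {ω | s ≤ X ω} := by
  have : IsProbabilityMeasure (P.map X) := Measure.isProbabilityMeasure_map hX.aemeasurable
  have hcdf : ∀ x, cdf (P.map X) x = P.real {ω | X ω ≤ x} := by
    intro x
    rw [cdf_eq_real, map_measureReal_apply hX measurableSet_Iic]
    rfl
  set S : Set ℝ := {x | 1 / 2 ≤ cdf (P.map X) x} with hS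
  have hne : S.Nonempty := by
    have h1 := (tendsto_order.1 (tendsto_cdf_atTop (P.map X))).1 (1 / 2) (by norm_num)
    obtain ⟨x, hx⟩ := h1.exists
    exact ⟨x, hx.le⟩
  have hbdd : BddBelow S := by
    have h1 := (tendsto_order.1 (tendsto_cdf_atBot (P.map X))).2 (1 / 2) (by norm_num)
    obtain ⟨x, hx⟩ := h1.exists
    refine ⟨x, fun y hy => ?_⟩
    by_contra hcon
    push Not at hcon
    have h2 := monotone_cdf (P.map X) hcon.le
    have h3 : 1 / 2 ≤ cdf (P.map X) y := hy
    linarith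
  have hup : ∀ y, y ∈ S → ∀ x, y ≤ x → x ∈ S := fun y hy x hyx =>
    le_trans (show 1 / 2 ≤ cdf (P.map X) y from hy) (monotone_cdf (P.map X) hyx)
  refine ⟨sInf S, ?_, ?_⟩
  · rw [← hcdf]
    have h1 : Tendsto (cdf (P.map X)) (𝓝[>] (sInf S)) (𝓝 (cdf (P.map X) (sInf S))) :=
      ((cdf (P.map X)).right_continuous (sInf S)).mono_left (nhdsWithin_mono _ Set.Ioi_subset_Ici_self)
    refine ge_of_tendsto h1 ?_
    filter_upwards [self_mem_nhdsWithin] with x hx
    obtain ⟨y, hy, hyx⟩ := exists_lt_of_csInf_lt hne (show sInf S < x from hx)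
    exact hup y hy x hyx.le
  · have h1 : ∀ n : ℕ, P.real {ω | X ω ≤ sInf S - 1 / ((n : ℝ) + 1)} ≤ 1 / 2 := by
      intro n
      rw [← hcdf]
      by_contra hcon
      push Not at hcon
      have h2 : sInf S ≤ sInf S - 1 / ((n : ℝ) + 1) := csInf_le hbdd hcon.le
      have h3 : (0 : ℝ) < 1 / ((n : ℝ) + 1) := by positivity
      linarith
    have h2 : {ω | X ω < sInf S} = ⋃ n : ℕ, {ω | X ω ≤ sInf S - 1 / ((n : ℝ) + 1)} := by
      ext ω
      rw [Set.mem_iUnion]
      constructor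
      · intro h
        obtain ⟨n, hn⟩ := exists_nat_one_div_lt (sub_pos.2 (show X ω < sInf S from h))
        exact ⟨n, show X ω ≤ _ by linarith⟩
      · rintro ⟨n, hn⟩
        have h3 : (0 : ℝ) < 1 / ((n : ℝ) + 1) := by positivity
        have h4 : X ω ≤ sInf S - 1 / ((n : ℝ) + 1) := hn
        show X ω < sInf S
        linarith
    have hmono : Monotone fun n : ℕ => {ω | X ω ≤ sInf S - 1 / ((n : ℝ) + 1)} := by
      intro n n' hnn ω hω
      have h3 : (1 : ℝ) / ((n' : ℝ) + 1) ≤ 1 / ((n : ℝ) + 1) := by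
        have h4 : (n : ℝ) ≤ n' := by exact_mod_cast hnn
        exact one_div_le_one_div_of_le (by positivity) (by linarith)
      have h4 : X ω ≤ sInf S - 1 / ((n : ℝ) + 1) := hω
      show X ω ≤ sInf S - 1 / ((n' : ℝ) + 1)
      linarith
    have h3 : P.real {ω | X ω < sInf S} ≤ 1 / 2 := by
      have h4 := tendsto_measure_iUnion_atTop (μ := P) hmono
      rw [← h2] at h4
      have h5 := (ENNReal.tendsto_toReal (measure_ne_top P _)).comp h4
      exact le_of_tendsto' h5 h1
    have h4 : {ω | sInf S ≤ X ω} = {ω | X ω < sInf S}ᶜ := by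
      ext ω
      simp
    have hms : MeasurableSet {ω | X ω < sInf S} := hX measurableSet_Iio
    rw [h4, measureReal_compl hms, probReal_univ]
    linarith

/-- The good models and the relation of the medians with `μ`. -/
theorem models (hd : 2 ≤ d) (hν : LawP ν) (hF : FppD ν P τ) {μ : (Fin d → ℝ) → ℝ} (hl : LimD P τ μ) (hn : NormFun μ) :
    ∃ (Q : Pool.Agent.W_1b8d5d_nd.Qn) (mm : V d → ℝ),
      Pool.Agent.W_1b8d5d_nd.HasN Q mm ∧ Pool.Agent.W_1b8d5d_nd.MuM μ mm := by
  have hP := hF.prob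
  have hτ : IsFPP ν P τ := ⟨hF.prob, hF.meas, hF.indep, hF.law⟩
  choose mm hU hL using fun z : V d => exists_median (P := P) (hF.meas_T 0 z)
  have htr : ∀ p : ℕ, ∃ h₀ : ℝ, ∀ h : ℝ, h₀ ≤ h → ∀ z : V d, nm z ≤ h ^ p →
      999 / 1000 ≤ P.real {ω | T (fun e => τ e ω) 0 z = T (fun e => min (τ e ω) h) 0 z} := by
    intro p
    obtain ⟨h₀, -, h1⟩ := Pool.Agent.W_1b8d5d_wall.bridge hd hF hν.nonneg (hν.atom 0) (ε := 1 / 1000) (by norm_num) p
    refine ⟨h₀, fun h hh z hz => ?_⟩
    have h2 := h1 h hh z hz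
    have h3 : (1 : ℝ) ≤ P.real {ω | T (fun e => τ e ω) 0 z = T (fun e => min (τ e ω) h) 0 z} +
        P.real {ω | T (fun e => τ e ω) 0 z ≠ T (fun e => min (τ e ω) h) 0 z} := by
      rw [← probReal_univ (μ := P)]
      refine (measureReal_mono ?_).trans (measureReal_union_le _ _)
      intro ω _
      exact em _
    linarith
  obtain ⟨Q, hQ⟩ := hasN hν hτ hU hL htr
  refine ⟨Q, mm, hQ, ?_, hn.cont, ?_⟩
  · intro t x ht
    exact hn.hom t x ht
  · intro z
    rw [Metric.tendsto_atTop]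
    intro ε hε
    have h1 := hl.ev z (ε := ε / 2) (by linarith) (η := 1 / 2) (by norm_num)
    obtain ⟨k₀, hk₀⟩ := eventually_atTop.1 (h1.and (eventually_ge_atTop 1))
    refine ⟨k₀, fun k hk => ?_⟩
    obtain ⟨h2, h3⟩ := hk₀ k hk
    have hk1 : (0 : ℝ) < k := by exact_mod_cast h3
    have e : Pool.Agent.W_1b8d5d_nd.toR z = toRD z := rfl
    rw [e, Real.dist_eq, abs_lt]
    constructor
    · by_contra hcon
      push Not at hcon
      have h4 : {ω | T (fun e => τ e ω) 0 (k • z) ≤ mm (k • z)} ⊆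
          {ω | ε / 2 ≤ |T (fun e => τ e ω) 0 (k • z) / (k : ℝ) - μ (toRD z)|} := by
        intro ω hω
        have h5 : T (fun e => τ e ω) 0 (k • z) ≤ mm (k • z) := hω
        have h6 : T (fun e => τ e ω) 0 (k • z) / (k : ℝ) ≤ mm (k • z) / k :=
          div_le_div_of_nonneg_right h5 hk1.le
        show ε / 2 ≤ |T (fun e => τ e ω) 0 (k • z) / (k : ℝ) - μ (toRD z)|
        rw [le_abs]
        right
        linarith
      have h5 := measureReal_mono (μ := P) h4
      linarith [hU (k • z)]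
    · by_contra hcon
      push Not at hcon
      have h4 : {ω | mm (k • z) ≤ T (fun e => τ e ω) 0 (k • z)} ⊆
          {ω | ε / 2 ≤ |T (fun e => τ e ω) 0 (k • z) / (k : ℝ) - μ (toRD z)|} := by
        intro ω hω
        have h5 : mm (k • z) ≤ T (fun e => τ e ω) 0 (k • z) := hω
        have h6 : mm (k • z) / k ≤ T (fun e => τ e ω) 0 (k • z) / (k : ℝ) :=
          div_le_div_of_nonneg_right h5 hk1.le
        show ε / 2 ≤ |T (fun e => τ e ω) 0 (k • z) / (k : ℝ) - μ (toRD z)|
        rw [le_abs]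
        left
        linarith
      have h5 := measureReal_mono (μ := P) h4
      linarith [hL (k • z)]

end Pool.Agent.W_1b8d5d_gd
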