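import Pool.Agent.W_1b8d5d_gd.ATor
import Pool.Agent.W_1b8d5d_gd.AWalk

/-!
MP_1b8d5d_pr, general dimension: the Peierls estimate for the torus models.
-/

set_option autoImplicit false

namespace Pool.Agent.W_1b8d5d_gd

open Finset Pool.Agent.W_1b8d5d_h85

variable {d : ℕ}

/-- All edges of a set of edges are low.  PROOF.  `pr m` is injective on `A` (`pr_inj`), so the indicator is a product over the
image of `A` of functions of one coordinate; `Ex_prod_coord`. -/
theorem Pr_all_low {m N : ℕ} [NeZero m] [NeZero N] {c : ℕ → ℝ} {su δ L : ℝ} (hδ : Pr (fun u : Fin N => c u < su) ≤ δ)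
    (hm : 2 * L < m) (x : V d) (A : Finset (Edge d)) (hA : ∀ e ∈ A, nm (e.1 - x) ≤ L) :
    Pr (fun ω : TE d m → Fin N => ∀ e ∈ A, tenv m c ω e < su) ≤ δ ^ A.card := by
  classical
  set h : Fin N → ℝ := fun u => if c u < su then (1 : ℝ) else 0 with hh
  have hEh : Ex h ≤ δ := by
    have e : Ex h = Pr (fun u : Fin N => c u < su) := by
      rw [Pr_def]
    rw [e]
    exact hδ
  have hE0 : 0 ≤ Ex h := Ex_nonneg fun u => by rw [hh]; simp only; split_ifs <;> norm_num
  have hinj : Set.InjOn (pr m) (A : Set (Edge d)) := by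
    intro e he e' he' h1
    exact pr_inj hm (hA e (mem_coe.1 he)) (hA e' (mem_coe.1 he')) h1
  have hcard : (A.image (pr m)).card = A.card := card_image_of_injOn hinj
  have h1 : Pr (fun ω : TE d m → Fin N => ∀ e ∈ A, tenv m c ω e < su) ≤
      Ex (fun ω : TE d m → Fin N => ∏ t ∈ A.image (pr m), h (ω t)) := by
    rw [Pr_def]
    refine Ex_mono fun ω => ?_
    have hnn : 0 ≤ ∏ t ∈ A.image (pr m), h (ω t) :=
      prod_nonneg fun t _ => by rw [hh]; simp only; split_ifs <;> norm_num
    split_ifs with h2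
    · refine le_of_eq ?_
      symm
      refine prod_eq_one fun t ht => ?_
      obtain ⟨e, he, rfl⟩ := mem_image.1 ht
      rw [hh]
      simp only
      exact if_pos (h2 e he)
    · exact hnn
  refine h1.trans ?_
  rw [Ex_prod_coord (A.image (pr m)) (fun _ => h), prod_const, hcard]
  exact pow_le_pow_left₀ hE0 hEh _

/-- One list of edges.  PROOF.  If fewer than half of the `n` edges are high then there is a set `A` of low edges with `n ≤ 2 |A|`;
union bound over the `2 ^ n` subsets of `l.toFinset`, `Pr_all_low` with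
`δ = (1 / (16 d)) ^ 2`. -/
theorem Pr_list_low [NeZero d] {m N : ℕ} [NeZero m] [NeZero N] {c : ℕ → ℝ} {su L : ℝ}
    (hδ : Pr (fun u : Fin N => c u < su) ≤ (1 / (16 * d)) ^ 2) (hm : 2 * L < m) (x : V d) (l : List (Edge d)) (hl : l.Nodup)
    (hL : ∀ e ∈ l, nm (e.1 - x) ≤ L) :
    Pr (fun ω : TE d m → Fin N => (((l.filter fun e => su ≤ tenv m c ω e).length : ℕ) : ℝ) < (l.length : ℝ) / 2) ≤
      (1 / (8 * d)) ^ l.length := by
  classical
  have hd0 : (0 : ℝ) ≤ 1 / (16 * d) := by positivity
  have hd1 : (1 : ℝ) / (16 * d) ≤ 1 := by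
    have h1 : (1 : ℝ) ≤ d := by exact_mod_cast NeZero.one_le
    rw [div_le_one (by positivity)]
    linarith
  set S : Finset (Finset (Edge d)) := l.toFinset.powerset.filter (fun A => l.length ≤ 2 * A.card) with hS
  have hcl : l.toFinset.card = l.length := List.toFinset_card_of_nodup hl
  have h1 : Pr (fun ω : TE d m → Fin N =>
      (((l.filter fun e => su ≤ tenv m c ω e).length : ℕ) : ℝ) < (l.length : ℝ) / 2) ≤
      Pr (fun ω : TE d m → Fin N => ∃ A ∈ S, ∀ e ∈ A, tenv m c ω e < su) := by
    refine Pr_mono fun ω hω => ?_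
    refine ⟨l.toFinset.filter (fun e => tenv m c ω e < su), ?_, fun e he => (mem_filter.1 he).2⟩
    rw [hS, mem_filter, mem_powerset]
    refine ⟨filter_subset _ _, ?_⟩
    have h2 : (l.filter fun e => su ≤ tenv m c ω e).length =
        (l.toFinset.filter (fun e => su ≤ tenv m c ω e)).card := by
      have h3 : (l.filter fun e => su ≤ tenv m c ω e).toFinset =
          l.toFinset.filter (fun e => su ≤ tenv m c ω e) := by
        ext e
        simp
      rw [← h3, List.toFinset_card_of_nodup (hl.filter _)]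
    rw [h2] at hω
    have h4 : (l.toFinset.filter (fun e => su ≤ tenv m c ω e)).card +
        (l.toFinset.filter (fun e => tenv m c ω e < su)).card = l.length := by
      rw [← hcl, ← card_filter_add_card_filter_not (s := l.toFinset)
        (fun e => su ≤ tenv m c ω e)]
      congr 2
      ext e
      simp
    have h5 : (2 * ((l.toFinset.filter (fun e => su ≤ tenv m c ω e)).card : ℝ)) < l.length := by
      linarith
    have h6 : 2 * (l.toFinset.filter (fun e => su ≤ tenv m c ω e)).card < l.length := by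
      exact_mod_cast h5
    omega
  refine (h1.trans (Pr_exists_le _ _)).trans ?_
  have h2 : ∀ A ∈ S, Pr (fun ω : TE d m → Fin N => ∀ e ∈ A, tenv m c ω e < su) ≤ (1 / (16 * d)) ^ l.length := by
    intro A hA
    rw [hS, mem_filter, mem_powerset] at hA
    refine (Pr_all_low hδ hm x A fun e he => hL e (List.mem_toFinset.1 (hA.1 he))).trans ?_
    rw [← pow_mul]
    exact pow_le_pow_of_le_one hd0 hd1 hA.2
  refine (sum_le_sum h2).trans ?_
  rw [sum_const, nsmul_eq_mul]
  have h3 : (S.card : ℝ) ≤ 2 ^ l.length := by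
    have : S.card ≤ 2 ^ l.length := by
      rw [← hcl, ← card_powerset]
      exact card_le_card (filter_subset _ _)
    exact_mod_cast this
  calc (S.card : ℝ) * (1 / (16 * d)) ^ l.length ≤ 2 ^ l.length * (1 / (16 * d)) ^ l.length :=
        mul_le_mul_of_nonneg_right h3 (by positivity)
    _ = (1 / (8 * d)) ^ l.length := by
      rw [← mul_pow]
      congr 1
      have h1 : (d : ℝ) ≠ 0 := by exact_mod_cast NeZero.ne d
      field_simp
      norm_num

/-- (G7) for one starting vertex: at most `(2 d) ^ n` paths of length `n`, `Pr_list_low`. -/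
theorem tor_peierls_one [NeZero d] {a b : ℝ} (m N : ℕ) [NeZero m] [NeZero N] (c : ℕ → ℝ) (hc : ∀ j, a ≤ c j ∧ c j ≤ b)
    {su R K : ℝ} (hR : 1 ≤ R) (hm : 2 * R < m) (hδ : Pr (fun u : Fin N => c u < su) ≤ (1 / (16 * d)) ^ 2) (hK : 2 ≤ K)
    (x : V d) (l : ℕ) :
    (tor d m N c hc).P (fun τ => ∃ (y : V d) (w : (grid d).Walk x y), w.IsPath ∧
      l ≤ w.length ∧ (w.length : ℝ) ≤ R ∧ (nHigh su τ w : ℝ) < w.length / 2) ≤ K * (1 / 4) ^ l := by
  classical
  rw [tor_P]
  set r : ℕ := ⌊R⌋₊ with hr
  have hR0 : 0 ≤ R := by linarith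
  have hrR : (r : ℝ) ≤ R := Nat.floor_le hR0
  set p : (TE d m → Fin N) → List (Edge d) → Prop := fun ω L =>
    (((L.filter fun e => su ≤ tenv m c ω e).length : ℕ) : ℝ) < (L.length : ℝ) / 2 with hp
  have hone : ∀ (x : V d) (n : ℕ), (n : ℝ) ≤ R →
      Pr (fun ω : TE d m → Fin N => ∃ (y : V d) (w : (grid d).Walk x y), w.IsPath ∧ w.length = n ∧
        p ω (wedges w)) ≤ (1 / 4) ^ n := by
    intro x n hn
    refine (Pr_paths_le x n p).trans ?_
    have h2 : ∀ σ : Fin n → Fin d × Bool, Pr (fun ω : TE d m → Fin N =>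
        (sedges x (List.ofFn σ)).Nodup ∧ p ω (sedges x (List.ofFn σ))) ≤ (1 / (8 * d)) ^ n := by
      intro σ
      have hlen : (sedges x (List.ofFn σ)).length = n := by
        rw [length_sedges, List.length_ofFn]
      by_cases hnd : (sedges x (List.ofFn σ)).Nodup
      · refine (Pr_mono (q := fun ω : TE d m → Fin N => p ω (sedges x (List.ofFn σ)))
          fun ω hω => hω.2).trans ?_
        have h3 := Pr_list_low (c := c) (su := su) (L := R) hδ hm x (sedges x (List.ofFn σ)) hnd
          (fun e he => by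
            have := sedges_near x _ he
            rw [List.length_ofFn] at this
            linarith)
        rw [hlen] at h3
        rw [hp]
        simp only [hlen]
        exact h3
      · refine (Pr_mono (q := fun _ : TE d m → Fin N => False) fun ω hω => hnd hω.1).trans ?_
        have : Pr (fun _ : TE d m → Fin N => False) = 0 := by
          rw [Pr_def]
          simp only [if_false]
          exact Ex_const 0
        rw [this]
        positivity
    refine (sum_le_sum fun σ _ => h2 σ).trans ?_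
    rw [sum_const, card_univ, nsmul_eq_mul]
    have h4 : Fintype.card (Fin n → Fin d × Bool) = (d * 2) ^ n := by
      rw [Fintype.card_fun, Fintype.card_prod, Fintype.card_bool, Fintype.card_fin, Fintype.card_fin]
    rw [h4]
    push_cast
    rw [← mul_pow]
    refine le_of_eq ?_
    congr 1
    have h1 : (d : ℝ) ≠ 0 := by exact_mod_cast NeZero.ne d
    field_simp
    norm_num
  have h1 : Pr (fun ω : TE d m → Fin N => ∃ (y : V d) (w : (grid d).Walk x y), w.IsPath ∧
      l ≤ w.length ∧ (w.length : ℝ) ≤ R ∧ (nHigh su (tenv m c ω) w : ℝ) < w.length / 2) ≤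
      Pr (fun ω : TE d m → Fin N => ∃ q ∈ Ico l (r + 1),
        ∃ (y : V d) (w : (grid d).Walk x y), w.IsPath ∧ w.length = q ∧ p ω (wedges w)) := by
    refine Pr_mono fun ω hω => ?_
    obtain ⟨y, w, hw, hl1, hl2, hn⟩ := hω
    refine ⟨w.length, ?_, y, w, hw, rfl, ?_⟩
    · rw [mem_Ico]
      refine ⟨hl1, ?_⟩
      have h3 : w.length ≤ r := Nat.le_floor hl2
      omega
    · rw [hp]
      show (((wedges w).filter fun e => su ≤ tenv m c ω e).length : ℝ) < ((wedges w).length : ℝ) / 2
      rw [length_wedges]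
      exact hn
  refine (h1.trans (Pr_exists_le _ _)).trans ?_
  have h2 : ∀ q ∈ Ico l (r + 1), Pr (fun ω : TE d m → Fin N =>
      ∃ (y : V d) (w : (grid d).Walk x y), w.IsPath ∧ w.length = q ∧ p ω (wedges w)) ≤ (1 / 4) ^ q := by
    intro q hq
    rw [mem_Ico] at hq
    refine hone x q ?_
    have h3 : (q : ℝ) ≤ r := by
      have : q ≤ r := by omega
      exact_mod_cast this
    linarith
  refine (sum_le_sum h2).trans ?_
  have h3 : ∀ M : ℕ, ∑ n ∈ Ico l M, (1 / 4 : ℝ) ^ n ≤ 4 / 3 * (1 / 4) ^ l := by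
    intro M
    have h4 : l ≤ M → ∑ n ∈ Ico l M, (1 / 4 : ℝ) ^ n = 4 / 3 * ((1 / 4) ^ l - (1 / 4) ^ M) := by
      intro hM
      induction M, hM using Nat.le_induction with
      | base => simp
      | succ M hM ih =>
        rw [sum_Ico_succ_top hM, ih, pow_succ]
        ring
    rcases le_or_gt l M with hM | hM
    · rw [h4 hM]
      have : (0 : ℝ) ≤ (1 / 4) ^ M := by positivity
      linarith
    · rw [Ico_eq_empty (by omega), sum_empty]
      positivity
  have h5 := h3 (r + 1)
  have h7 : (0 : ℝ) ≤ (1 / 4) ^ l := by positivity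
  have h8 : 2 * (1 / 4 : ℝ) ^ l ≤ K * (1 / 4) ^ l := mul_le_mul_of_nonneg_right hK h7
  linarith

end Pool.Agent.W_1b8d5d_gd
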