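import Pool.Agent.W_1b8d5d_gd.LowTail
import Pool.Agent.W_1b8d5d_gd.APeierls

/-!
MP_1b8d5d_pr, general dimension: lower tail, variance and Peierls bounds for the torus models with weights in `[a, h]`,
`a > 0` arbitrarily small, `h` large.
-/

set_option autoImplicit false

namespace Pool.Agent.W_1b8d5d_gd

open Finset Filter Topology
open Pool.Agent.W_1b8d5d_h85

variable {d : ℕ} [NeZero d]

omit [NeZero d] in
/-- The torus models are local environments. -/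
theorem tor_loc {h : ℝ} {m N L : ℕ} [NeZero m] [NeZero N] {c : ℕ → ℝ} (hc : ∀ j, 0 ≤ c j ∧ c j ≤ h)
    (hm : 2 * L < m) (x : V d) :
    Loc (J := TE d m) (β := Fin N) h L x (fun ω => tenv m c ω) (pr m) where
  bd _ _ := hc _
  loc ω i u e he := by
    show c (Function.update ω i u (pr m e)) = c (ω (pr m e))
    rw [Function.update_of_ne he]
  inj e e' h1 h2 h3 := by
    have hm' : 2 * (L : ℝ) < m := by exact_mod_cast hm
    exact pr_inj hm' h1 h2 h3

omit [NeZero d] in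
/-- The torus models are local environments. -/
theorem tor_Loc {a h : ℝ} (ha : 0 ≤ a) {m N : ℕ} [NeZero m] [NeZero N] {c : ℕ → ℝ} (hc : ∀ j, a ≤ c j ∧ c j ≤ h)
    {L : ℕ} (hm : 2 * (L : ℝ) < m) (x : V d) : Loc h L x (fun ω : TE d m → Fin N => tenv m c ω) (pr m) :=
  tor_loc (fun j => ⟨ha.trans (hc j).1, (hc j).2⟩) (by exact_mod_cast hm) x

private theorem ALow_cost_take {a b : ℝ} {τ : Env d} (hτ : Bd a b τ) (ha : 0 ≤ a) {x y : V d}
    (w : (grid d).Walk x y) (n : ℕ) : cost τ (w.take n) ≤ cost τ w := by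
  have h1 : cost τ w = cost τ (w.take n) + cost τ (w.drop n) := by
    rw [← cost_append, SimpleGraph.Walk.append_take_drop_eq]
  have h2 := le_cost hτ (w.drop n)
  have h3 : 0 ≤ a * ((w.drop n).length : ℝ) := by positivity
  linarith

private theorem ALow_high {a b su : ℝ} {τ : Env d} (hτ : Bd a b τ) (ha : 0 ≤ a) {x y : V d}
    (w : (grid d).Walk x y) : su * nHigh su τ w ≤ cost τ w := by
  unfold nHigh cost
  have key : ∀ l : List (Edge d), su * (((l.filter fun e => su ≤ τ e).length : ℕ) : ℝ) ≤ (l.map τ).sum := by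
    intro l
    induction l with
    | nil => simp
    | cons e l ih =>
      rw [List.map_cons, List.sum_cons]
      by_cases he : su ≤ τ e
      · rw [List.filter_cons_of_pos (by simpa using he), List.length_cons]
        push_cast
        linarith
      · rw [List.filter_cons_of_neg (by simpa using he)]
        have := (hτ e).1
        linarith
  exact key _

/-- Long cheap paths from `x` are unlikely. -/
private theorem ALow_long {a b : ℝ} (ha : 0 ≤ a) (m N : ℕ) [NeZero m] [NeZero N] (c : ℕ → ℝ)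
    (hc : ∀ j, a ≤ c j ∧ c j ≤ b) {su t : ℝ} (L : ℕ) (hsu : 0 < su) (hm : 2 * (L + 1) < m)
    (hδ : Pr (fun u : Fin N => c u < su) ≤ (1 / (16 * d)) ^ 2) (x y : V d) (ht : t < su * (L + 1) / 2) :
    (tor d m N c hc).P (fun τ => ∃ w : (grid d).Walk x y, w.IsPath ∧ L < w.length ∧ cost τ w ≤ t) ≤
      2 * (1 / 4) ^ (L + 1) := by
  have hm' : 2 * ((L : ℝ) + 1) < m := by exact_mod_cast hm
  refine le_trans ?_ (tor_peierls_one m N c hc (su := su) (R := (L : ℝ) + 1) (K := 2) (by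
    have : (0 : ℝ) ≤ L := Nat.cast_nonneg L
    linarith) hm' hδ le_rfl x (L + 1))
  refine (tor d m N c hc).P_mono fun τ hτ hw => ?_
  obtain ⟨w, hw1, hw2, hw3⟩ := hw
  have hlen : (w.take (L + 1)).length = L + 1 := by
    rw [SimpleGraph.Walk.take_length]
    omega
  refine ⟨_, w.take (L + 1), hw1.take _, hlen.ge, ?_, ?_⟩
  · rw [hlen]
    push_cast
    exact le_rfl
  · by_contra hcon
    rw [not_lt] at hcon
    have h1 := ALow_high hτ ha (su := su) (w.take (L + 1))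
    have h2 := ALow_cost_take hτ ha w (L + 1)
    have h3 := mul_le_mul_of_nonneg_left hcon hsu.le
    rw [hlen] at h3
    push_cast at h3
    linarith

/-- Long cheap paths from `x` are unlikely. -/
theorem tor_long {a h : ℝ} (ha : 0 ≤ a) {m N : ℕ} [NeZero m] [NeZero N] {c : ℕ → ℝ} (hc : ∀ j, a ≤ c j ∧ c j ≤ h)
    {su : ℝ} (hδ : Pr (fun u : Fin N => c u < su) ≤ (1 / (16 * d)) ^ 2) {L : ℕ} (hm : 2 * ((L : ℝ) + 1) < m) {s : ℝ}
    (hs : 2 * s < su * (L + 1)) (x y : V d) :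
    Pr (fun ω : TE d m → Fin N => ∃ w : (grid d).Walk x y, w.IsPath ∧ L < w.length ∧ cost (tenv m c ω) w ≤ s) ≤
      2 * (1 / 4) ^ (L + 1) := by
  have hL : (0 : ℝ) < L + 1 := by positivity
  rcases le_or_gt su 0 with hsu | hsu
  · -- the cost is nonnegative
    have h1 : Pr (fun ω : TE d m → Fin N => ∃ w : (grid d).Walk x y, w.IsPath ∧ L < w.length ∧
        cost (tenv m c ω) w ≤ s) ≤ Pr (fun _ : TE d m → Fin N => False) := by
      refine Pr_mono fun ω hω => ?_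
      obtain ⟨w, -, -, hw⟩ := hω
      have h2 := le_cost (tenv_Bd hc ω) w
      have h3 : 0 ≤ a * (w.length : ℝ) := by positivity
      have h4 : su * (L + 1) ≤ 0 := by nlinarith
      linarith
    have h0 : Pr (fun _ : TE d m → Fin N => False) = 0 := by
      rw [Pr_def]
      simp only [if_false]
      exact Ex_const 0
    rw [h0] at h1
    exact h1.trans (by positivity)
  · have h1 := ALow_long ha m N c hc (su := su) (t := s) L hsu (by exact_mod_cast hm) hδ x y (by linarith)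
    rw [tor_P] at h1
    exact h1

private theorem ALow_TL_le {h : ℝ} {τ : Env d} (hτ : Bd 0 h τ) {L : ℕ} {x y : V d} (hL : nm (y - x) ≤ L)
    (h0 : 0 ≤ h) : TL L τ x y ≤ h * nm (y - x) := by
  classical
  obtain ⟨w, hw⟩ := exists_walk x y
  have h1 : (w.bypass.length : ℝ) ≤ nm (y - x) := by
    rw [← hw]
    exact_mod_cast w.length_bypass_le_length
  have h2 : w.bypass.length ≤ L := by exact_mod_cast h1.trans hL
  refine (TL_le_cost τ w.bypass w.bypass_isPath h2).trans ((cost_le hτ _).trans ?_)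
  exact mul_le_mul_of_nonneg_left h1 h0

section prod

variable {J β : Type} [Fintype J] [DecidableEq J] [Fintype β] [Nonempty β]

/-- The variance of the passage time. -/
theorem T_var3 {a h M : ℝ} {L : ℕ} {x y : V d} {env : (J → β) → Env d} {idx : Edge d → J}
    (hl : Loc h L x env idx) (ha : 0 < a) (hb : ∀ ω, Bd a h (env ω))
    (hL : nm (y - x) ≤ L) (h0 : 0 < h) (hM : h * nm (y - x) ≤ M) :
    Vr (fun ω => T (env ω) x y) ≤ 2 * (h ^ 2 * L) + 2 * (M ^ 2 *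
      Pr (fun ω => ∃ w : (grid d).Walk x y, w.IsPath ∧ L < w.length ∧ cost (env ω) w ≤ M)) := by
  have h1 : Vr (fun ω => T (env ω) x y) ≤
      Ex (fun ω => (T (env ω) x y - Ex (fun ω => TL L (env ω) x y)) ^ 2) := Vr_le _ _
  refine h1.trans ?_
  have h3 := TL_var hl hL h0.le
  have h2 : Ex (fun ω => (T (env ω) x y - Ex (fun ω => TL L (env ω) x y)) ^ 2) ≤
      2 * Vr (fun ω => TL L (env ω) x y) + 2 * (M ^ 2 *
      Pr (fun ω => ∃ w : (grid d).Walk x y, w.IsPath ∧ L < w.length ∧ cost (env ω) w ≤ M)) := by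
    classical
    unfold Vr
    rw [Pr_def, ← Ex_mul_left (M ^ 2), ← Ex_mul_left 2, ← Ex_mul_left 2, ← Ex_add]
    refine Ex_mono fun ω => ?_
    have hTL : TL L (env ω) x y ≤ M := (ALow_TL_le (hl.bd ω) hL h0.le).trans hM
    have hT0 := T_nonneg (hb ω) ha.le x y
    have hT1 := T_le_TL (hb ω) ha.le hL
    set t := T (env ω) x y
    set t' := TL L (env ω) x y with ht'
    set m := Ex (fun ω => TL L (env ω) x y)
    rcases T_eq_TL_or (hb ω) ha hL with h4 | ⟨w, hw1, hw2, hw3⟩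
    · have h5 : t = t' := h4
      rw [h5]
      have h6 : 0 ≤ 2 * (M ^ 2 * (if ∃ w : (grid d).Walk x y, w.IsPath ∧ L < w.length ∧
          cost (env ω) w ≤ M then (1 : ℝ) else 0)) := by
        split_ifs <;> positivity
      nlinarith [sq_nonneg (t' - m)]
    · rw [if_pos ⟨w, hw1, hw2, by rw [hw3]; exact hT1.trans hTL⟩]
      have h6 : (t' - t) ^ 2 ≤ M ^ 2 := by
        apply pow_le_pow_left₀ (by linarith)
        linarith
      nlinarith [sq_nonneg ((t' - m) + (t' - t))]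
  linarith

/-- The variance of the passage time. -/
theorem T_var2 {h : ℝ} {L : ℕ} {x y : V d}
    {env : (J → β) → Env d} {idx : Edge d → J} {a : ℝ} (hl : Loc h L x env idx) (ha : 0 < a) (hb : ∀ ω, Bd a h (env ω))
    (hL : nm (y - x) ≤ L) (h0 : 0 < h) :
    Vr (fun ω => T (env ω) x y) ≤ 2 * (h ^ 2 * L) + 2 * ((h * L) ^ 2 *
      Pr (fun ω => ∃ w : (grid d).Walk x y, w.IsPath ∧ L < w.length ∧ cost (env ω) w ≤ h * nm (y - x))) := by
  refine (T_var3 hl ha hb hL h0 le_rfl).trans ?_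
  have h1 : (h * nm (y - x)) ^ 2 ≤ (h * L) ^ 2 :=
    pow_le_pow_left₀ (mul_nonneg h0.le (nm_nonneg _)) (mul_le_mul_of_nonneg_left hL h0.le) 2
  have h2 := mul_le_mul_of_nonneg_right h1 (Pr_nonneg (fun ω : J → β => ∃ w : (grid d).Walk x y, w.IsPath ∧
    L < w.length ∧ cost (env ω) w ≤ h * nm (y - x)))
  linarith

end prod

/-- The choice of the length. -/
private theorem ALow_L {th : ℝ} (hth : 0 < th) (p : ℕ) : ∀ᶠ h : ℝ in atTop, 4 ≤ h ∧ ∀ (r : ℝ), 0 ≤ r → r ≤ h ^ p →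
    ∃ L : ℕ, 1 ≤ L ∧ r ≤ L ∧ h ^ 10 ≤ L ∧ h * r < th * (L + 1) / 2 ∧ (L : ℝ) + 1 ≤ h ^ (p + 20) ∧
      (L : ℝ) ≤ 2 * h ^ 10 + h ^ 2 * r := by
  have e1 : ∀ᶠ h : ℝ in atTop, 4 ≤ h := eventually_ge_atTop 4
  have e2 : ∀ᶠ h : ℝ in atTop, 2 / th ≤ h := eventually_ge_atTop _
  have e3 : ∀ᶠ h : ℝ in atTop, th ≤ h := eventually_ge_atTop _
  filter_upwards [e1, e2, e3] with h h1 h2 h3
  refine ⟨h1, fun r hr0 hr => ?_⟩
  have h0 : 0 < h := by linarith
  have h2' : 2 ≤ h * th := by rwa [div_le_iff₀ hth] at h2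
  have hq0 : 0 ≤ 2 * h * r / th := by positivity
  have hq : 2 * h * r / th ≤ h ^ 2 * r := by
    rw [div_le_iff₀ hth]
    have : 2 * (h * r) ≤ (h * th) * (h * r) := mul_le_mul_of_nonneg_right h2' (by positivity)
    nlinarith
  have c1 : h ^ 10 ≤ ⌈h ^ 10⌉₊ := Nat.le_ceil _
  have c2 : (⌈h ^ 10⌉₊ : ℝ) < h ^ 10 + 1 := Nat.ceil_lt_add_one (by positivity)
  have c3 : 2 * h * r / th ≤ ⌈2 * h * r / th⌉₊ := Nat.le_ceil _
  have c4 : (⌈2 * h * r / th⌉₊ : ℝ) < 2 * h * r / th + 1 := Nat.ceil_lt_add_one hq0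
  have k1 : (4 : ℝ) ≤ h ^ 10 := by
    calc (4 : ℝ) ≤ h := h1
      _ = h ^ 1 := (pow_one h).symm
      _ ≤ h ^ 10 := pow_le_pow_right₀ (by linarith) (by norm_num)
  refine ⟨⌈h ^ 10⌉₊ + ⌈2 * h * r / th⌉₊, ?_, ?_, ?_, ?_, ?_, ?_⟩
  · have : (1 : ℝ) ≤ ((⌈h ^ 10⌉₊ + ⌈2 * h * r / th⌉₊ : ℕ) : ℝ) := by
      push_cast
      linarith
    exact_mod_cast this
  · push_cast
    have : r ≤ 2 * h * r / th := by
      rw [le_div_iff₀ hth]
      nlinarith
    linarith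
  · push_cast
    linarith
  · push_cast
    have e : 2 * h * r / th * th = 2 * h * r := by field_simp
    nlinarith
  · push_cast
    have k2 : h ^ 10 ≤ h ^ (p + 10) := pow_le_pow_right₀ (by linarith) (by omega)
    have k3 : h ^ 2 * r ≤ h ^ (p + 10) := by
      calc h ^ 2 * r ≤ h ^ 2 * h ^ p := mul_le_mul_of_nonneg_left hr (by positivity)
        _ = h ^ (p + 2) := by rw [← pow_add, add_comm]
        _ ≤ h ^ (p + 10) := pow_le_pow_right₀ (by linarith) (by omega)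
    have k4 : 3 * h ^ (p + 10) ≤ h ^ (p + 20) := by
      calc 3 * h ^ (p + 10) ≤ h * h ^ (p + 10) := mul_le_mul_of_nonneg_right (by linarith) (by positivity)
        _ = h ^ (p + 11) := by rw [← pow_succ']
        _ ≤ h ^ (p + 20) := pow_le_pow_right₀ (by linarith) (by omega)
    linarith
  · push_cast
    linarith

private theorem ALow_four {n : ℕ} {s : ℝ} (h : s ≤ n) : (1 / 4 : ℝ) ^ n ≤ Real.exp (-s) := by
  have h1 : (1 / 4 : ℝ) ≤ Real.exp (-1) := by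
    rw [Real.exp_neg, one_div]
    apply inv_anti₀ (Real.exp_pos 1)
    have := Real.exp_one_lt_d9
    linarith
  calc (1 / 4 : ℝ) ^ n ≤ Real.exp (-1) ^ n := pow_le_pow_left₀ (by norm_num) h1 n
    _ = Real.exp (-n) := by
      rw [← Real.exp_nat_mul]
      congr 1
      ring
    _ ≤ Real.exp (-s) := Real.exp_le_exp.2 (by linarith)

/-- THE LOWER TAIL at the scale `h` (the field `low` of the good models). -/
theorem tor_low (d : ℕ) [NeZero d] {th : ℝ} (hth : 0 < th) (p : ℕ) : ∀ᶠ h : ℝ in atTop, ∀ (a : ℝ) (m N : ℕ) [NeZero m]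
    [NeZero N] (c : ℕ → ℝ) (hc : ∀ j, a ≤ c j ∧ c j ≤ h), 0 < a → 2 * h ^ (p + 20) < m →
    Pr (fun u : Fin N => c u < th) ≤ (1 / (16 * d)) ^ 2 → ∀ z : V d, nm z ≤ h ^ p →
    (tor d m N c hc).P (fun τ => T τ 0 z ≤ (tor d m N c hc).E (fun τ => T τ 0 z) -
      (h ^ 4 * √(nm z) + h ^ 11)) ≤ Real.exp (-h) := by
  filter_upwards [ALow_L hth p] with h hh
  intro a m N _ _ c hc ha hm hδ z hz
  obtain ⟨h4, hL⟩ := hh
  obtain ⟨L, L1, L2, L3, L4, L5, L6⟩ := hL (nm z) (nm_nonneg z) hz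
  have h0 : 0 < h := by linarith
  have hmL : 2 * (L + 1) < m := by
    have : 2 * ((L : ℝ) + 1) < m := by linarith
    exact_mod_cast this
  have hc0 : ∀ j, 0 ≤ c j ∧ c j ≤ h := fun j => ⟨ha.le.trans (hc j).1, (hc j).2⟩
  have hloc := tor_loc (d := d) (h := h) (m := m) (N := N) (L := L) hc0 (by omega) 0
  have hz' : nm (z - 0) ≤ L := by rw [sub_zero]; exact L2
  have h1 := T_low hloc ha (fun ω => tenv_Bd hc ω) hz' h0 L1 (s := h ^ 4 * √(nm z) + h ^ 11) (by positivity)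
  rw [tor_E, tor_P]
  refine h1.trans ?_
  have h2 : Ex (fun ω : TE d m → Fin N => T (tenv m c ω) 0 z) ≤ h * nm z := by
    refine Ex_le_of_le fun ω => ?_
    have := T_upper (tenv_Bd hc ω) ha.le (0 : V d) z
    rwa [sub_zero] at this
  have h3 := ALow_long ha.le m N c hc (t := Ex (fun ω : TE d m → Fin N => T (tenv m c ω) 0 z)) L hth hmL hδ 0 z
    (lt_of_le_of_lt h2 L4)
  rw [tor_P] at h3
  have hb : h ≤ h ^ 10 := by
    calc h = h ^ 1 := (pow_one h).symm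
      _ ≤ h ^ 10 := pow_le_pow_right₀ (by linarith) (by norm_num)
  have hb2 : 2 * h ≤ h ^ 10 := by
    calc 2 * h ≤ h * h := by nlinarith
      _ = h ^ 2 := by ring
      _ ≤ h ^ 10 := pow_le_pow_right₀ (by linarith) (by norm_num)
  have h5 : (1 / 4 : ℝ) ^ (L + 1) ≤ Real.exp (-(2 * h)) := ALow_four (by push_cast; linarith)
  have hr0 := nm_nonneg z
  have hsq : √(L : ℝ) ≤ 2 * h ^ 5 + h * √(nm z) := by
    rw [Real.sqrt_le_left (by positivity)]
    have e1 : √(nm z) ^ 2 = nm z := Real.sq_sqrt hr0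
    have e2 : 0 ≤ 2 * (2 * h ^ 5) * (h * √(nm z)) := by positivity
    have e3 : (2 * h ^ 5 + h * √(nm z)) ^ 2 = 4 * h ^ 10 + 2 * (2 * h ^ 5) * (h * √(nm z)) + h ^ 2 * √(nm z) ^ 2 := by
      ring
    rw [e3, e1]
    have : 0 ≤ h ^ 10 := by positivity
    linarith
  have hL0 : (0 : ℝ) < L := by exact_mod_cast L1
  have hs : 2 * h ≤ (h ^ 4 * √(nm z) + h ^ 11) / (2 * (h * √(L : ℝ))) := by
    rw [le_div_iff₀ (by positivity)]
    have f1 : 2 * h * (2 * (h * √(L : ℝ))) = 4 * h ^ 2 * √(L : ℝ) := by ring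
    rw [f1]
    have f2 : 4 * h ^ 2 * √(L : ℝ) ≤ 4 * h ^ 2 * (2 * h ^ 5 + h * √(nm z)) :=
      mul_le_mul_of_nonneg_left hsq (by positivity)
    have f3 : 4 * h ^ 3 * √(nm z) ≤ h ^ 4 * √(nm z) := by
      refine mul_le_mul_of_nonneg_right ?_ (Real.sqrt_nonneg _)
      calc 4 * h ^ 3 ≤ h * h ^ 3 := mul_le_mul_of_nonneg_right h4 (by positivity)
        _ = h ^ 4 := by ring
    have f4 : 8 * h ^ 7 ≤ h ^ 11 := by
      calc 8 * h ^ 7 ≤ (h * h) * h ^ 7 := mul_le_mul_of_nonneg_right (by nlinarith) (by positivity)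
        _ = h ^ 9 := by ring
        _ ≤ h ^ 11 := pow_le_pow_right₀ (by linarith) (by norm_num)
    have f5 : 4 * h ^ 2 * (2 * h ^ 5 + h * √(nm z)) = 8 * h ^ 7 + 4 * h ^ 3 * √(nm z) := by ring
    linarith
  have h6 : Real.exp (-((h ^ 4 * √(nm z) + h ^ 11) / (2 * (h * √(L : ℝ))))) ≤ Real.exp (-(2 * h)) :=
    Real.exp_le_exp.2 (by linarith)
  have h7 : 6 * Real.exp (-(2 * h)) ≤ Real.exp (-h) := by
    have g1 : Real.exp (-(2 * h)) = Real.exp (-h) * Real.exp (-h) := by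
      rw [← Real.exp_add]
      congr 1
      ring
    rw [g1, ← mul_assoc]
    have g2 : 6 * Real.exp (-h) ≤ 1 := by
      have g3 : Real.exp (-h) ≤ Real.exp (-2) := Real.exp_le_exp.2 (by linarith)
      have g4 : Real.exp (-2) = (Real.exp 1 * Real.exp 1)⁻¹ := by
        rw [← Real.exp_add, ← Real.exp_neg]
        norm_num
      have g5 := Real.exp_one_gt_d9
      have g6 : (6 : ℝ) ≤ Real.exp 1 * Real.exp 1 := by nlinarith
      have g7 : (Real.exp 1 * Real.exp 1)⁻¹ ≤ 6⁻¹ := inv_anti₀ (by norm_num) g6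
      rw [g4] at g3
      linarith
    calc 6 * Real.exp (-h) * Real.exp (-h) ≤ 1 * Real.exp (-h) :=
          mul_le_mul_of_nonneg_right g2 (Real.exp_pos _).le
      _ = Real.exp (-h) := one_mul _
  linarith

/-- THE VARIANCE at the scale `h` (the field `var` of the good models). -/
theorem tor_var (d : ℕ) [NeZero d] {th : ℝ} (hth : 0 < th) (p : ℕ) : ∀ᶠ h : ℝ in atTop, ∀ (a : ℝ) (m N : ℕ) [NeZero m]
    [NeZero N] (c : ℕ → ℝ) (hc : ∀ j, a ≤ c j ∧ c j ≤ h), 0 < a → 2 * h ^ (p + 20) < m →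
    Pr (fun u : Fin N => c u < th) ≤ (1 / (16 * d)) ^ 2 → ∀ z : V d, nm z ≤ h ^ p →
    (tor d m N c hc).E (fun τ => (T τ 0 z - (tor d m N c hc).E fun τ => T τ 0 z) ^ 2) ≤
      (h ^ 4 * √(nm z) + h ^ 11) ^ 2 := by
  filter_upwards [ALow_L hth p] with h hh
  intro a m N _ _ c hc ha hm hδ z hz
  obtain ⟨h4, hL⟩ := hh
  obtain ⟨L, L1, L2, L3, L4, L5, L6⟩ := hL (nm z) (nm_nonneg z) hz
  have h0 : 0 < h := by linarith
  have hmL : 2 * (L + 1) < m := by
    have : 2 * ((L : ℝ) + 1) < m := by linarith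
    exact_mod_cast this
  have hc0 : ∀ j, 0 ≤ c j ∧ c j ≤ h := fun j => ⟨ha.le.trans (hc j).1, (hc j).2⟩
  have hloc := tor_loc (d := d) (h := h) (m := m) (N := N) (L := L) hc0 (by omega) 0
  have hz' : nm (z - 0) ≤ L := by rw [sub_zero]; exact L2
  have h1 := T_var3 hloc ha (fun ω => tenv_Bd hc ω) hz' h0 (M := h * nm z) (by rw [sub_zero])
  rw [tor_E, tor_E]
  refine le_trans h1 ?_
  have h3 := ALow_long ha.le m N c hc (t := h * nm z) L hth hmL hδ 0 z L4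
  rw [tor_P] at h3
  have hr0 := nm_nonneg z
  have h5 : nm z ^ 2 * (1 / 4 : ℝ) ^ (L + 1) ≤ 1 := by
    have g1 : (L : ℝ) ≤ 2 ^ L := by exact_mod_cast Nat.lt_two_pow_self.le
    have g2 : nm z ^ 2 ≤ (2 ^ L) ^ 2 := pow_le_pow_left₀ hr0 (L2.trans g1) 2
    have g3 : ((2 : ℝ) ^ L) ^ 2 = 4 ^ L := by
      rw [← pow_mul, mul_comm, pow_mul]
      norm_num
    rw [g3] at g2
    calc nm z ^ 2 * (1 / 4 : ℝ) ^ (L + 1) ≤ 4 ^ L * (1 / 4 : ℝ) ^ (L + 1) :=
          mul_le_mul_of_nonneg_right g2 (by positivity)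
      _ = (4 * (1 / 4)) ^ L * (1 / 4) := by rw [pow_succ, mul_pow]; ring
      _ ≤ 1 := by norm_num
  have h6 : (h * nm z) ^ 2 * Pr (fun ω : TE d m → Fin N => ∃ w : (grid d).Walk 0 z, w.IsPath ∧ L < w.length ∧
      cost (tenv m c ω) w ≤ h * nm z) ≤ 2 * h ^ 2 := by
    calc _ ≤ (h * nm z) ^ 2 * (2 * (1 / 4) ^ (L + 1)) := mul_le_mul_of_nonneg_left h3 (sq_nonneg _)
      _ = 2 * h ^ 2 * (nm z ^ 2 * (1 / 4 : ℝ) ^ (L + 1)) := by ring
      _ ≤ 2 * h ^ 2 * 1 := mul_le_mul_of_nonneg_left h5 (by positivity)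
      _ = 2 * h ^ 2 := by ring
  have h7 : h ^ 2 * (L : ℝ) ≤ h ^ 2 * (2 * h ^ 10 + h ^ 2 * nm z) := mul_le_mul_of_nonneg_left L6 (by positivity)
  have e1 : √(nm z) ^ 2 = nm z := Real.sq_sqrt hr0
  have e3 : (h ^ 4 * √(nm z) + h ^ 11) ^ 2 = h ^ 8 * √(nm z) ^ 2 + 2 * h ^ 15 * √(nm z) + h ^ 22 := by ring
  rw [e3, e1]
  have e4 : 0 ≤ 2 * h ^ 15 * √(nm z) := by positivity
  have e5 : 2 * h ^ 4 * nm z ≤ h ^ 8 * nm z := by
    refine mul_le_mul_of_nonneg_right ?_ hr0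
    calc 2 * h ^ 4 ≤ h * h ^ 4 := mul_le_mul_of_nonneg_right (by linarith) (by positivity)
      _ = h ^ 5 := by ring
      _ ≤ h ^ 8 := pow_le_pow_right₀ (by linarith) (by norm_num)
  have e6 : 4 * h ^ 12 + 4 * h ^ 2 ≤ h ^ 22 := by
    have f1 : h ^ 2 ≤ h ^ 12 := pow_le_pow_right₀ (by linarith) (by norm_num)
    calc 4 * h ^ 12 + 4 * h ^ 2 ≤ 8 * h ^ 12 := by linarith
      _ ≤ (h * h) * h ^ 12 := mul_le_mul_of_nonneg_right (by nlinarith) (by positivity)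
      _ = h ^ 14 := by ring
      _ ≤ h ^ 22 := pow_le_pow_right₀ (by linarith) (by norm_num)
  have e7 : h ^ 2 * (2 * h ^ 10 + h ^ 2 * nm z) = 2 * h ^ 12 + h ^ 4 * nm z := by ring
  rw [e7] at h7
  linarith

/-- THE PEIERLS EVENT at the scale `h` (the field `peierls` of the good models). -/
theorem tor_peierlsN {th : ℝ} (p : ℕ) : ∀ᶠ h : ℝ in atTop, ∀ (a : ℝ) (m N : ℕ) [NeZero m] [NeZero N]
    (c : ℕ → ℝ) (hc : ∀ j, a ≤ c j ∧ c j ≤ h),
    Pr (fun u : Fin N => c u < th) ≤ (1 / (16 * d)) ^ 2 → 2 * h ^ (p + 100) < m →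
    (tor d m N c hc).P (fun τ => ∃ (x y : V d) (w : (grid d).Walk x y), nm x ≤ h ^ p ∧ w.IsPath ∧
      h ^ 10 ≤ w.length ∧ (w.length : ℝ) ≤ h ^ p ∧ (nHigh th τ w : ℝ) < w.length / 2) ≤ Real.exp (-h) := by
  have hlim := Real.tendsto_pow_mul_exp_neg_atTop_nhds_zero (p * d)
  have h3d : (0 : ℝ) < 1 / (2 * 3 ^ d) := by positivity
  have e1 : ∀ᶠ h : ℝ in atTop, h ^ (p * d) * Real.exp (-h) < 1 / (2 * 3 ^ d) := hlim.eventually (gt_mem_nhds h3d)
  filter_upwards [e1, eventually_ge_atTop (2 : ℝ)] with h he h2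
  intro a m N _ _ c hc hδ hm
  classical
  have h0 : 0 < h := by linarith
  have hp1 : 1 ≤ h ^ p := one_le_pow₀ (by linarith)
  have hpp : h ^ p ≤ h ^ (p + 100) := pow_le_pow_right₀ (by linarith) (by omega)
  set S : Finset (V d) := Fintype.piFinset fun _ : Fin d => Icc (-⌊h ^ p⌋) ⌊h ^ p⌋ with hS
  have hmem : ∀ x : V d, nm x ≤ h ^ p → x ∈ S := by
    intro x hx
    rw [hS, Fintype.mem_piFinset]
    intro i
    have k1 := (abs_le_nm x i).trans hx
    rw [abs_le] at k1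
    rw [mem_Icc]
    constructor
    · have : -(x i) ≤ ⌊h ^ p⌋ := Int.le_floor.2 (by push_cast; linarith)
      omega
    · exact Int.le_floor.2 k1.2
  have hcard : (S.card : ℝ) ≤ (3 * h ^ p) ^ d := by
    rw [hS, Fintype.card_piFinset, prod_const, card_univ, Fintype.card_fin]
    push_cast
    refine pow_le_pow_left₀ (by positivity) ?_ d
    rw [Int.card_Icc]
    have f0 : (0 : ℤ) ≤ ⌊h ^ p⌋ := Int.floor_nonneg.2 (by positivity)
    have f1 : ((⌊h ^ p⌋ + 1 - -⌊h ^ p⌋).toNat : ℤ) = 2 * ⌊h ^ p⌋ + 1 := by omega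
    have f2 : (((⌊h ^ p⌋ + 1 - -⌊h ^ p⌋).toNat : ℕ) : ℝ) = 2 * (⌊h ^ p⌋ : ℝ) + 1 := by
      exact_mod_cast f1
    rw [f2]
    have f3 := Int.floor_le (h ^ p)
    linarith
  have h1 : (tor d m N c hc).P (fun τ => ∃ (x y : V d) (w : (grid d).Walk x y), nm x ≤ h ^ p ∧ w.IsPath ∧
      h ^ 10 ≤ w.length ∧ (w.length : ℝ) ≤ h ^ p ∧ (nHigh th τ w : ℝ) < w.length / 2) ≤
      (tor d m N c hc).P (fun τ => ∃ x ∈ S, ∃ (y : V d) (w : (grid d).Walk x y), w.IsPath ∧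
        ⌈h ^ 10⌉₊ ≤ w.length ∧ (w.length : ℝ) ≤ h ^ p ∧ (nHigh th τ w : ℝ) < w.length / 2) := by
    refine (tor d m N c hc).P_mono fun τ _ hw => ?_
    obtain ⟨x, y, w, k1, k2, k3, k4, k5⟩ := hw
    exact ⟨x, hmem x k1, y, w, k2, Nat.ceil_le.2 k3, k4, k5⟩
  refine h1.trans (((tor d m N c hc).P_exists_le S _).trans ?_)
  have h3 : ∀ x ∈ S, (tor d m N c hc).P (fun τ => ∃ (y : V d) (w : (grid d).Walk x y), w.IsPath ∧
      ⌈h ^ 10⌉₊ ≤ w.length ∧ (w.length : ℝ) ≤ h ^ p ∧ (nHigh th τ w : ℝ) < w.length / 2) ≤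
      2 * Real.exp (-h ^ 10) := by
    intro x _
    refine (tor_peierls_one m N c hc hp1 (by linarith) hδ le_rfl x _).trans ?_
    exact mul_le_mul_of_nonneg_left (ALow_four (Nat.le_ceil _)) (by norm_num)
  refine (sum_le_sum h3).trans ?_
  rw [sum_const, nsmul_eq_mul]
  have h4 : Real.exp (-h ^ 10) ≤ Real.exp (-h) * Real.exp (-h) := by
    rw [← Real.exp_add]
    apply Real.exp_le_exp.2
    have : 2 * h ≤ h ^ 10 := by
      calc 2 * h ≤ h * h := by nlinarith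
        _ = h ^ 2 := by ring
        _ ≤ h ^ 10 := pow_le_pow_right₀ (by linarith) (by norm_num)
    linarith
  have h5 : (3 * h ^ p) ^ d * (2 * Real.exp (-h)) ≤ 1 := by
    have g1 : (3 * h ^ p) ^ d = 3 ^ d * h ^ (p * d) := by rw [mul_pow, pow_mul]
    rw [g1]
    have g2 : (3 : ℝ) ^ d * h ^ (p * d) * (2 * Real.exp (-h)) = 2 * 3 ^ d * (h ^ (p * d) * Real.exp (-h)) := by ring
    rw [g2]
    have g3 : 2 * 3 ^ d * (h ^ (p * d) * Real.exp (-h)) ≤ 2 * 3 ^ d * (1 / (2 * 3 ^ d)) :=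
      mul_le_mul_of_nonneg_left he.le (by positivity)
    have g4 : (2 : ℝ) * 3 ^ d * (1 / (2 * 3 ^ d)) = 1 := by field_simp
    linarith
  have hE := Real.exp_pos (-h)
  calc (S.card : ℝ) * (2 * Real.exp (-h ^ 10)) ≤ (3 * h ^ p) ^ d * (2 * (Real.exp (-h) * Real.exp (-h))) :=
        mul_le_mul hcard (by linarith) (by positivity) (by positivity)
    _ = (3 * h ^ p) ^ d * (2 * Real.exp (-h)) * Real.exp (-h) := by ring
    _ ≤ 1 * Real.exp (-h) := mul_le_mul_of_nonneg_right h5 hE.le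
    _ = Real.exp (-h) := one_mul _

end Pool.Agent.W_1b8d5d_gd
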