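import Pool.Agent.W_1b8d5d_gd.ATr2

/-!
MP_1b8d5d_pr, general dimension: levels for the torus models of an atomless law.
-/

set_option autoImplicit false

open MeasureTheory

namespace Pool.Agent.W_1b8d5d_gd

open Finset Pool.Agent.W_1b8d5d_h85

/-- The distribution function is continuous. -/
private theorem ALvl_cont {ν : Measure ℝ} (hν : LawP ν) : Continuous (Fd ν) := by
  haveI := hν.prob
  have he : Fd ν = fun x => ProbabilityTheory.cdf ν x := by
    funext x
    rw [ProbabilityTheory.cdf_eq_real]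
    rfl
  rw [he, continuous_iff_continuousAt]
  intro x
  have hm : Monotone (fun x => ProbabilityTheory.cdf ν x) := (ProbabilityTheory.cdf ν).mono
  rw [hm.continuousAt_iff_leftLim_eq_rightLim]
  have h1 : (ProbabilityTheory.cdf ν).measure {x} = 0 := by
    rw [ProbabilityTheory.measure_cdf]
    exact hν.atom x
  rw [StieltjesFunction.measure_singleton, ENNReal.ofReal_eq_zero] at h1
  have h2 : Function.leftLim (fun x => ProbabilityTheory.cdf ν x) x ≤ ProbabilityTheory.cdf ν x :=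
    hm.leftLim_le le_rfl
  have h3 : Function.rightLim (fun x => ProbabilityTheory.cdf ν x) x = ProbabilityTheory.cdf ν x :=
    (ProbabilityTheory.cdf ν).rightLim_eq x
  rw [h3]
  have h4 : Function.leftLim (ProbabilityTheory.cdf ν) x =
      Function.leftLim (fun x => ProbabilityTheory.cdf ν x) x := rfl
  linarith

private theorem ALvl_zero {ν : Measure ℝ} (hν : LawP ν) : Fd ν 0 = 0 := by
  unfold Fd
  have h1 : Set.Iic (0 : ℝ) ⊆ Set.Iio 0 ∪ ({0} : Set ℝ) := by
    intro x hx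
    rcases lt_or_eq_of_le (Set.mem_Iic.1 hx) with h2 | h2
    · exact Or.inl h2
    · exact Or.inr h2
  have h2 : ν (Set.Iic 0) = 0 :=
    measure_mono_null h1 (measure_union_null hν.nonneg (hν.atom 0))
  rw [h2]
  simp

/-- Quantiles. -/
private theorem ALvl_quant {ν : Measure ℝ} (hν : LawP ν) {t : ℝ} (ht0 : 0 < t) (ht1 : t < 1) :
    ∃ x : ℝ, 0 < x ∧ Fd ν x = t := by
  haveI := hν.prob
  have htop : Filter.Tendsto (fun x => ProbabilityTheory.cdf ν x) Filter.atTop (nhds 1) :=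
    ProbabilityTheory.tendsto_cdf_atTop ν
  obtain ⟨b, hb, hb0⟩ :=
    ((htop.eventually (lt_mem_nhds ht1)).and (Filter.eventually_ge_atTop 0)).exists
  have hb' : t ≤ Fd ν b := by
    have h1 : Fd ν b = ProbabilityTheory.cdf ν b := by
      rw [ProbabilityTheory.cdf_eq_real]
      rfl
    rw [h1]
    exact hb.le
  have hivt := intermediate_value_Icc hb0 (ALvl_cont hν).continuousOn
  obtain ⟨x, hx, hxt⟩ := hivt (show t ∈ Set.Icc (Fd ν 0) (Fd ν b) from
    ⟨by rw [ALvl_zero hν]; exact ht0.le, hb'⟩)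
  refine ⟨x, lt_of_le_of_ne hx.1 ?_, hxt⟩
  rintro rfl
  rw [ALvl_zero hν] at hxt
  linarith

/-- The piecewise linear functions. -/
private noncomputable def ALvl_f (κ z x : ℝ) : ℝ := max 0 (min κ (z - x))

private theorem ALvl_lip (κ z x y : ℝ) : |ALvl_f κ z x - ALvl_f κ z y| ≤ |x - y| := by
  unfold ALvl_f
  refine (abs_max_sub_max_le_max _ _ _ _).trans ?_
  rw [sub_self, abs_zero]
  refine max_le (abs_nonneg _) ?_
  refine (abs_min_sub_min_le_max _ _ _ _).trans ?_
  rw [sub_self, abs_zero]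
  refine max_le (abs_nonneg _) ?_
  rw [show z - x - (z - y) = -(x - y) by ring, abs_neg]

private theorem ALvl_fcont (κ z : ℝ) : Continuous (ALvl_f κ z) := by
  unfold ALvl_f
  exact continuous_const.max (continuous_const.min (continuous_const.sub continuous_id))

private theorem ALvl_f_nonneg (κ z x : ℝ) : 0 ≤ ALvl_f κ z x := le_max_left _ _

private theorem ALvl_f_le {κ : ℝ} (hκ : 0 ≤ κ) (z x : ℝ) : ALvl_f κ z x ≤ κ :=
  max_le hκ (min_le_left _ _)

private theorem ALvl_f_zero {κ z x : ℝ} (hx : z ≤ x) : ALvl_f κ z x = 0 :=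
  max_eq_left ((min_le_right _ _).trans (by linarith))

private theorem ALvl_le_f {κ z x : ℝ} (hx : κ ≤ z - x) : κ ≤ ALvl_f κ z x := by
  unfold ALvl_f
  rw [min_eq_left hx]
  exact le_max_right _ _

private theorem ALvl_tr_cont {a h : ℝ} : Continuous (tr a h) :=
  continuous_const.max (continuous_id.min continuous_const)

/-- The comparison for one coordinate. -/
private theorem ALvl_cmp {ν : Measure ℝ} (hν : LawP ν) {a h : ℝ} (ha : 0 ≤ a) (hah : a ≤ h) {N : ℕ}
    (hN : 0 < N) {c : ℕ → ℝ} (hc : Cuts (ν.map ph) 0 1 N c) (f : ℝ → ℝ) (hfc : Continuous f)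
    (hf : ∀ x y, |f x - f y| ≤ |x - y|) :
    |∫ x, f (tr a h x) ∂ν - Ex fun u : Fin N => f (cw a h c u)| ≤ (1 + h) ^ 2 / N := by
  haveI := hν.prob
  have h1 := trans_pi hν ha hah hN hc (ι := Unit) (fun x => f (x ()))
    (fun x y _ _ => by simpa using hf (x ()) (y ()))
  have h2 : ∫ x : Unit → ℝ, f (tr a h (x ())) ∂(Measure.pi fun _ : Unit => ν) =
      ∫ x, f (tr a h x) ∂ν := by
    have h3 := (measurePreserving_eval (fun _ : Unit => ν) ()).map_eq
    have h4 : ∫ x, f (tr a h x) ∂((Measure.pi fun _ : Unit => ν).map (Function.eval ())) =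
        ∫ x : Unit → ℝ, f (tr a h (x ())) ∂(Measure.pi fun _ : Unit => ν) := by
      rw [integral_map (measurable_pi_apply ()).aemeasurable]
      exact (hfc.comp ALvl_tr_cont).aestronglyMeasurable
    rw [← h4, h3]
  have h5 : (Ex fun u : Unit → Fin N => f (ps a h (c (u ())))) = Ex fun u : Fin N => f (cw a h c u) :=
    Ex_equiv (Equiv.funUnique Unit (Fin N)) (fun u : Fin N => f (cw a h c u))
  rw [h2, h5] at h1
  simpa using h1

/-- PROOF.  The distribution function `x ↦ ν.real (Iic x)` is continuous (no atoms), `0` at `0` and tends to `1`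
(`FQuant.lean`: the same for laws on `[a, b]`; `cdf`): choose `0 < x₁ < x₂` with the values `ε / 4` and `ε / 2` and
`sl = (2 x₁ + x₂) / 3`, `su = (x₁ + 2 x₂) / 3`, `pl = ε / 8`, `h₀ = x₂`, `a₀ = x₁`.  For the weights `cw a h c` use `trans_pi`
with one coordinate (`ι = Unit`) and the functions `κ * ψ (x)`, `ψ` piecewise linear, `ψ = 1` on `x ≤ su`, `ψ = 0` on
`x ≥ x₂`, slope `1 / κ`, `κ = x₂ - su` (respectively `1` on `x ≤ x₁`, `0` on `x ≥ sl`).  `C = 8 / (ε κ)`. -/
theorem exists_levels {ν : Measure ℝ} (hν : LawP ν) {ε : ℝ} (hε : 0 < ε) (hε1 : ε < 1) :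
    ∃ sl su pl a₀ h₀ C : ℝ, 0 < sl ∧ sl < su ∧ 0 < pl ∧ 0 < a₀ ∧ ∀ a h : ℝ, 0 ≤ a → a ≤ a₀ → a ≤ h → h₀ ≤ h →
      ∀ (N : ℕ) (c : ℕ → ℝ), 0 < N → C * (1 + h) ^ 2 ≤ N → Cuts (ν.map ph) 0 1 N c →
      Pr (fun u : Fin N => cw a h c u < su) ≤ ε ∧ pl ≤ Pr (fun u : Fin N => cw a h c u ≤ sl) := by
  classical
  haveI := hν.prob
  obtain ⟨x₁, hx1, hF1⟩ := ALvl_quant hν (t := ε / 4) (by linarith) (by linarith)
  obtain ⟨x₂, hx2, hF2⟩ := ALvl_quant hν (t := ε / 2) (by linarith) (by linarith)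
  have h12 : x₁ < x₂ := by
    by_contra hcon
    have := Fd_mono (ν := ν) (not_lt.1 hcon)
    rw [hF1, hF2] at this
    linarith
  obtain ⟨κ, hκ⟩ : ∃ κ : ℝ, κ = (x₂ - x₁) / 3 := ⟨_, rfl⟩
  have hκ0 : 0 < κ := by rw [hκ]; linarith
  refine ⟨(2 * x₁ + x₂) / 3, (x₁ + 2 * x₂) / 3, ε / 8, x₁, x₂, 8 / (ε * κ), by linarith, by linarith,
    by linarith, hx1, ?_⟩
  intro a h ha hax hah hxh N c hN hCN hc
  have hNr : (0 : ℝ) < N := by exact_mod_cast hN
  have herr : (1 + h) ^ 2 / N ≤ ε * κ / 8 := by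
    rw [div_le_iff₀ hNr]
    have h1 : ε * κ / 8 * (8 / (ε * κ) * (1 + h) ^ 2) ≤ ε * κ / 8 * N :=
      mul_le_mul_of_nonneg_left hCN (by positivity)
    have h2 : ε * κ / 8 * (8 / (ε * κ) * (1 + h) ^ 2) = (1 + h) ^ 2 := by
      field_simp
    linarith
  have hint : ∀ z : ℝ, Integrable (fun x => ALvl_f κ z (tr a h x)) ν := by
    intro z
    refine Integrable.mono' (integrable_const κ)
      ((ALvl_fcont κ z).comp ALvl_tr_cont).aestronglyMeasurable ?_
    refine Filter.Eventually.of_forall fun x => ?_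
    rw [Real.norm_of_nonneg (ALvl_f_nonneg _ _ _)]
    exact ALvl_f_le hκ0.le _ _
  constructor
  · have hcmp := (abs_le.1 (ALvl_cmp hν ha hah hN hc (ALvl_f κ x₂) (ALvl_fcont κ x₂)
      (ALvl_lip κ x₂))).1
    have hup : ∫ x, ALvl_f κ x₂ (tr a h x) ∂ν ≤ ε / 2 * κ := by
      have h1 : ∫ x, (Set.Iic x₂).indicator (fun _ => κ) x ∂ν = ε / 2 * κ := by
        rw [integral_indicator_const κ measurableSet_Iic, smul_eq_mul]
        rw [← hF2]
        rfl
      rw [← h1]
      refine integral_mono (hint x₂) ((integrable_const κ).indicator measurableSet_Iic) fun x => ?_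
      by_cases hx : x ≤ x₂
      · rw [Set.indicator_of_mem (show x ∈ Set.Iic x₂ from hx)]
        exact ALvl_f_le hκ0.le _ _
      · rw [Set.indicator_of_notMem (show x ∉ Set.Iic x₂ from hx)]
        have h3 : x₂ ≤ tr a h x := by
          unfold tr
          exact (le_min (not_le.1 hx).le hxh).trans (le_max_right _ _)
        show ALvl_f κ x₂ (tr a h x) ≤ 0
        rw [ALvl_f_zero h3]
    have hlo : κ * Pr (fun u : Fin N => cw a h c u < (x₁ + 2 * x₂) / 3) ≤
        Ex fun u : Fin N => ALvl_f κ x₂ (cw a h c u) := by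
      rw [Pr_def, ← Ex_mul_left]
      refine Ex_mono fun u => ?_
      by_cases hu : cw a h c u < (x₁ + 2 * x₂) / 3
      · rw [if_pos hu, mul_one]
        exact ALvl_le_f (by rw [hκ]; linarith)
      · rw [if_neg hu, mul_zero]
        exact ALvl_f_nonneg _ _ _
    have h4 : κ * Pr (fun u : Fin N => cw a h c u < (x₁ + 2 * x₂) / 3) ≤ κ * ε := by
      nlinarith
    exact le_of_mul_le_mul_left h4 hκ0
  · have hcmp := (abs_le.1 (ALvl_cmp hν ha hah hN hc (ALvl_f κ ((2 * x₁ + x₂) / 3))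
      (ALvl_fcont κ _) (ALvl_lip κ _))).2
    have hlo : ε / 4 * κ ≤ ∫ x, ALvl_f κ ((2 * x₁ + x₂) / 3) (tr a h x) ∂ν := by
      have h1 : ∫ x, (Set.Iic x₁).indicator (fun _ => κ) x ∂ν = ε / 4 * κ := by
        rw [integral_indicator_const κ measurableSet_Iic, smul_eq_mul]
        rw [← hF1]
        rfl
      rw [← h1]
      refine integral_mono ((integrable_const κ).indicator measurableSet_Iic) (hint _) fun x => ?_
      by_cases hx : x ≤ x₁
      · rw [Set.indicator_of_mem (show x ∈ Set.Iic x₁ from hx)]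
        have h3 : tr a h x ≤ x₁ := by
          unfold tr
          exact max_le hax ((min_le_left _ _).trans hx)
        exact ALvl_le_f (by rw [hκ]; linarith)
      · rw [Set.indicator_of_notMem (show x ∉ Set.Iic x₁ from hx)]
        exact ALvl_f_nonneg _ _ _
    have hup : (Ex fun u : Fin N => ALvl_f κ ((2 * x₁ + x₂) / 3) (cw a h c u)) ≤
        κ * Pr (fun u : Fin N => cw a h c u ≤ (2 * x₁ + x₂) / 3) := by
      rw [Pr_def, ← Ex_mul_left]
      refine Ex_mono fun u => ?_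
      by_cases hu : cw a h c u ≤ (2 * x₁ + x₂) / 3
      · rw [if_pos hu, mul_one]
        exact ALvl_f_le hκ0.le _ _
      · rw [if_neg hu, mul_zero, ALvl_f_zero (not_le.1 hu).le]
    have h4 : κ * (ε / 8) ≤ κ * Pr (fun u : Fin N => cw a h c u ≤ (2 * x₁ + x₂) / 3) := by
      nlinarith
    exact le_of_mul_le_mul_left h4 hκ0

end Pool.Agent.W_1b8d5d_gd
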