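import Pool.Agent.W_1b8d5d_gd.Grid3

/-!
MP_1b8d5d_pr, general dimension: finite boxes; the passage time is a Lipschitz function of the edges of a box.
-/

set_option autoImplicit false

namespace Pool.Agent.W_1b8d5d_gd

open Finset Pool.Agent.W_1b8d5d_h85

variable {d : ℕ}

/-- Finite boxes of vertices.  PROOF.  A point with `nm x ≤ ρ` has all coordinates in `[-⌊ρ⌋₊, ⌊ρ⌋₊]` (`abs_le_nm`):
`Fintype.piFinset`; the cardinality of `Finset.Icc (-k) k` is `2 k + 1`. -/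
theorem exists_vbox (d : ℕ) {ρ : ℝ} (hρ : 0 ≤ ρ) : ∃ B : Finset (V d), (∀ x, nm x ≤ ρ → x ∈ B) ∧
    (B.card : ℝ) ≤ (2 * ρ + 1) ^ d := by
  refine ⟨Fintype.piFinset fun _ : Fin d => Icc (-(⌊ρ⌋₊ : ℤ)) ⌊ρ⌋₊, ?_, ?_⟩
  · intro x hx
    rw [Fintype.mem_piFinset]
    intro i
    have h1 : ((x i).natAbs : ℝ) ≤ ρ := by
      rw [Nat.cast_natAbs, Int.cast_abs]
      exact (abs_le_nm x i).trans hx
    have h2 : (x i).natAbs ≤ ⌊ρ⌋₊ := Nat.le_floor h1
    rw [mem_Icc]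
    omega
  · rw [Fintype.card_piFinset, prod_const, card_univ, Fintype.card_fin, Int.card_Icc]
    have h1 : ((⌊ρ⌋₊ : ℤ) + 1 - -(⌊ρ⌋₊ : ℤ)).toNat = 2 * ⌊ρ⌋₊ + 1 := by omega
    rw [h1]
    push_cast
    have h2 : (⌊ρ⌋₊ : ℝ) ≤ ρ := Nat.floor_le hρ
    exact pow_le_pow_left₀ (by positivity) (by linarith) d

/-- Finite boxes of edges.  PROOF.  As in `exists_vbox` (finite set, times `univ`). -/
theorem exists_ebox (d : ℕ) (ρ : ℝ) : ∃ A : Finset (Edge d), ∀ e, e ∈ A ↔ nm e.1 ≤ ρ := by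
  classical
  obtain ⟨B, hB, -⟩ := exists_vbox d (le_max_right ρ 0)
  refine ⟨(B ×ˢ univ).filter fun e => nm e.1 ≤ ρ, ?_⟩
  intro e
  rw [mem_filter, mem_product]
  constructor
  · exact fun h => h.2
  · intro h
    exact ⟨⟨hB _ (h.trans (le_max_left _ _)), mem_univ _⟩, h⟩

private theorem ALip_le [NeZero d] {a b : ℝ} (ha : 0 < a) {x y : V d} {A : Finset (Edge d)}
    (hA : ∀ e : Edge d, nm (e.1 - x) ≤ b / a * nm (y - x) → e ∈ A) {τ τ' : Env d} (hτ : Bd a b τ) (hτ' : Bd a b τ') :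
    T τ x y ≤ T τ' x y + ∑ e ∈ A, |τ e - τ' e| := by
  obtain ⟨w, hw⟩ := exists_geo hτ' ha x y
  have h1 := geo_length hτ' ha hw
  have h2 : (w.length : ℝ) ≤ b / a * nm (y - x) := by
    rw [div_mul_eq_mul_div, le_div_iff₀ ha]
    linarith
  have h3 := T_le_cost hτ ha.le w
  have h4 : cost τ w - cost τ' w ≤ ∑ e ∈ A, |τ e - τ' e| := by
    rw [cost_path τ hw.1, cost_path τ' hw.1, ← sum_sub_distrib]
    refine (sum_le_sum fun e _ => le_abs_self (τ e - τ' e)).trans ?_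
    refine sum_le_sum_of_subset_of_nonneg ?_ fun e _ _ => abs_nonneg _
    intro e he
    rw [List.mem_toFinset] at he
    exact hA e ((wedges_near w he).trans h2)
  rw [← hw.2]
  linarith

/-- PROOF.  Take a geodesic `w` of `τ'` (`exists_geo`): it has at most `b / a * nm (y - x)` edges (`geo_length`), all of them in
`A` (`wedges_near`); `T τ x y ≤ cost τ w` and `cost τ w - cost τ' w = ∑ e ∈ (wedges w).toFinset, (τ e - τ' e)` (`cost_path`).
By symmetry. -/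
theorem T_lipA [NeZero d] {a b : ℝ} (ha : 0 < a) {x y : V d} {A : Finset (Edge d)}
    (hA : ∀ e : Edge d, nm (e.1 - x) ≤ b / a * nm (y - x) → e ∈ A) {τ τ' : Env d} (hτ : Bd a b τ) (hτ' : Bd a b τ') :
    |T τ x y - T τ' x y| ≤ ∑ e ∈ A, |τ e - τ' e| := by
  have h1 := ALip_le ha hA hτ hτ'
  have h2 := ALip_le ha hA hτ' hτ
  have h3 : ∑ e ∈ A, |τ' e - τ e| = ∑ e ∈ A, |τ e - τ' e| := sum_congr rfl fun e _ => abs_sub_comm _ _
  rw [h3] at h2
  rw [abs_le]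
  constructor <;> linarith

end Pool.Agent.W_1b8d5d_gd
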