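import Pool.Agent.W_1b8d5d_gd.ATr2
import Pool.Agent.W_1b8d5d_gd.ALip

/-!
MP_1b8d5d_pr, general dimension: medians of the true passage times and of the truncated ones.
-/

set_option autoImplicit false

open MeasureTheory

namespace Pool.Agent.W_1b8d5d_gd

open Finset Pool.Agent.W_1b8d5d_h85

variable {d : ℕ} [NeZero d] {ν : Measure ℝ} {Ω : Type} [MeasurableSpace Ω] {P : Measure Ω} {τ : Edge d → Ω → ℝ}

/-- Walks are determined by their support. -/
private theorem AMed_countable (x y : V d) : Countable ((grid d).Walk x y) := by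
  have h : Function.Injective (fun w : (grid d).Walk x y => w.support) :=
    fun p q hpq => SimpleGraph.Walk.ext_support hpq
  exact h.countable

omit [NeZero d] in
private theorem AMed_list (hτ : ∀ e, Measurable (τ e)) (l : List (Edge d)) :
    Measurable fun ω => (l.map fun e => τ e ω).sum := by
  induction l with
  | nil => simp
  | cons e l ih =>
    simp only [List.map_cons, List.sum_cons]
    exact (hτ e).add ih

private theorem AMed_T {σ : Edge d → Ω → ℝ} (hσ : ∀ e, Measurable (σ e)) (x y : V d) :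
    Measurable fun ω => T (fun e => σ e ω) x y := by
  have := AMed_countable x y
  unfold T
  refine Measurable.iInf fun w => ?_
  exact AMed_list hσ (wedges w)

omit [NeZero d] in
private theorem AMed_tr (hτ : ∀ e, Measurable (τ e)) (a h : ℝ) (e : Edge d) :
    Measurable fun ω => tr a h (τ e ω) := by
  unfold tr
  exact measurable_const.max ((hτ e).min measurable_const)

private theorem AMed_Tr (hτ : ∀ e, Measurable (τ e)) (a h : ℝ) (x y : V d) :
    Measurable fun ω => T (trE a h τ ω) x y :=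
  AMed_T (σ := fun e ω => tr a h (τ e ω)) (fun e => AMed_tr hτ a h e) x y

/-- The truncated cost of a walk. -/
private theorem AMed_cost {a h : ℝ} (ha : 0 ≤ a) {ω : Ω} (h0 : ∀ e, 0 ≤ τ e ω) {x y : V d}
    (w : (grid d).Walk x y) : cost (trE a h τ ω) w ≤ cost (fun e => τ e ω) w + a * w.length := by
  rw [← length_wedges w]
  unfold cost
  generalize wedges w = l
  induction l with
  | nil => simp
  | cons e l ih =>
    rw [List.map_cons, List.sum_cons, List.map_cons, List.sum_cons, List.length_cons]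
    push_cast
    have h1 : trE a h τ ω e ≤ τ e ω + a := by
      unfold trE tr
      refine max_le ?_ ?_
      · have := h0 e
        linarith
      · have := min_le_left (τ e ω) h
        linarith
    linarith

/-- Almost surely all weights are nonnegative.  PROOF.  Countably many edges, `LawP.nonneg`. -/
theorem ae_nonneg (hν : LawP ν) (hτ : IsFPP ν P τ) : ∀ᵐ ω ∂P, ∀ e, 0 ≤ τ e ω := by
  rw [ae_all_iff]
  intro e
  rw [ae_iff]
  have h2 : {ω | ¬ 0 ≤ τ e ω} = τ e ⁻¹' Set.Iio 0 := by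
    ext ω
    simp only [Set.mem_ofPred_eq, not_le, Set.mem_preimage, Set.mem_Iio]
  rw [h2, ← Measure.map_apply (hτ.meas e) measurableSet_Iio, hτ.law e]
  exact hν.nonneg

/-- Small truncation from below changes little.  PROOF.  `E L` = the event that there is a walk from `0` to `z` with at most
`L` edges and cost `< s + 1 / 8`: increasing in `L`, the union contains `{T ≤ s}`, so `P.real (E L) ≥ 1 / 2 - 1 / 1000` for
some `L` (`tendsto_measure_iUnion_atTop`).  On `E L` with nonnegative weights and `a L ≤ 1 / 8`: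
`T (trE a h τ ω) 0 z ≤ cost (trE a h τ ω) w ≤ cost w + a L` (`max a (min x h) ≤ x + a`). -/
theorem med_up (hν : LawP ν) (hτ : IsFPP ν P τ) (z : V d) {s : ℝ}
    (hs : 1 / 2 ≤ P.real {ω | T (fun e => τ e ω) 0 z ≤ s}) : ∃ a₀ : ℝ, 0 < a₀ ∧ ∀ a h : ℝ, 0 ≤ a → a ≤ a₀ → a ≤ h →
      1 / 2 - 1 / 1000 ≤ P.real {ω | T (trE a h τ ω) 0 z ≤ s + 1 / 4} := by
  have := hτ.prob
  set E : ℕ → Set Ω := fun L => {ω | ∃ w : (grid d).Walk 0 z, w.length ≤ L ∧ cost (fun e => τ e ω) w < s + 1 / 8} with hE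
  have hmono : Monotone E := by
    intro L L' hL ω hω
    obtain ⟨w, h1, h2⟩ := hω
    exact ⟨w, h1.trans hL, h2⟩
  have hsub : {ω | T (fun e => τ e ω) 0 z ≤ s} ⊆ ⋃ L, E L := by
    intro ω hω
    rw [Set.mem_iUnion]
    obtain ⟨w0, -⟩ := exists_walk (0 : V d) z
    have : Nonempty ((grid d).Walk 0 z) := ⟨w0⟩
    have h1 : (⨅ w : (grid d).Walk 0 z, cost (fun e => τ e ω) w) < s + 1 / 8 :=
      lt_of_le_of_lt hω (by linarith)
    obtain ⟨w, hw⟩ := exists_lt_of_ciInf_lt h1
    exact ⟨w.length, w, le_rfl, hw⟩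
  have hlim := tendsto_measure_iUnion_atTop (μ := P) hmono
  have hlim2 : Filter.Tendsto (fun L => P.real (E L)) Filter.atTop (nhds (P.real (⋃ L, E L))) :=
    (ENNReal.tendsto_toReal (measure_ne_top P _)).comp hlim
  have hbig : (1 / 2 : ℝ) - 1 / 1000 < P.real (⋃ L, E L) := by
    have h1 := measureReal_mono (μ := P) hsub
    linarith
  obtain ⟨L, hL⟩ := (hlim2.eventually (lt_mem_nhds hbig)).exists
  have hL0 : (0 : ℝ) < 8 * (L + 1) := by positivity
  refine ⟨1 / (8 * (L + 1)), by positivity, fun a h ha ha0 hah => ?_⟩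
  have haL : a * L ≤ 1 / 8 := by
    rw [le_div_iff₀ hL0] at ha0
    nlinarith
  refine hL.le.trans ?_
  refine ENNReal.toReal_mono (measure_ne_top P _) (measure_mono_ae ?_)
  filter_upwards [ae_nonneg hν hτ] with ω h0 hω
  obtain ⟨w, h1, h2⟩ := hω
  have h3 : T (trE a h τ ω) 0 z ≤ cost (trE a h τ ω) w := T_le_cost (trE_Bd hah τ ω) ha w
  have h4 := AMed_cost (h := h) ha h0 w
  have h5 : a * (w.length : ℝ) ≤ a * L := mul_le_mul_of_nonneg_left (by exact_mod_cast h1) ha
  change T (trE a h τ ω) 0 z ≤ s + 1 / 4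
  linarith

/-- PROOF.  On the event of the hypothesis and with nonnegative weights
`T τ = T (min τ h) ≤ T (trE a h τ ω)` (monotonicity: `ciInf_mono`, costs are nonnegative). -/
theorem med_low (hν : LawP ν) (hτ : IsFPP ν P τ) (z : V d) {s a h : ℝ} (ha : 0 ≤ a) (hah : a ≤ h)
    (hs : 1 / 2 ≤ P.real {ω | s ≤ T (fun e => τ e ω) 0 z})
    (hh : 999 / 1000 ≤ P.real {ω | T (fun e => τ e ω) 0 z = T (fun e => min (τ e ω) h) 0 z}) :
    1 / 2 - 1 / 1000 ≤ P.real {ω | s ≤ T (trE a h τ ω) 0 z} := by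
  have := hτ.prob
  have hm1 : Measurable fun ω => T (fun e => τ e ω) 0 z := AMed_T hτ.meas 0 z
  have hm2 : Measurable fun ω => T (fun e => min (τ e ω) h) 0 z :=
    AMed_T (σ := fun e ω => min (τ e ω) h) (fun e => (hτ.meas e).min measurable_const) 0 z
  set B : Set Ω := {ω | T (fun e => τ e ω) 0 z = T (fun e => min (τ e ω) h) 0 z} with hB
  have hBm : MeasurableSet B := measurableSet_eq_fun hm1 hm2
  have hBc : P.real Bᶜ ≤ 1 / 1000 := by
    have h1 : P.real Bᶜ = 1 - P.real B := probReal_compl_eq_one_sub hBm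
    linarith
  have h2 : P.real {ω | s ≤ T (fun e => τ e ω) 0 z} ≤ P.real {ω | s ≤ T (trE a h τ ω) 0 z} + P.real Bᶜ := by
    refine le_trans ?_ (measureReal_union_le _ _)
    refine ENNReal.toReal_mono (measure_ne_top P _) (measure_mono_ae ?_)
    filter_upwards [ae_nonneg hν hτ] with ω h0 hω
    by_cases hb : ω ∈ B
    · left
      change s ≤ T (trE a h τ ω) 0 z
      have h3 : T (fun e => τ e ω) 0 z = T (fun e => min (τ e ω) h) 0 z := hb
      have h4 : s ≤ T (fun e => τ e ω) 0 z := hω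
      have h5 : T (fun e => min (τ e ω) h) 0 z ≤ T (trE a h τ ω) 0 z :=
        T_mono (a := 0) (b := h) le_rfl (fun e => ⟨le_min (h0 e) (ha.trans hah), min_le_right _ _⟩)
          (fun e => le_max_right _ _) 0 z
      linarith
    · right
      exact hb
  linarith

/-- The medians of the torus model.  PROOF.  `trans_le` with `G τ = T τ 0 z` and `T_lipA` (the box `A` around `0`); `s + 1 / 4` in
the first inequality, `s - 1` in the second one. -/
theorem tor_med (hν : LawP ν) (hτ : IsFPP ν P τ) {a h : ℝ} (ha : 0 < a) (hah : a ≤ h) (hh : 2 ≤ h) {m N : ℕ} [NeZero m]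
    [NeZero N] {c : ℕ → ℝ} (hc : Cuts (ν.map ph) 0 1 N c) {R : ℝ} (hm : 2 * R < m) {A : Finset (Edge d)}
    (hA : ∀ e, e ∈ A ↔ nm e.1 ≤ R) (hN : 1000 * (A.card * (1 + h) ^ 2) ≤ N) {z : V d} (hz : h / a * nm z ≤ R) {s : ℝ} :
    (1 / 2 - 1 / 1000 ≤ P.real {ω | T (trE a h τ ω) 0 z ≤ s + 1 / 4} →
      49 / 100 ≤ (tor d m N (cw a h c) (cw_mem ha.le hah c)).P (fun τ => T τ 0 z ≤ s + h)) ∧
    (1 / 2 - 1 / 1000 ≤ P.real {ω | s ≤ T (trE a h τ ω) 0 z} →
      49 / 100 ≤ (tor d m N (cw a h c) (cw_mem ha.le hah c)).P (fun τ => s - h ≤ T τ 0 z)) := by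
  have := hτ.prob
  have hG : ∀ τ₁ τ₂ : Env d, Bd a h τ₁ → Bd a h τ₂ → |T τ₁ 0 z - T τ₂ 0 z| ≤ ∑ e ∈ A, |τ₁ e - τ₂ e| := by
    intro τ₁ τ₂ h1 h2
    refine T_lipA ha (fun e he => ?_) h1 h2
    rw [hA]
    rw [sub_zero, sub_zero] at he
    exact he.trans hz
  have hN0 : (0 : ℝ) < N := by
    have := Nat.pos_of_ne_zero (NeZero.ne N)
    exact_mod_cast this
  have hcard : (A.card : ℝ) * ((1 + h) ^ 2 / N) ≤ 1 / 1000 := by
    rw [← mul_div_assoc, div_le_iff₀ hN0]
    linarith
  have hA' : ∀ e ∈ A, nm e.1 ≤ R := fun e he => (hA e).1 he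
  constructor
  · intro h1
    have h2 := (trans_le hν ha.le hah hc hτ hm A hA' (fun τ => T τ 0 z) hG (s + 1 / 4)).1
    have h3 : (tor d m N (cw a h c) (cw_mem ha.le hah c)).P (fun τ => T τ 0 z < s + 1 / 4 + 1) ≤
        (tor d m N (cw a h c) (cw_mem ha.le hah c)).P (fun τ => T τ 0 z ≤ s + h) :=
      Mdl.P_mono _ fun σ _ hσ => by linarith
    linarith
  · intro h1
    have h2 := (trans_le hν ha.le hah hc hτ hm A hA' (fun τ => T τ 0 z) hG (s - 1)).2
    have hmeas : MeasurableSet {ω | s ≤ T (trE a h τ ω) 0 z} :=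
      measurableSet_le measurable_const (AMed_Tr hτ.meas a h 0 z)
    have h3 : P.real {ω | T (trE a h τ ω) 0 z < s - 1 + 1} = 1 - P.real {ω | s ≤ T (trE a h τ ω) 0 z} := by
      rw [← probReal_compl_eq_one_sub hmeas]
      congr 1
      ext ω
      simp only [Set.mem_ofPred_eq, Set.mem_compl_iff, not_le, sub_add_cancel]
    have h4 : 1 - (tor d m N (cw a h c) (cw_mem ha.le hah c)).P (fun τ => T τ 0 z ≤ s - 1) ≤
        (tor d m N (cw a h c) (cw_mem ha.le hah c)).P (fun τ => s - h ≤ T τ 0 z) := by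
      rw [← Mdl.P_not]
      exact Mdl.P_mono _ fun σ _ hσ => by
        have := not_le.1 hσ
        linarith
    linarith

end Pool.Agent.W_1b8d5d_gd
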