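import Pool.Agent.W_1b8d5d_gd.APeierls
import Pool.Agent.W_1b8d5d_gd.ALip

/-!
MP_1b8d5d_pr, general dimension: the Peierls estimate for all starting points of a box.
-/

set_option autoImplicit false

namespace Pool.Agent.W_1b8d5d_gd

open Finset Filter Pool.Agent.W_1b8d5d_h85

variable {d : ℕ} [NeZero d]

/-- Polynomials against exponentials. -/
private theorem APei_ev (d p : ℕ) : ∀ᶠ h : ℝ in atTop, (2 * h ^ p + 1) ^ d * 2 ≤ Real.exp h := by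
  have h1 := (Real.tendsto_exp_div_pow_atTop (p * d)).eventually_ge_atTop (2 * 3 ^ d)
  filter_upwards [h1, eventually_ge_atTop (1 : ℝ)] with h h2 h3
  have h4 : (0 : ℝ) < h ^ (p * d) := by positivity
  rw [le_div_iff₀ h4] at h2
  have h5 : (1 : ℝ) ≤ h ^ p := one_le_pow₀ h3
  have h6 : (2 * h ^ p + 1) ^ d ≤ (3 * h ^ p) ^ d := pow_le_pow_left₀ (by positivity) (by linarith) d
  have h7 : (3 * h ^ p) ^ d = 3 ^ d * h ^ (p * d) := by rw [mul_pow, ← pow_mul]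
  rw [h7] at h6
  linarith

/-- PROOF.  `exists_vbox` for `ρ = h ^ p`, `Mdl.P_exists_le`, and `tor_peierls_one` with `R = h ^ p`, `K = 2`, `l = ⌈h ^ 10⌉₊`:
the probability is at most `(2 h ^ p + 1) ^ d * 2 * (1 / 4) ^ (h ^ 10) ≤ exp (-h)` for large `h`
(`(1 / 4) ^ l ≤ exp (-l)`, polynomials against exponentials). -/
theorem tor_peierls (d : ℕ) [NeZero d] (p : ℕ) : ∀ᶠ h : ℝ in atTop, ∀ (a : ℝ) (m N : ℕ) [NeZero m] [NeZero N] (c : ℕ → ℝ)
    (hc : ∀ j, a ≤ c j ∧ c j ≤ h) (su : ℝ), 2 * h ^ p < m → Pr (fun u : Fin N => c u < su) ≤ (1 / (16 * d)) ^ 2 →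
    (tor d m N c hc).P (fun τ => ∃ (x y : V d) (w : (grid d).Walk x y), nm x ≤ h ^ p ∧ w.IsPath ∧
      h ^ 10 ≤ w.length ∧ (w.length : ℝ) ≤ h ^ p ∧ (nHigh su τ w : ℝ) < w.length / 2) ≤ Real.exp (-h) := by
  filter_upwards [APei_ev d p, eventually_ge_atTop (2 : ℝ)] with h hev h2 a m N _ _ c hc su hm hδ
  have hp1 : (1 : ℝ) ≤ h ^ p := one_le_pow₀ (by linarith)
  obtain ⟨B, hB, hBc⟩ := exists_vbox d (ρ := h ^ p) (by linarith)
  set l : ℕ := ⌈h ^ 10⌉₊ with hl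
  have hone : ∀ x : V d, (tor d m N c hc).P (fun τ => ∃ (y : V d) (w : (grid d).Walk x y), w.IsPath ∧
      l ≤ w.length ∧ (w.length : ℝ) ≤ h ^ p ∧ (nHigh su τ w : ℝ) < w.length / 2) ≤ 2 * (1 / 4) ^ l := fun x =>
    tor_peierls_one m N c hc hp1 hm hδ le_rfl x l
  have h1 : (tor d m N c hc).P (fun τ => ∃ (x y : V d) (w : (grid d).Walk x y), nm x ≤ h ^ p ∧ w.IsPath ∧
      h ^ 10 ≤ w.length ∧ (w.length : ℝ) ≤ h ^ p ∧ (nHigh su τ w : ℝ) < w.length / 2) ≤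
      (tor d m N c hc).P (fun τ => ∃ x ∈ B, ∃ (y : V d) (w : (grid d).Walk x y), w.IsPath ∧
      l ≤ w.length ∧ (w.length : ℝ) ≤ h ^ p ∧ (nHigh su τ w : ℝ) < w.length / 2) := by
    refine Mdl.P_mono _ fun τ _ hτ => ?_
    obtain ⟨x, y, w, hx, hw, hl1, hl2, hn⟩ := hτ
    exact ⟨x, hB x hx, y, w, hw, Nat.ceil_le.2 hl1, hl2, hn⟩
  refine (h1.trans (Mdl.P_exists_le _ B _)).trans ?_
  refine (sum_le_sum fun x _ => hone x).trans ?_
  rw [sum_const, nsmul_eq_mul]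
  have h3 : ((1 : ℝ) / 4) ^ l ≤ Real.exp (-(h ^ 10)) := by
    have h4 : (1 : ℝ) / 4 ≤ Real.exp (-1) := by
      rw [Real.exp_neg, ← one_div]
      have h5 := Real.exp_one_lt_d9
      exact one_div_le_one_div_of_le (Real.exp_pos 1) (by linarith)
    calc ((1 : ℝ) / 4) ^ l ≤ (Real.exp (-1)) ^ l := pow_le_pow_left₀ (by norm_num) h4 l
      _ = Real.exp (-(l : ℝ)) := by rw [← Real.exp_nat_mul]; congr 1; ring
      _ ≤ Real.exp (-(h ^ 10)) := Real.exp_le_exp.2 (by linarith [Nat.le_ceil (h ^ 10)])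
  have h6 : 2 * h ≤ h ^ 10 := by
    have h7 : (2 : ℝ) ≤ h ^ 9 := by
      calc (2 : ℝ) ≤ h ^ 1 := by simpa using h2
        _ ≤ h ^ 9 := pow_le_pow_right₀ (by linarith) (by norm_num)
    calc 2 * h ≤ h ^ 9 * h := mul_le_mul_of_nonneg_right h7 (by linarith)
      _ = h ^ 10 := by ring
  calc (B.card : ℝ) * (2 * (1 / 4) ^ l) ≤ (2 * h ^ p + 1) ^ d * (2 * Real.exp (-(h ^ 10))) :=
        mul_le_mul hBc (by linarith) (by positivity) (by positivity)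
    _ = ((2 * h ^ p + 1) ^ d * 2) * Real.exp (-(h ^ 10)) := by ring
    _ ≤ Real.exp h * Real.exp (-(h ^ 10)) := mul_le_mul_of_nonneg_right hev (Real.exp_pos _).le
    _ = Real.exp (h + -(h ^ 10)) := by rw [Real.exp_add]
    _ ≤ Real.exp (-h) := Real.exp_le_exp.2 (by linarith)

end Pool.Agent.W_1b8d5d_gd
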