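import Pool.Agent.W_1b8d5d_nd.Mod
import Pool.Agent.W_1b8d5d_gd.AKer
import Pool.Agent.W_1b8d5d_gd.APei
import Pool.Agent.W_1b8d5d_gd.ALow
import Pool.Agent.W_1b8d5d_gd.ALvl
import Pool.Agent.W_1b8d5d_gd.AMed

/-!
MP_1b8d5d_pr, general dimension: an atomless law on `[0, ∞)` has good finite models at all large scales.
-/

set_option autoImplicit false

open MeasureTheory

namespace Pool.Agent.W_1b8d5d_gd

open Finset Filter Pool.Agent.W_1b8d5d_h85

variable {d : ℕ} [NeZero d] {ν : Measure ℝ} {Ω : Type} [MeasurableSpace Ω] {P : Measure Ω} {τ : Edge d → Ω → ℝ}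

private theorem AGoodN_small (hν : LawP ν) (hτ : IsFPP ν P τ) {mm : V d → ℝ}
    (hU : ∀ z, 1 / 2 ≤ P.real {ω | T (fun e => τ e ω) 0 z ≤ mm z}) (B : Finset (V d)) :
    ∃ a₀ : ℝ, 0 < a₀ ∧ ∀ a h : ℝ, 0 ≤ a → a ≤ a₀ → a ≤ h → ∀ z ∈ B,
      1 / 2 - 1 / 1000 ≤ P.real {ω | T (trE a h τ ω) 0 z ≤ mm z + 1 / 4} := by
  classical
  induction B using Finset.induction_on with
  | empty => exact ⟨1, one_pos, fun a h _ _ _ z hz => absurd hz (notMem_empty z)⟩
  | insert z B _ ih =>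
    obtain ⟨a₁, ha₁, h₁⟩ := ih
    obtain ⟨a₂, ha₂, h₂⟩ := med_up hν hτ z (hU z)
    refine ⟨min a₁ a₂, lt_min ha₁ ha₂, fun a h ha0 ha hah z' hz' => ?_⟩
    rcases mem_insert.1 hz' with rfl | hz'
    · exact h₂ a h ha0 (ha.trans (min_le_right _ _)) hah
    · exact h₁ a h ha0 (ha.trans (min_le_left _ _)) hah z' hz'

/-- Good finite models. -/
theorem hasN (hν : LawP ν) (hτ : IsFPP ν P τ) {mm : V d → ℝ}
    (hU : ∀ z, 1 / 2 ≤ P.real {ω | T (fun e => τ e ω) 0 z ≤ mm z})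
    (hL : ∀ z, 1 / 2 ≤ P.real {ω | mm z ≤ T (fun e => τ e ω) 0 z})
    (htr : ∀ p : ℕ, ∃ h₀ : ℝ, ∀ h : ℝ, h₀ ≤ h → ∀ z : V d, nm z ≤ h ^ p →
      999 / 1000 ≤ P.real {ω | T (fun e => τ e ω) 0 z = T (fun e => min (τ e ω) h) 0 z}) :
    ∃ Q : Pool.Agent.W_1b8d5d_nd.Qn, Pool.Agent.W_1b8d5d_nd.HasN Q mm := by
  have hd1 : (1 : ℝ) ≤ d := by exact_mod_cast NeZero.one_le
  have hε0 : (0 : ℝ) < (1 / (16 * d)) ^ 2 := by positivity
  have hε1 : ((1 : ℝ) / (16 * d)) ^ 2 < 1 := by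
    have h1 : (1 : ℝ) / (16 * d) < 1 := by
      rw [div_lt_one (by positivity)]
      linarith
    exact pow_lt_one₀ (by positivity) h1 two_ne_zero
  obtain ⟨sl, su, pl, a₀, h₀, C, hsl, hlt, hpl, ha₀, hlev⟩ := exists_levels hν hε0 hε1
  have hK1 : 1 ≤ 1 / pl + 1 := by
    have : 0 < 1 / pl := by positivity
    linarith
  refine ⟨⟨sl, su, pl, 1 / pl + 1, hsl.le, hlt, hpl, hK1⟩, fun p => ?_⟩
  obtain ⟨h₁, hh₁⟩ := htr p
  filter_upwards [tor_peierls d p, tor_low d (hsl.trans hlt) p, tor_var d (hsl.trans hlt) p, eventually_ge_atTop h₀,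
    eventually_ge_atTop h₁, eventually_ge_atTop 2] with h hpei hlow hvar hh0 hh1 hh2
  have hpos : 0 < h := by linarith
  obtain ⟨B, hB, -⟩ := exists_vbox d (ρ := h ^ p) (by positivity)
  obtain ⟨a₂, ha₂, hup⟩ := AGoodN_small hν hτ hU B
  set a : ℝ := min (min a₀ a₂) h with ha_def
  have ha : 0 < a := lt_min (lt_min ha₀ ha₂) hpos
  have hah : a ≤ h := min_le_right _ _
  have haa₀ : a ≤ a₀ := (min_le_left _ _).trans (min_le_left _ _)
  have haa₂ : a ≤ a₂ := (min_le_left _ _).trans (min_le_right _ _)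
  set R : ℝ := max (h ^ (p + 100)) (h / a * h ^ p) with hR_def
  obtain ⟨A, hA⟩ := exists_ebox d R
  obtain ⟨m, hm⟩ := exists_nat_gt (2 * R)
  obtain ⟨N, hN⟩ := exists_nat_gt (max (C * (1 + h) ^ 2) (1000 * (A.card * (1 + h) ^ 2)))
  have hR1 : h ^ (p + 100) ≤ R := le_max_left _ _
  have hR0 : 0 < R := lt_of_lt_of_le (by positivity) hR1
  have hm0 : m ≠ 0 := by
    rintro rfl
    rw [Nat.cast_zero] at hm
    linarith
  have hN0 : 0 < N := by
    have h1 : (0 : ℝ) ≤ 1000 * (A.card * (1 + h) ^ 2) := by positivity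
    have h2 : (0 : ℝ) < N := lt_of_le_of_lt (h1.trans (le_max_right _ _)) hN
    exact_mod_cast h2
  have : NeZero m := ⟨hm0⟩
  have : NeZero N := ⟨hN0.ne'⟩
  obtain ⟨c, hcut⟩ := exists_cuts (law_ph hν) hN0
  obtain ⟨hl1, hl2⟩ := hlev a h ha.le haa₀ hah hh0 N c hN0 ((le_max_left _ _).trans hN.le) hcut
  have hc := cw_mem ha.le hah c
  have hm1 : 2 * h ^ (p + 100) < m := by linarith
  have hm2 : 2 * h ^ (p + 20) < m := by
    have h1 : h ^ (p + 20) ≤ h ^ (p + 100) := pow_le_pow_right₀ (by linarith) (by omega)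
    linarith
  have hm3 : 2 * h ^ p < m := by
    have h1 : h ^ p ≤ h ^ (p + 100) := pow_le_pow_right₀ (by linarith) (by omega)
    linarith
  have hz0 : ∀ z : V d, nm z ≤ h ^ p → h / a * nm z ≤ R := fun z hz =>
    (mul_le_mul_of_nonneg_left hz (by positivity)).trans (le_max_right _ _)
  have hmed : ∀ z : V d, nm z ≤ h ^ p →
      (49 / 100 ≤ (tor d m N (cw a h c) hc).P (fun τ => T τ 0 z ≤ mm z + h)) ∧
      (49 / 100 ≤ (tor d m N (cw a h c) hc).P (fun τ => mm z - h ≤ T τ 0 z)) := by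
    intro z hz
    obtain ⟨k1, k2⟩ := tor_med hν hτ ha hah hh2 hcut hm hA ((le_max_right _ _).trans hN.le) (hz0 z hz) (s := mm z)
    exact ⟨k1 (hup a h ha.le haa₂ hah z (hB z hz)), k2 (med_low hν hτ z ha.le hah (hL z) (hh₁ h hh1 z hz))⟩
  refine ⟨a, tor d m N (cw a h c) hc, ?_⟩
  exact
    { apos := ha
      alt := hah
      inv := fun z F => tor_inv m N (cw a h c) hc z F
      rfl' := fun F => tor_refl m N (cw a h c) hc F
      indep := fun A B hAB hR F G hF hG => tor_indep m N (cw a h c) hc hm1 A B hAB hR F G hF hG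
      medU := fun z hz => (hmed z hz).1
      medL := fun z hz => (hmed z hz).2
      low := fun z hz => hlow a m N (cw a h c) hc ha hm2 hl1 z hz
      var := fun z hz => hvar a m N (cw a h c) hc ha hm2 hl1 z hz
      peierls := hpei a m N (cw a h c) hc su hm3 hl1
      tilt := fun D δ hD hδ hδ2 => tor_tilt m N (cw a h c) hc hm1 hlt hpl hl2 le_rfl D δ hD hδ hδ2 }

end Pool.Agent.W_1b8d5d_gd
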