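import Pool.Agent.W_1b8d5d_gd.Defs
import Pool.Agent.W_1b8d5d_h85.AInd

/-!
MP_1b8d5d_pr, general dimension: the finite torus models.  One coordinate in `Fin N` for every edge of the torus of side `m`;
the weight of an edge is `c u`, `u` the coordinate (`c` arbitrary with values in `[a, b]`).
-/

set_option autoImplicit false

namespace Pool.Agent.W_1b8d5d_gd

open Finset Pool.Agent.W_1b8d5d_h85

variable {d : ℕ}

/-- The edges of the torus. -/
abbrev TE (d m : ℕ) : Type := (Fin d → ZMod m) × Fin d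

/-- The projection of the edges to the torus. -/
def pr (m : ℕ) (e : Edge d) : TE d m := (fun i => ((e.1 i : ℤ) : ZMod m), e.2)

/-- The periodic environment of a configuration of the torus. -/
def tenv (m : ℕ) {N : ℕ} (c : ℕ → ℝ) (ω : TE d m → Fin N) : Env d := fun e => c (ω (pr m e))

/-- The torus model. -/
noncomputable def tor (d : ℕ) {a b : ℝ} (m N : ℕ) [NeZero m] [NeZero N] (c : ℕ → ℝ) (hc : ∀ j, a ≤ c j ∧ c j ≤ b) :
    Mdl d a b where
  Ω := TE d m → Fin N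
  env := tenv m c
  bd _ _ := hc _

theorem tor_E {a b : ℝ} (m N : ℕ) [NeZero m] [NeZero N] (c : ℕ → ℝ) (hc : ∀ j, a ≤ c j ∧ c j ≤ b) (F : Env d → ℝ) :
    (tor d m N c hc).E F = Ex fun ω : TE d m → Fin N => F (tenv m c ω) := rfl

theorem tor_P {a b : ℝ} (m N : ℕ) [NeZero m] [NeZero N] (c : ℕ → ℝ) (hc : ∀ j, a ≤ c j ∧ c j ≤ b)
    (p : Env d → Prop) : (tor d m N c hc).P p = Pr fun ω : TE d m → Fin N => p (tenv m c ω) := rfl

theorem tenv_Bd {a b : ℝ} {m N : ℕ} {c : ℕ → ℝ} (hc : ∀ j, a ≤ c j ∧ c j ≤ b) (ω : TE d m → Fin N) :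
    Bd a b (tenv m c ω) := fun _ => hc _

theorem ATor_abs_le (x : V d) (i : Fin d) : |(x i : ℝ)| ≤ nm x := by
  unfold nm
  exact single_le_sum (f := fun i => |(x i : ℝ)|) (fun j _ => abs_nonneg _) (mem_univ i)

/-- The projection is injective on boxes. -/
theorem pr_inj {m : ℕ} {L : ℝ} (hm : 2 * L < m) {x : V d} {e e' : Edge d} (h : nm (e.1 - x) ≤ L)
    (h' : nm (e'.1 - x) ≤ L) (hp : pr m e = pr m e') : e = e' := by
  have h1 := congrArg (fun t : TE d m => t.1) hp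
  have h3 := congrArg (fun t : TE d m => t.2) hp
  simp only [pr] at h1 h3
  refine Prod.ext (funext fun i => ?_) h3
  have h2 := congrFun h1 i
  rw [ZMod.intCast_eq_intCast_iff_dvd_sub] at h2
  have k1 := (ATor_abs_le (e.1 - x) i).trans h
  have k2 := (ATor_abs_le (e'.1 - x) i).trans h'
  simp only [Pi.sub_apply, Int.cast_sub] at k1 k2
  have ha : |((e'.1 i - e.1 i : ℤ) : ℝ)| < m := by
    push_cast
    have k3 := abs_sub_le (e'.1 i : ℝ) (x i : ℝ) (e.1 i : ℝ)
    have k4 := abs_sub_comm (x i : ℝ) (e.1 i : ℝ)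
    linarith
  have hb : |e'.1 i - e.1 i| < (m : ℤ) := by exact_mod_cast ha
  have c1 := Int.eq_zero_of_abs_lt_dvd h2 hb
  omega

/-- The shift of the torus by `z`. -/
def tshift (m : ℕ) (z : V d) : TE d m ≃ TE d m where
  toFun t := (fun i => t.1 i + ((z i : ℤ) : ZMod m), t.2)
  invFun t := (fun i => t.1 i - ((z i : ℤ) : ZMod m), t.2)
  left_inv t := by
    refine Prod.ext (funext fun i => ?_) rfl
    simp
  right_inv t := by
    refine Prod.ext (funext fun i => ?_) rfl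
    simp

theorem pr_shift (m : ℕ) (z : V d) (e : Edge d) : pr m (e.1 + z, e.2) = tshift m z (pr m e) := by
  refine Prod.ext (funext fun i => ?_) rfl
  simp [pr, tshift]

theorem tenv_shift {m N : ℕ} (c : ℕ → ℝ) (z : V d) (ω : TE d m → Fin N) :
    tenv m c (fun t => ω (tshift m z t)) = sh z (tenv m c ω) := by
  funext e
  show c (ω (tshift m z (pr m e))) = c (ω (pr m (e.1 + z, e.2)))
  rw [pr_shift]

/-- Invariance under shifts. -/
theorem tor_inv {a b : ℝ} (m N : ℕ) [NeZero m] [NeZero N] (c : ℕ → ℝ) (hc : ∀ j, a ≤ c j ∧ c j ≤ b) (z : V d)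
    (F : Env d → ℝ) : (tor d m N c hc).E (fun τ => F (sh z τ)) = (tor d m N c hc).E F := by
  rw [tor_E, tor_E]
  rw [← Ex_equiv (Equiv.arrowCongr (tshift m z).symm (Equiv.refl (Fin N)))
    (fun ω : TE d m → Fin N => F (tenv m c ω))]
  refine Ex_congr fun ω => ?_
  rw [← tenv_shift]
  rfl

/-- The reflection of the torus. -/
def ATor_tr (m : ℕ) : TE d m ≃ TE d m where
  toFun t := (fun i => -t.1 i - ((dir t.2 i : ℤ) : ZMod m), t.2)
  invFun t := (fun i => -t.1 i - ((dir t.2 i : ℤ) : ZMod m), t.2)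
  left_inv t := by
    refine Prod.ext (funext fun i => ?_) rfl
    show -(-t.1 i - ((dir t.2 i : ℤ) : ZMod m)) - ((dir t.2 i : ℤ) : ZMod m) = t.1 i
    ring
  right_inv t := by
    refine Prod.ext (funext fun i => ?_) rfl
    show -(-t.1 i - ((dir t.2 i : ℤ) : ZMod m)) - ((dir t.2 i : ℤ) : ZMod m) = t.1 i
    ring

theorem ATor_tr_pr (m : ℕ) (e : Edge d) : pr m (-e.1 - dir e.2, e.2) = ATor_tr m (pr m e) := by
  refine Prod.ext (funext fun i => ?_) rfl
  show (((-e.1 - dir e.2) i : ℤ) : ZMod m) = -(((e.1 i : ℤ) : ZMod m)) - ((dir e.2 i : ℤ) : ZMod m)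
  rw [Pi.sub_apply, Pi.neg_apply, Int.cast_sub, Int.cast_neg]

theorem ATor_tenv {m N : ℕ} (c : ℕ → ℝ) (ω : TE d m → Fin N) :
    tenv m c (fun t => ω (ATor_tr m t)) = rf (tenv m c ω) := by
  funext e
  show c (ω (ATor_tr m (pr m e))) = c (ω (pr m (-e.1 - dir e.2, e.2)))
  rw [ATor_tr_pr]

/-- Invariance under the reflection. -/
theorem tor_refl {a b : ℝ} (m N : ℕ) [NeZero m] [NeZero N] (c : ℕ → ℝ) (hc : ∀ j, a ≤ c j ∧ c j ≤ b)
    (F : Env d → ℝ) : (tor d m N c hc).E (fun τ => F (rf τ)) = (tor d m N c hc).E F := by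
  rw [tor_E, tor_E]
  rw [← Ex_equiv (Equiv.arrowCongr (ATor_tr m).symm (Equiv.refl (Fin N)))
    (fun ω : TE d m → Fin N => F (tenv m c ω))]
  refine Ex_congr fun ω => ?_
  rw [← ATor_tenv]
  rfl

/-- Independence of disjoint sets of edges of the box of radius `R`. -/
theorem tor_indep {a b : ℝ} (m N : ℕ) [NeZero m] [NeZero N] (c : ℕ → ℝ) (hc : ∀ j, a ≤ c j ∧ c j ≤ b) {R : ℝ}
    (hm : 2 * R < m) (A B : Set (Edge d)) (hAB : Disjoint A B) (hR : ∀ e ∈ A ∪ B, nm e.1 ≤ R)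
    (F G : Env d → ℝ) (hF : DependsOn F A) (hG : DependsOn G B) :
    (tor d m N c hc).E (fun τ => F τ * G τ) = (tor d m N c hc).E F * (tor d m N c hc).E G := by
  rw [tor_E, tor_E, tor_E]
  refine Ex_mul_dep (I := pr m '' A) (K := pr m '' B) (f := fun ω => F (tenv m c ω))
    (g := fun ω => G (tenv m c ω)) ?_ ?_ ?_
  · rw [Set.disjoint_left]
    rintro t ⟨e, he, rfl⟩ ⟨e', he', h1⟩
    have h2 : nm (e.1 - 0) ≤ R := by
      rw [sub_zero]
      exact hR e (Or.inl he)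
    have h3 : nm (e'.1 - 0) ≤ R := by
      rw [sub_zero]
      exact hR e' (Or.inr he')
    have h4 : e' = e := pr_inj hm h3 h2 h1
    rw [h4] at he'
    exact Set.disjoint_left.1 hAB he he'
  · intro x y hxy
    refine hF fun e he => ?_
    show c (x (pr m e)) = c (y (pr m e))
    rw [hxy _ (Set.mem_image_of_mem _ he)]
  · intro x y hxy
    refine hG fun e he => ?_
    show c (x (pr m e)) = c (y (pr m e))
    rw [hxy _ (Set.mem_image_of_mem _ he)]

end Pool.Agent.W_1b8d5d_gd
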