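import Pool.Agent.W_1b8d5d_h85.FBridge

/-!
MP_1b8d5d_pr, general dimension: a change of variables `ph : [0, ∞) → (0, 1]` which turns an atomless law on `[0, ∞)` into a
law on `[0, 1]`; the truncation `max a (min x h)` is a Lipschitz function of `ph x`.
-/

set_option autoImplicit false

open MeasureTheory

namespace Pool.Agent.W_1b8d5d_gd

open Pool.Agent.W_1b8d5d_h85

/-- An atomless probability law on `[0, ∞)`. -/
structure LawP (ν : Measure ℝ) : Prop where
  prob : IsProbabilityMeasure ν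
  nonneg : ν (Set.Iio 0) = 0
  atom : ∀ x : ℝ, ν ({x} : Set ℝ) = 0

/-- The change of variables. -/
noncomputable def ph (x : ℝ) : ℝ := 1 / (1 + |x|)

/-- The truncated inverse. -/
noncomputable def ps (a h y : ℝ) : ℝ := 1 / (min (max y (1 / (1 + h))) (1 / (1 + a))) - 1

theorem measurable_ph : Measurable ph := by
  unfold ph
  fun_prop

theorem ph_mem (x : ℝ) : ph x ∈ Set.Icc (0 : ℝ) 1 := by
  have h0 := abs_nonneg x
  unfold ph
  constructor
  · positivity
  · rw [div_le_one (by linarith)]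
    linarith

private theorem ATr1_mem {a h : ℝ} (ha : 0 ≤ a) (hah : a ≤ h) (y : ℝ) :
    1 / (1 + h) ≤ min (max y (1 / (1 + h))) (1 / (1 + a)) ∧ min (max y (1 / (1 + h))) (1 / (1 + a)) ≤ 1 / (1 + a) :=
  ⟨le_min (le_max_right _ _) (one_div_le_one_div_of_le (by linarith) (by linarith)), min_le_right _ _⟩

/-- PROOF.  The minimum is between `1 / (1 + h)` and `1 / (1 + a)`. -/
theorem ps_mem {a h : ℝ} (ha : 0 ≤ a) (hah : a ≤ h) (y : ℝ) : a ≤ ps a h y ∧ ps a h y ≤ h := by
  obtain ⟨h1, h2⟩ := ATr1_mem ha hah y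
  unfold ps
  set m : ℝ := min (max y (1 / (1 + h))) (1 / (1 + a)) with hm
  have hh : 0 < 1 + h := by linarith
  have ha' : 0 < 1 + a := by linarith
  have hm0 : 0 < m := lt_of_lt_of_le (by positivity) h1
  constructor
  · have h3 : 1 + a ≤ 1 / m := by
      rw [le_div_iff₀ hm0]
      rw [le_div_iff₀ ha'] at h2
      linarith
    linarith
  · have h3 : 1 / m ≤ 1 + h := by
      rw [div_le_iff₀ hm0]
      rw [div_le_iff₀ hh] at h1
      linarith
    linarith

/-- PROOF.  Cases `x ≤ a`, `a ≤ x ≤ h`, `h ≤ x`. -/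
theorem ps_ph {a h : ℝ} (ha : 0 ≤ a) (hah : a ≤ h) {x : ℝ} (hx : 0 ≤ x) : ps a h (ph x) = max a (min x h) := by
  have key : ∀ s t : ℝ, 0 ≤ s → s ≤ t → 1 / (1 + t) ≤ 1 / (1 + s) := fun s t hs hst =>
    one_div_le_one_div_of_le (by linarith) (by linarith)
  unfold ps ph
  rw [abs_of_nonneg hx]
  have h1 : max (1 / (1 + x)) (1 / (1 + h)) = 1 / (1 + min x h) := by
    rcases le_total x h with hxh | hxh
    · rw [min_eq_left hxh, max_eq_left (key x h hx hxh)]
    · rw [min_eq_right hxh, max_eq_right (key h x (ha.trans hah) hxh)]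
  have hu : 0 ≤ min x h := le_min hx (ha.trans hah)
  rw [h1]
  set u : ℝ := min x h with hudef
  have h2 : min (1 / (1 + u)) (1 / (1 + a)) = 1 / (1 + max a u) := by
    rcases le_total a u with hau | hau
    · rw [max_eq_right hau, min_eq_left (key a u ha hau)]
    · rw [max_eq_left hau, min_eq_right (key u a hu hau)]
  rw [h2, one_div_one_div]
  ring

/-- PROOF.  `y ↦ min (max y _) _` is `1`-Lipschitz with values `≥ 1 / (1 + h)`, and `|1 / s - 1 / t| ≤ (1 + h)² |s - t|` for
`s, t ≥ 1 / (1 + h)`. -/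
theorem ps_lip {a h : ℝ} (ha : 0 ≤ a) (hah : a ≤ h) (y y' : ℝ) : |ps a h y - ps a h y'| ≤ (1 + h) ^ 2 * |y - y'| := by
  obtain ⟨h1, -⟩ := ATr1_mem ha hah y
  obtain ⟨h2, -⟩ := ATr1_mem ha hah y'
  have hh : 0 < 1 + h := by linarith
  have hl : |min (max y (1 / (1 + h))) (1 / (1 + a)) - min (max y' (1 / (1 + h))) (1 / (1 + a))| ≤ |y - y'| := by
    refine (abs_min_sub_min_le_max _ _ _ _).trans ?_
    rw [sub_self, abs_zero]
    refine max_le ?_ (abs_nonneg _)
    refine (abs_max_sub_max_le_max _ _ _ _).trans ?_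
    rw [sub_self, abs_zero]
    exact max_le le_rfl (abs_nonneg _)
  unfold ps
  set s : ℝ := min (max y (1 / (1 + h))) (1 / (1 + a)) with hs
  set t : ℝ := min (max y' (1 / (1 + h))) (1 / (1 + a)) with ht
  have hs0 : 0 < s := lt_of_lt_of_le (by positivity) h1
  have ht0 : 0 < t := lt_of_lt_of_le (by positivity) h2
  have e1 : 1 / s - 1 - (1 / t - 1) = (t - s) / (s * t) := by
    field_simp
    ring
  rw [e1, abs_div, abs_of_pos (mul_pos hs0 ht0), div_le_iff₀ (mul_pos hs0 ht0), abs_sub_comm t s]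
  rw [div_le_iff₀ hh] at h1 h2
  have h3 : 1 ≤ (s * (1 + h)) * (t * (1 + h)) := by nlinarith
  have h4 : 0 ≤ |y - y'| := abs_nonneg _
  calc |s - t| ≤ |y - y'| := hl
    _ = |y - y'| * 1 := by ring
    _ ≤ |y - y'| * ((s * (1 + h)) * (t * (1 + h))) := mul_le_mul_of_nonneg_left h3 h4
    _ = (1 + h) ^ 2 * |y - y'| * (s * t) := by ring

/-- PROOF.  The preimage of a point `y` under `ph` is contained in `{1 / y - 1, 1 - 1 / y}`. -/
theorem law_ph {ν : Measure ℝ} (hν : LawP ν) : Law 0 1 (ν.map ph) := by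
  have := hν.prob
  refine ⟨Measure.isProbabilityMeasure_map measurable_ph.aemeasurable, ?_, ?_⟩
  · rw [Measure.map_apply measurable_ph measurableSet_Icc.compl]
    have h1 : ph ⁻¹' (Set.Icc (0 : ℝ) 1)ᶜ = ∅ := by
      ext x
      simp only [Set.mem_preimage, Set.mem_compl_iff, Set.mem_empty_iff_false, iff_false, not_not]
      exact ph_mem x
    rw [h1]
    exact measure_empty
  · intro y
    rw [Measure.map_apply measurable_ph (measurableSet_singleton y)]
    have h1 : ph ⁻¹' ({y} : Set ℝ) ⊆ ({1 / y - 1} : Set ℝ) ∪ {1 - 1 / y} := by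
      intro x hx
      have hx' : 1 / (1 + |x|) = y := hx
      have h2 : |x| = 1 / y - 1 := by
        rw [← hx', one_div_one_div]
        ring
      rcases abs_cases x with ⟨h3, -⟩ | ⟨h3, -⟩
      · left
        rw [Set.mem_singleton_iff]
        linarith
      · right
        rw [Set.mem_singleton_iff]
        linarith
    have h2 : ν (({1 / y - 1} : Set ℝ) ∪ {1 - 1 / y}) = 0 :=
      measure_union_null (hν.atom _) (hν.atom _)
    exact measure_mono_null h1 h2

/-- The truncation. -/
noncomputable def tr (a h x : ℝ) : ℝ := max a (min x h)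

/-- Finite dimensional comparison.  PROOF.  `bridge_pi` for the law `ν.map ph` on `[0, 1]` and
`G y = F (fun i => ps a h (y i)) / (1 + h) ^ 2`; the product of the image laws is the image of the product
(`Measure.pi_map_pi`), and almost surely all coordinates are `≥ 0`, so `G (ph ∘ x) = F (tr a h ∘ x) / (1 + h) ^ 2`
(`ps_ph`). -/
theorem trans_pi {ν : Measure ℝ} (hν : LawP ν) {a h : ℝ} (ha : 0 ≤ a) (hah : a ≤ h) {N : ℕ} (hN : 0 < N) {c : ℕ → ℝ}
    (hc : Cuts (ν.map ph) 0 1 N c) {ι : Type} [Fintype ι] [DecidableEq ι] (F : (ι → ℝ) → ℝ)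
    (hF : ∀ x y : ι → ℝ, (∀ i, x i ∈ Set.Icc a h) → (∀ i, y i ∈ Set.Icc a h) → |F x - F y| ≤ ∑ i, |x i - y i|) :
    |∫ x, F (fun i => tr a h (x i)) ∂(Measure.pi fun _ : ι => ν) - Ex fun u : ι → Fin N => F fun i => ps a h (c (u i))| ≤
      Fintype.card ι * ((1 + h) ^ 2 / N) := by
  have hprob := hν.prob
  have hh : 0 < 1 + h := by linarith
  have hh2 : 0 < (1 + h) ^ 2 := by positivity
  set G : (ι → ℝ) → ℝ := fun y => F (fun i => ps a h (y i)) / (1 + h) ^ 2 with hG
  have hGlip : ∀ x y : ι → ℝ, |G x - G y| ≤ ∑ i, |x i - y i| := by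
    intro x y
    have h1 := hF (fun i => ps a h (x i)) (fun i => ps a h (y i)) (fun i => ps_mem ha hah _) (fun i => ps_mem ha hah _)
    have h2 : ∑ i, |ps a h (x i) - ps a h (y i)| ≤ ∑ i, (1 + h) ^ 2 * |x i - y i| :=
      Finset.sum_le_sum fun i _ => ps_lip ha hah _ _
    rw [← Finset.mul_sum] at h2
    simp only [hG]
    rw [← sub_div, abs_div, abs_of_pos hh2, div_le_iff₀ hh2]
    linarith
  have hGcont : Continuous G := by
    rw [continuous_iff_continuousAt]
    intro x
    have h2 : Filter.Tendsto (fun y : ι → ℝ => ∑ i, |y i - x i|) (nhds x) (nhds 0) := by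
      have h3 : Continuous (fun y : ι → ℝ => ∑ i, |y i - x i|) :=
        continuous_finsetSum _ fun i _ => ((continuous_apply i).sub continuous_const).abs
      have h4 := h3.tendsto x
      have h5 : ∑ i, |x i - x i| = 0 := by simp
      rwa [h5] at h4
    have h6 : Filter.Tendsto (fun y : ι → ℝ => G y - G x) (nhds x) (nhds 0) :=
      squeeze_zero_norm (fun y => by rw [Real.norm_eq_abs]; exact hGlip y x) h2
    have h7 := h6.add_const (G x)
    simp only [sub_add_cancel, zero_add] at h7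
    exact h7
  have hb := bridge_pi (law_ph hν) hN hc G fun x y _ _ => hGlip x y
  -- the integral
  have hmap : (Measure.pi fun _ : ι => ν).map (fun x i => ph (x i)) = Measure.pi fun _ : ι => ν.map ph := by
    have : IsProbabilityMeasure (ν.map ph) := Measure.isProbabilityMeasure_map measurable_ph.aemeasurable
    exact Measure.pi_map_pi (f := fun _ : ι => ph) fun _ => measurable_ph.aemeasurable
  have hm : Measurable (fun (x : ι → ℝ) (i : ι) => ph (x i)) :=
    measurable_pi_lambda _ fun i => measurable_ph.comp (measurable_pi_apply i)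
  have hint : ∫ y, G y ∂(Measure.pi fun _ : ι => ν.map ph) =
      (∫ x, F (fun i => tr a h (x i)) ∂(Measure.pi fun _ : ι => ν)) / (1 + h) ^ 2 := by
    rw [← hmap, integral_map hm.aemeasurable hGcont.aestronglyMeasurable, ← integral_div]
    refine integral_congr_ae ?_
    have hae : ∀ᵐ x ∂(Measure.pi fun _ : ι => ν), ∀ i, 0 ≤ x i := by
      rw [ae_all_iff]
      intro i
      have h1 : ∀ᵐ x ∂ν, 0 ≤ x := by
        rw [ae_iff]
        have h2 : {x : ℝ | ¬ 0 ≤ x} = Set.Iio 0 := by
          ext x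
          simp only [Set.mem_ofPred_eq, not_le, Set.mem_Iio]
        rw [h2]
        exact hν.nonneg
      exact (Measure.quasiMeasurePreserving_eval (fun _ : ι => ν) i).ae h1
    filter_upwards [hae] with x hx
    simp only [hG]
    have h3 : (fun i => ps a h (ph (x i))) = fun i => tr a h (x i) := by
      funext i
      exact ps_ph ha hah (hx i)
    rw [h3]
  have hE : (Ex fun u : ι → Fin N => G fun i => c (u i)) =
      (Ex fun u : ι → Fin N => F fun i => ps a h (c (u i))) / (1 + h) ^ 2 := by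
    simp only [hG]
    rw [div_eq_mul_inv, ← Ex_mul_right]
    rfl
  rw [hint, hE, ← sub_div, abs_div, abs_of_pos hh2, div_le_iff₀ hh2, sub_zero] at hb
  refine hb.trans (le_of_eq ?_)
  ring

end Pool.Agent.W_1b8d5d_gd
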