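import Pool.Agent.W_1b8d5d_gd.ATr1
import Pool.Agent.W_1b8d5d_gd.ATor

/-!
MP_1b8d5d_pr, general dimension: comparison of the truncated true environment with the torus models.
-/

set_option autoImplicit false

open MeasureTheory ProbabilityTheory

namespace Pool.Agent.W_1b8d5d_gd

open Finset Pool.Agent.W_1b8d5d_h85

variable {d : ℕ}

/-- Independent passage times with the law `ν`. -/
structure IsFPP (ν : Measure ℝ) {Ω : Type} [MeasurableSpace Ω] (P : Measure Ω) (τ : Edge d → Ω → ℝ) : Prop where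
  prob : IsProbabilityMeasure P
  meas : ∀ e, Measurable (τ e)
  indep : iIndepFun τ P
  law : ∀ e, P.map (τ e) = ν

/-- The truncated environment at `ω`. -/
noncomputable def trE {Ω : Type} (a h : ℝ) (τ : Edge d → Ω → ℝ) (ω : Ω) : Env d := fun e => tr a h (τ e ω)

theorem trE_Bd {Ω : Type} {a h : ℝ} (hah : a ≤ h) (τ : Edge d → Ω → ℝ) (ω : Ω) : Bd a h (trE a h τ ω) :=
  fun _ => ⟨le_max_left _ _, max_le hah (min_le_right _ _)⟩

/-- The weights of the torus model of the truncated law. -/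
noncomputable def cw (a h : ℝ) (c : ℕ → ℝ) (j : ℕ) : ℝ := ps a h (c j)

theorem cw_mem {a h : ℝ} (ha : 0 ≤ a) (hah : a ≤ h) (c : ℕ → ℝ) (j : ℕ) : a ≤ cw a h c j ∧ cw a h c j ≤ h :=
  ps_mem ha hah _

/-- The extension of a configuration on `A` by the value `h`. -/
private noncomputable def ATr2_ext (h : ℝ) (A : Finset (Edge d)) (x : A → ℝ) : Env d :=
  fun e => if he : e ∈ A then x ⟨e, he⟩ else h

private theorem ATr2_ext_Bd {a h : ℝ} (hah : a ≤ h) (A : Finset (Edge d)) {x : A → ℝ}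
    (hx : ∀ i, x i ∈ Set.Icc a h) : Bd a h (ATr2_ext h A x) := by
  intro e
  unfold ATr2_ext
  split_ifs with he
  · exact ⟨(hx ⟨e, he⟩).1, (hx ⟨e, he⟩).2⟩
  · exact ⟨hah, le_rfl⟩

private theorem ATr2_lip {a h : ℝ} (hah : a ≤ h) (A : Finset (Edge d)) (F : Env d → ℝ)
    (hF : ∀ τ₁ τ₂ : Env d, Bd a h τ₁ → Bd a h τ₂ → |F τ₁ - F τ₂| ≤ ∑ e ∈ A, |τ₁ e - τ₂ e|)
    (x y : A → ℝ) (hx : ∀ i, x i ∈ Set.Icc a h) (hy : ∀ i, y i ∈ Set.Icc a h) :
    |F (ATr2_ext h A x) - F (ATr2_ext h A y)| ≤ ∑ i, |x i - y i| := by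
  refine (hF _ _ (ATr2_ext_Bd hah A hx) (ATr2_ext_Bd hah A hy)).trans (le_of_eq ?_)
  rw [← sum_attach]
  refine sum_congr rfl fun e _ => ?_
  simp only [ATr2_ext, dif_pos e.2]

private theorem ATr2_eq {a h : ℝ} (hah : a ≤ h) (A : Finset (Edge d)) (F : Env d → ℝ)
    (hF : ∀ τ₁ τ₂ : Env d, Bd a h τ₁ → Bd a h τ₂ → |F τ₁ - F τ₂| ≤ ∑ e ∈ A, |τ₁ e - τ₂ e|)
    {σ : Env d} (hσ : Bd a h σ) : F σ = F (ATr2_ext h A fun e : A => σ e) := by
  have h4 : Bd a h (ATr2_ext h A fun e : A => σ e) :=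
    ATr2_ext_Bd hah A fun i => ⟨(hσ i).1, (hσ i).2⟩
  have h5 := hF σ _ hσ h4
  have h6 : ∑ e ∈ A, |σ e - ATr2_ext h A (fun e : A => σ e) e| = 0 := by
    refine sum_eq_zero fun e he => ?_
    simp only [ATr2_ext, dif_pos he, sub_self, abs_zero]
  rw [h6] at h5
  exact sub_eq_zero.1 (abs_eq_zero.1 (le_antisymm h5 (abs_nonneg _)))

private theorem ATr2_tr_mem {a h : ℝ} (hah : a ≤ h) (x : ℝ) : tr a h x ∈ Set.Icc a h :=
  ⟨le_max_left _ _, max_le hah (min_le_right _ _)⟩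

private theorem ATr2_tr_cont {a h : ℝ} : Continuous (tr a h) :=
  continuous_const.max (continuous_id.min continuous_const)

private theorem ATr2_cont {a h : ℝ} (hah : a ≤ h) (A : Finset (Edge d)) (F : Env d → ℝ)
    (hF : ∀ τ₁ τ₂ : Env d, Bd a h τ₁ → Bd a h τ₂ → |F τ₁ - F τ₂| ≤ ∑ e ∈ A, |τ₁ e - τ₂ e|) :
    Continuous fun x : A → ℝ => F (ATr2_ext h A fun i => tr a h (x i)) := by
  rw [continuous_iff_continuousAt]
  intro x
  have h1 : ∀ y : A → ℝ, |F (ATr2_ext h A fun i => tr a h (y i)) - F (ATr2_ext h A fun i => tr a h (x i))|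
      ≤ ∑ i, |tr a h (y i) - tr a h (x i)| := fun y =>
    ATr2_lip hah A F hF _ _ (fun _ => ATr2_tr_mem hah _) fun _ => ATr2_tr_mem hah _
  have h2 : Filter.Tendsto (fun y : A → ℝ => ∑ i, |tr a h (y i) - tr a h (x i)|) (nhds x) (nhds 0) := by
    have h3 : Continuous (fun y : A → ℝ => ∑ i, |tr a h (y i) - tr a h (x i)|) := by
      refine continuous_finsetSum _ fun i _ => ?_
      exact ((ATr2_tr_cont.comp (continuous_apply i)).sub continuous_const).abs
    have h4 := h3.tendsto x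
    have h5 : ∑ i, |tr a h (x i) - tr a h (x i)| = 0 := by simp
    rwa [h5] at h4
  have h6 : Filter.Tendsto (fun y : A → ℝ => F (ATr2_ext h A fun i => tr a h (y i)) -
      F (ATr2_ext h A fun i => tr a h (x i))) (nhds x) (nhds 0) :=
    squeeze_zero_norm (fun y => by rw [Real.norm_eq_abs]; exact h1 y) h2
  have h7 := h6.add_const (F (ATr2_ext h A fun i => tr a h (x i)))
  simp only [sub_add_cancel, zero_add] at h7
  exact h7

private theorem ATr2_val {Ω : Type} {a h : ℝ} (hah : a ≤ h) (A : Finset (Edge d)) (F : Env d → ℝ)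
    (hF : ∀ τ₁ τ₂ : Env d, Bd a h τ₁ → Bd a h τ₂ → |F τ₁ - F τ₂| ≤ ∑ e ∈ A, |τ₁ e - τ₂ e|)
    (τ : Edge d → Ω → ℝ) (ω : Ω) :
    F (trE a h τ ω) = F (ATr2_ext h A fun e : A => tr a h (τ e ω)) :=
  ATr2_eq hah A F hF (trE_Bd hah τ ω)

private theorem ATr2_meas {Ω : Type} [MeasurableSpace Ω] {a h : ℝ} (hah : a ≤ h) (A : Finset (Edge d))
    (F : Env d → ℝ)
    (hF : ∀ τ₁ τ₂ : Env d, Bd a h τ₁ → Bd a h τ₂ → |F τ₁ - F τ₂| ≤ ∑ e ∈ A, |τ₁ e - τ₂ e|)
    {τ : Edge d → Ω → ℝ} (hτ : ∀ e, Measurable (τ e)) : Measurable fun ω => F (trE a h τ ω) := by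
  have h1 : (fun ω => F (trE a h τ ω)) = fun ω => F (ATr2_ext h A fun e : A => tr a h (τ e ω)) := by
    funext ω
    exact ATr2_val hah A F hF τ ω
  rw [h1]
  have hm : Measurable (fun ω (e : A) => τ e ω) := measurable_pi_lambda _ fun e => hτ e
  exact (ATr2_cont hah A F hF).measurable.comp hm

/-- THE COMPARISON.  PROOF.  `F` depends only on the edges of `A`.  True side: the law of `(τ e)_{e ∈ A}` is the product
measure (as in the proof of `bridge` of W_1b8d5d_h85/FBridge.lean), `trans_pi` for `ι = A`.  Model side: `pr m` is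
injective on `A` (`pr_inj` around `0`), `Ex_marginal`.  Integrability / measurability as in FBridge (`FBridge_aesm`). -/
theorem trans_tor {ν : Measure ℝ} (hν : LawP ν) {a h : ℝ} (ha : 0 ≤ a) (hah : a ≤ h) {m N : ℕ} [NeZero m] [NeZero N]
    {c : ℕ → ℝ} (hc : Cuts (ν.map ph) 0 1 N c) {Ω : Type} [MeasurableSpace Ω] {P : Measure Ω} {τ : Edge d → Ω → ℝ}
    (hτ : IsFPP ν P τ) {R : ℝ} (hm : 2 * R < m) (A : Finset (Edge d)) (hA : ∀ e ∈ A, nm e.1 ≤ R) (F : Env d → ℝ)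
    (hF : ∀ τ₁ τ₂ : Env d, Bd a h τ₁ → Bd a h τ₂ → |F τ₁ - F τ₂| ≤ ∑ e ∈ A, |τ₁ e - τ₂ e|) :
    |∫ ω, F (trE a h τ ω) ∂P - (tor d m N (cw a h c) (cw_mem ha hah c)).E F| ≤ A.card * ((1 + h) ^ 2 / N) := by
  have := hν.prob
  have := hτ.prob
  have hb := trans_pi hν ha hah (Nat.pos_of_ne_zero (NeZero.ne N)) hc (fun x : A → ℝ => F (ATr2_ext h A x))
    (ATr2_lip hah A F hF)
  have hind : iIndepFun (fun (e : A) (ω : Ω) => τ e ω) P :=
    hτ.indep.precomp Subtype.val_injective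
  have hmap : P.map (fun ω (e : A) => τ e ω) = Measure.pi fun _ : A => ν := by
    rw [(iIndepFun_iff_map_fun_eq_pi_map fun e : A => (hτ.meas e).aemeasurable).1 hind]
    simp only [hτ.law]
  have hmm : Measurable (fun ω (e : A) => τ e ω) := measurable_pi_lambda _ fun e => hτ.meas e
  have h1 : ∫ ω, F (trE a h τ ω) ∂P =
      ∫ x, F (ATr2_ext h A fun i => tr a h (x i)) ∂(Measure.pi fun _ : A => ν) := by
    rw [← hmap, integral_map hmm.aemeasurable (ATr2_cont hah A F hF).measurable.aestronglyMeasurable]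
    refine integral_congr_ae (Filter.Eventually.of_forall fun ω => ?_)
    exact ATr2_val hah A F hF τ ω
  have hinj : Function.Injective (fun i : A => pr m (i : Edge d)) := by
    intro i j hij
    apply Subtype.ext
    refine pr_inj (x := 0) hm ?_ ?_ hij
    · rw [sub_zero]
      exact hA _ i.2
    · rw [sub_zero]
      exact hA _ j.2
  have h2 : (tor d m N (cw a h c) (cw_mem ha hah c)).E F =
      Ex fun u : A → Fin N => F (ATr2_ext h A fun i => ps a h (c (u i))) := by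
    rw [tor_E, ← Ex_marginal (β := Fin N) (fun i : A => pr m (i : Edge d)) hinj
      (fun u : A → Fin N => F (ATr2_ext h A fun i => ps a h (c (u i))))]
    refine Ex_congr fun ω => ?_
    exact ATr2_eq hah A F hF (tenv_Bd (cw_mem ha hah c) ω)
  rw [h1, h2]
  rw [Fintype.card_coe] at hb
  exact hb

/-- The clamp. -/
private noncomputable def ATr2_cl (x : ℝ) : ℝ := max 0 (min 1 x)

private theorem ATr2_cl_nonneg (x : ℝ) : 0 ≤ ATr2_cl x := le_max_left _ _

private theorem ATr2_cl_le (x : ℝ) : ATr2_cl x ≤ 1 := max_le zero_le_one (min_le_left _ _)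

private theorem ATr2_cl_one {x : ℝ} (h : 1 ≤ x) : ATr2_cl x = 1 := by
  unfold ATr2_cl
  rw [min_eq_left h]
  exact max_eq_right zero_le_one

private theorem ATr2_cl_zero {x : ℝ} (h : x ≤ 0) : ATr2_cl x = 0 :=
  max_eq_left ((min_le_right _ _).trans h)

private theorem ATr2_cl_lip (x y : ℝ) : |ATr2_cl x - ATr2_cl y| ≤ |x - y| := by
  have h1 := neg_abs_le (x - y)
  have h2 := le_abs_self (x - y)
  have h3 := abs_nonneg (x - y)
  simp only [ATr2_cl, max_def, min_def]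
  split_ifs <;> rw [abs_le] <;> constructor <;> linarith

/-- The same for events with a margin.  PROOF.  Apply `trans_tor` to `clamp(s + 1 - G)` (equal to `1` for `G ≤ s`, `0` for
`G ≥ s + 1`, `1`-Lipschitz in `G`). -/
theorem trans_le {ν : Measure ℝ} (hν : LawP ν) {a h : ℝ} (ha : 0 ≤ a) (hah : a ≤ h) {m N : ℕ} [NeZero m] [NeZero N]
    {c : ℕ → ℝ} (hc : Cuts (ν.map ph) 0 1 N c) {Ω : Type} [MeasurableSpace Ω] {P : Measure Ω} {τ : Edge d → Ω → ℝ}
    (hτ : IsFPP ν P τ) {R : ℝ} (hm : 2 * R < m) (A : Finset (Edge d)) (hA : ∀ e ∈ A, nm e.1 ≤ R) (G : Env d → ℝ)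
    (hG : ∀ τ₁ τ₂ : Env d, Bd a h τ₁ → Bd a h τ₂ → |G τ₁ - G τ₂| ≤ ∑ e ∈ A, |τ₁ e - τ₂ e|) (s : ℝ) :
    P.real {ω | G (trE a h τ ω) ≤ s} ≤
      (tor d m N (cw a h c) (cw_mem ha hah c)).P (fun τ => G τ < s + 1) + A.card * ((1 + h) ^ 2 / N) ∧
    (tor d m N (cw a h c) (cw_mem ha hah c)).P (fun τ => G τ ≤ s) ≤
      P.real {ω | G (trE a h τ ω) < s + 1} + A.card * ((1 + h) ^ 2 / N) := by
  classical
  have := hτ.prob
  set F : Env d → ℝ := fun τ => ATr2_cl (s + 1 - G τ) with hFdef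
  have hF : ∀ τ₁ τ₂ : Env d, Bd a h τ₁ → Bd a h τ₂ → |F τ₁ - F τ₂| ≤ ∑ e ∈ A, |τ₁ e - τ₂ e| := by
    intro τ₁ τ₂ h1 h2
    refine (ATr2_cl_lip _ _).trans (le_trans (le_of_eq ?_) (hG τ₁ τ₂ h1 h2))
    rw [show s + 1 - G τ₁ - (s + 1 - G τ₂) = -(G τ₁ - G τ₂) by ring, abs_neg]
  have key := abs_le.1 (trans_tor hν ha hah hc hτ hm A hA F hF)
  have hmF := ATr2_meas hah A F hF hτ.meas
  have hmG := ATr2_meas hah A G hG hτ.meas
  have hiF : Integrable (fun ω => F (trE a h τ ω)) P := by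
    refine Integrable.mono' (integrable_const (1 : ℝ)) hmF.aestronglyMeasurable ?_
    refine Filter.Eventually.of_forall fun ω => ?_
    rw [Real.norm_of_nonneg (ATr2_cl_nonneg _)]
    exact ATr2_cl_le _
  have hF1 : ∀ σ : Env d, G σ ≤ s → F σ = 1 := fun σ hσ => ATr2_cl_one (by linarith)
  have hF0 : ∀ σ : Env d, ¬ G σ < s + 1 → F σ = 0 := fun σ hσ => ATr2_cl_zero (by linarith [not_lt.1 hσ])
  constructor
  · have h1 : P.real {ω | G (trE a h τ ω) ≤ s} ≤ ∫ ω, F (trE a h τ ω) ∂P := by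
      have hS : MeasurableSet {ω | G (trE a h τ ω) ≤ s} := measurableSet_le hmG measurable_const
      rw [← integral_indicator_one hS]
      refine integral_mono ?_ hiF fun ω => ?_
      · exact (integrable_const (1 : ℝ)).indicator hS
      · by_cases hω : G (trE a h τ ω) ≤ s
        · rw [Set.indicator_of_mem (show ω ∈ {ω | G (trE a h τ ω) ≤ s} from hω), hF1 _ hω]
          exact le_refl _
        · rw [Set.indicator_of_notMem (show ω ∉ {ω | G (trE a h τ ω) ≤ s} from hω)]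
          exact ATr2_cl_nonneg _
    have h2 : (tor d m N (cw a h c) (cw_mem ha hah c)).E F ≤
        (tor d m N (cw a h c) (cw_mem ha hah c)).P (fun τ => G τ < s + 1) := by
      rw [Mdl.P_def]
      refine Mdl.E_mono _ fun σ _ => ?_
      by_cases hσ : G σ < s + 1
      · rw [if_pos hσ]
        exact ATr2_cl_le _
      · rw [if_neg hσ, hF0 σ hσ]
    linarith [key.2]
  · have h1 : ∫ ω, F (trE a h τ ω) ∂P ≤ P.real {ω | G (trE a h τ ω) < s + 1} := by
      have hS : MeasurableSet {ω | G (trE a h τ ω) < s + 1} := measurableSet_lt hmG measurable_const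
      rw [← integral_indicator_one hS]
      refine integral_mono hiF ?_ fun ω => ?_
      · exact (integrable_const (1 : ℝ)).indicator hS
      · by_cases hω : G (trE a h τ ω) < s + 1
        · rw [Set.indicator_of_mem (show ω ∈ {ω | G (trE a h τ ω) < s + 1} from hω)]
          exact ATr2_cl_le _
        · rw [Set.indicator_of_notMem (show ω ∉ {ω | G (trE a h τ ω) < s + 1} from hω), hF0 _ hω]
    have h2 : (tor d m N (cw a h c) (cw_mem ha hah c)).P (fun τ => G τ ≤ s) ≤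
        (tor d m N (cw a h c) (cw_mem ha hah c)).E F := by
      rw [Mdl.P_def]
      refine Mdl.E_mono _ fun σ _ => ?_
      by_cases hσ : G σ ≤ s
      · rw [if_pos hσ, hF1 σ hσ]
      · rw [if_neg hσ]
        exact ATr2_cl_nonneg _
    linarith [key.1]

end Pool.Agent.W_1b8d5d_gd
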