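import Pool.Agent.W_1b8d5d_h85.Basic

/-!
MP_1b8d5d_pr, general dimension: first-passage percolation on `ℤ ^ d`.
Definitions: the grid, environments, passage times, finite models. The names are those of
`W_1b8d5d_h85` (dimension two); the averages `Ex`, `Pr`, `Vr`, `avg` are the ones of that folder.

All files of the general dimension use `namespace Pool.Agent.W_1b8d5d_gd` and
`open Pool.Agent.W_1b8d5d_h85` (the names of the current namespace win).
-/

set_option autoImplicit false

namespace Pool.Agent.W_1b8d5d_gd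

open Finset Pool.Agent.W_1b8d5d_h85
open scoped BigOperators

/-- The vertices of the lattice. -/
abbrev V (d : ℕ) := Fin d → ℤ

/-- Edges: `(x, i)` joins `x` and `x + dir i`. -/
abbrev Edge (d : ℕ) := V d × Fin d

/-- Environments: a passage time for every edge. -/
abbrev Env (d : ℕ) := Edge d → ℝ

variable {d : ℕ}

/-- The `ℓ¹` norm. -/
def nm (x : V d) : ℝ := ∑ i, |(x i : ℝ)|

/-- The unit vectors. -/
def dir (i : Fin d) : V d := Pi.single i 1

theorem dir_ne_zero (i : Fin d) : dir i ≠ 0 := by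
  intro h
  have h1 := congrFun h i
  simp [dir] at h1

/-- The grid graph. -/
def grid (d : ℕ) : SimpleGraph (V d) where
  Adj x y := ∃ i, y = x + dir i ∨ x = y + dir i
  symm := ⟨by
    rintro x y ⟨i, h | h⟩
    · exact ⟨i, Or.inr h⟩
    · exact ⟨i, Or.inl h⟩⟩
  loopless := ⟨by
    rintro x ⟨i, h | h⟩ <;>
    · have h1 : dir i = 0 := by simpa using h
      exact dir_ne_zero i h1⟩

/-- The coordinates in which two vertices differ. -/
def dif (x y : V d) : Finset (Fin d) := univ.filter fun i => x i ≠ y i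

theorem dif_comm (x y : V d) : dif x y = dif y x := by
  unfold dif
  ext i
  simp [ne_comm]

/-- The first coordinate in which two vertices differ. -/
def idx [NeZero d] (x y : V d) : Fin d := if h : (dif x y).Nonempty then (dif x y).min' h else 0

theorem idx_comm [NeZero d] (x y : V d) : idx x y = idx y x := by
  unfold idx
  simp only [dif_comm x y]

/-- The edge which joins two adjacent vertices. -/
def ke [NeZero d] : Sym2 (V d) → Edge d :=
  Sym2.lift ⟨fun x y => (x ⊓ y, idx x y), by
    intro x y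
    simp only [inf_comm x y, idx_comm x y]⟩

/-- The list of the edges of a walk. -/
def wedges [NeZero d] {x y : V d} (w : (grid d).Walk x y) : List (Edge d) := w.edges.map ke

/-- The passage time of a walk. -/
noncomputable def cost [NeZero d] (τ : Env d) {x y : V d} (w : (grid d).Walk x y) : ℝ :=
  ((wedges w).map τ).sum

/-- The passage time between two vertices. -/
noncomputable def T [NeZero d] (τ : Env d) (x y : V d) : ℝ := ⨅ w : (grid d).Walk x y, cost τ w

/-- The environment has values in `[a, b]`. -/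
def Bd (a b : ℝ) (τ : Env d) : Prop := ∀ e, a ≤ τ e ∧ τ e ≤ b

/-- `w` is a geodesic of the environment `τ`: a path which realises the passage time. -/
def IsGeo [NeZero d] (τ : Env d) {x y : V d} (w : (grid d).Walk x y) : Prop :=
  w.IsPath ∧ cost τ w = T τ x y

open Classical in
/-- The environment `τ` on the set `S` and `b` off `S`. -/
noncomputable def res (b : ℝ) (S : Set (Edge d)) (τ : Env d) : Env d := fun e => if e ∈ S then τ e else b

/-- The shift of an environment. -/
def sh (z : V d) (τ : Env d) : Env d := fun e => τ (e.1 + z, e.2)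

/-- The reflected environment: the edge `(x, i)` is mapped to the edge from `-x - dir i` to `-x`. -/
def rf (τ : Env d) : Env d := fun e => τ (-e.1 - dir e.2, e.2)

/-- The edges with both end points in the set `A` of vertices. -/
def edg (A : Set (V d)) : Set (Edge d) := {e | e.1 ∈ A ∧ e.1 + dir e.2 ∈ A}

/-- The number of edges of a walk with weight at least `su`. -/
noncomputable def nHigh [NeZero d] (su : ℝ) (τ : Env d) {x y : V d} (w : (grid d).Walk x y) : ℕ :=
  ((wedges w).filter fun e => su ≤ τ e).length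

/-- A finite random environment (uniform measure on `Ω`) with values in `[a, b]`. -/
structure Mdl (d : ℕ) (a b : ℝ) where
  Ω : Type
  [fin : Fintype Ω]
  [ne : Nonempty Ω]
  env : Ω → Env d
  bd : ∀ ω, Bd a b (env ω)

attribute [instance] Mdl.fin Mdl.ne

namespace Mdl

variable {a b : ℝ} (M : Mdl d a b)

/-- The expectation of a function of the environment. -/
noncomputable def E (F : Env d → ℝ) : ℝ := Ex fun ω => F (M.env ω)

/-- The probability of an event. -/
noncomputable def P (p : Env d → Prop) : ℝ := Pr fun ω => p (M.env ω)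

theorem E_add (F G : Env d → ℝ) : M.E (fun τ => F τ + G τ) = M.E F + M.E G := Ex_add _ _

theorem E_sub (F G : Env d → ℝ) : M.E (fun τ => F τ - G τ) = M.E F - M.E G := Ex_sub _ _

theorem E_mul_left (c : ℝ) (F : Env d → ℝ) : M.E (fun τ => c * F τ) = c * M.E F := Ex_mul_left _ _

theorem E_const (c : ℝ) : M.E (fun _ => c) = c := Ex_const c

theorem E_sum {ι : Type*} (s : Finset ι) (F : ι → Env d → ℝ) :
    M.E (fun τ => ∑ i ∈ s, F i τ) = ∑ i ∈ s, M.E (F i) := Ex_sum s fun i ω => F i (M.env ω)

/-- Monotonicity: only environments with values in `[a,b]` matter. -/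
theorem E_mono {F G : Env d → ℝ} (h : ∀ τ, Bd a b τ → F τ ≤ G τ) : M.E F ≤ M.E G :=
  Ex_mono fun ω => h _ (M.bd ω)

theorem E_congr {F G : Env d → ℝ} (h : ∀ τ, Bd a b τ → F τ = G τ) : M.E F = M.E G :=
  Ex_congr fun ω => h _ (M.bd ω)

theorem E_nonneg {F : Env d → ℝ} (h : ∀ τ, Bd a b τ → 0 ≤ F τ) : 0 ≤ M.E F :=
  Ex_nonneg fun ω => h _ (M.bd ω)

theorem E_le_of_le {F : Env d → ℝ} {c : ℝ} (h : ∀ τ, Bd a b τ → F τ ≤ c) : M.E F ≤ c :=
  Ex_le_of_le fun ω => h _ (M.bd ω)

theorem le_E_of_le {F : Env d → ℝ} {c : ℝ} (h : ∀ τ, Bd a b τ → c ≤ F τ) : c ≤ M.E F :=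
  le_Ex_of_le fun ω => h _ (M.bd ω)

theorem P_nonneg (p : Env d → Prop) : 0 ≤ M.P p := Pr_nonneg _

theorem P_le_one (p : Env d → Prop) : M.P p ≤ 1 := Pr_le_one _

theorem P_mono {p q : Env d → Prop} (h : ∀ τ, Bd a b τ → p τ → q τ) : M.P p ≤ M.P q :=
  Pr_mono fun ω => h _ (M.bd ω)

theorem P_or (p q : Env d → Prop) : M.P (fun τ => p τ ∨ q τ) ≤ M.P p + M.P q := Pr_or _ _

theorem P_not (p : Env d → Prop) : M.P (fun τ => ¬ p τ) = 1 - M.P p := Pr_not _

theorem P_exists_le {ι : Type*} (s : Finset ι) (p : ι → Env d → Prop) :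
    M.P (fun τ => ∃ i ∈ s, p i τ) ≤ ∑ i ∈ s, M.P (p i) :=
  Pr_exists_le s fun i ω => p i (M.env ω)

open Classical in
theorem P_def (p : Env d → Prop) : M.P p = M.E fun τ => if p τ then (1 : ℝ) else 0 := rfl

theorem markov {F : Env d → ℝ} (hF : ∀ τ, Bd a b τ → 0 ≤ F τ) {s : ℝ} (hs : 0 < s) :
    M.P (fun τ => s ≤ F τ) ≤ M.E F / s :=
  Pool.Agent.W_1b8d5d_h85.markov (f := fun ω => F (M.env ω)) (fun ω => hF _ (M.bd ω)) hs

theorem chebyshev (F : Env d → ℝ) {s : ℝ} (hs : 0 < s) :
    M.P (fun τ => s ≤ |F τ - M.E F|) ≤ M.E (fun τ => (F τ - M.E F) ^ 2) / s ^ 2 :=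
  Pool.Agent.W_1b8d5d_h85.chebyshev (fun ω => F (M.env ω)) hs

end Mdl

end Pool.Agent.W_1b8d5d_gd
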