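import Pool.Agent.W_1b8d5d_gd.Defs

/-!
MP_1b8d5d_pr, general dimension: passage times as a metric (port of `W_1b8d5d_h85.Grid1`).
-/

set_option autoImplicit false
set_option linter.unusedSectionVars false

namespace Pool.Agent.W_1b8d5d_gd

open Finset Pool.Agent.W_1b8d5d_h85

variable {d : ℕ}

theorem nm_nonneg (x : V d) : 0 ≤ nm x := by
  unfold nm
  positivity

theorem nm_zero : nm (0 : V d) = 0 := by
  simp [nm]

theorem nm_eq_zero {x : V d} : nm x = 0 ↔ x = 0 := by
  constructor
  · intro h
    unfold nm at h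
    rw [Finset.sum_eq_zero_iff_of_nonneg (fun i _ => abs_nonneg _)] at h
    funext i
    have h1 := h i (mem_univ i)
    exact_mod_cast abs_eq_zero.1 h1
  · rintro rfl
    exact nm_zero

theorem nm_neg (x : V d) : nm (-x) = nm x := by
  simp [nm, abs_neg]

theorem nm_add_le (x y : V d) : nm (x + y) ≤ nm x + nm y := by
  unfold nm
  rw [← Finset.sum_add_distrib]
  refine Finset.sum_le_sum fun i _ => ?_
  have h1 := abs_add_le (x i : ℝ) (y i : ℝ)
  simpa using h1

theorem nm_sub_comm (x y : V d) : nm (x - y) = nm (y - x) := by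
  rw [← nm_neg, neg_sub]

/-- A coordinate is at most the norm. -/
theorem abs_le_nm (x : V d) (i : Fin d) : |(x i : ℝ)| ≤ nm x :=
  Finset.single_le_sum (f := fun i => |(x i : ℝ)|) (fun _ _ => abs_nonneg _) (mem_univ i)

theorem nm_smul_dir (n : ℤ) (s : Fin d) : nm (n • dir s) = |(n : ℝ)| := by
  unfold nm dir
  rw [Finset.sum_eq_single s]
  · simp
  · intro i _ hi
    simp [Pi.single_eq_of_ne hi]
  · intro h
    exact absurd (mem_univ s) h

theorem nm_dir (s : Fin d) : nm (dir s) = 1 := by
  have := nm_smul_dir 1 s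
  simpa using this

/-- `nm` is a natural number. -/
theorem nm_eq_nat (x : V d) : nm x = ((∑ i, (x i).natAbs : ℕ) : ℝ) := by
  unfold nm
  push_cast [Nat.cast_natAbs]
  rfl

theorem one_le_nm {x : V d} (h : x ≠ 0) : 1 ≤ nm x := by
  rw [nm_eq_nat]
  have h1 : ∑ i, (x i).natAbs ≠ 0 := by
    intro h2
    apply h
    rw [Finset.sum_eq_zero_iff] at h2
    funext i
    have := h2 i (mem_univ i)
    simpa using this
  exact_mod_cast Nat.one_le_iff_ne_zero.2 h1

/-- Adjacent vertices have distance one. -/
theorem nm_adj {x y : V d} (h : (grid d).Adj x y) : nm (y - x) = 1 := by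
  obtain ⟨s, h | h⟩ := h
  · rw [h, add_sub_cancel_left, nm_dir]
  · rw [h, nm_sub_comm, add_sub_cancel_left, nm_dir]

theorem dif_dir (x : V d) (s : Fin d) : dif x (x + dir s) = {s} := by
  unfold dif dir
  ext i
  rw [mem_filter, mem_singleton]
  constructor
  · rintro ⟨-, h⟩
    by_contra hi
    apply h
    rw [Pi.add_apply, Pi.single_eq_of_ne hi, add_zero]
  · rintro rfl
    refine ⟨mem_univ _, ?_⟩
    rw [Pi.add_apply, Pi.single_eq_same]
    omega

theorem idx_dir [NeZero d] (x : V d) (s : Fin d) : idx x (x + dir s) = s := by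
  unfold idx
  simp only [dif_dir]
  rw [dif_pos (by simp)]
  simp

theorem dir_nonneg (s : Fin d) : 0 ≤ dir s := by
  intro i
  unfold dir
  by_cases h : i = s
  · subst h
    simp
  · simp [Pi.single_eq_of_ne h]

section grid1

variable [NeZero d]

/-- `ke` of an adjacent pair. -/
theorem ke_dir (x : V d) (s : Fin d) : ke s(x, x + dir s) = (x, s) := by
  have h : x ⊓ (x + dir s) = x := inf_eq_left.2 (le_add_of_nonneg_right (dir_nonneg s))
  simp [ke, h, idx_dir]

theorem ke_dir' (x : V d) (s : Fin d) : ke s(x + dir s, x) = (x, s) := by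
  rw [Sym2.eq_swap, ke_dir]

private theorem Grid1_mem {e : Sym2 (V d)} (h : e ∈ (grid d).edgeSet) :
    ∃ x s, e = s(x, x + dir s) := by
  induction e using Sym2.ind with
  | _ x y =>
    rw [SimpleGraph.mem_edgeSet] at h
    obtain ⟨s, h | h⟩ := h
    · exact ⟨x, s, by rw [h]⟩
    · exact ⟨y, s, by rw [h, Sym2.eq_swap]⟩

/-- `ke` is injective on the edges of the grid. -/
theorem ke_inj {e e' : Sym2 (V d)} (h : e ∈ (grid d).edgeSet) (h' : e' ∈ (grid d).edgeSet) (he : ke e = ke e') :
    e = e' := by
  obtain ⟨x, s, rfl⟩ := Grid1_mem h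
  obtain ⟨x', s', rfl⟩ := Grid1_mem h'
  rw [ke_dir, ke_dir] at he
  have h1 : x = x' := congrArg Prod.fst he
  have h2 : s = s' := congrArg Prod.snd he
  rw [h1, h2]

private theorem Grid1_line (s : Fin d) (x : V d) (n : ℕ) :
    ∃ w : (grid d).Walk x (x + (n : ℤ) • dir s), w.length = n := by
  induction n with
  | zero =>
    refine ⟨(SimpleGraph.Walk.nil : (grid d).Walk x x).copy rfl (by simp), by simp⟩
  | succ n ih =>
    obtain ⟨w, hw⟩ := ih
    have hadj : (grid d).Adj (x + (n : ℤ) • dir s) (x + ((n + 1 : ℕ) : ℤ) • dir s) := by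
      refine ⟨s, Or.inl ?_⟩
      push_cast
      rw [add_smul, one_smul, add_assoc]
    exact ⟨w.concat hadj, by rw [SimpleGraph.Walk.length_concat, hw]⟩

private theorem Grid1_line' (s : Fin d) (x : V d) (n : ℤ) :
    ∃ w : (grid d).Walk x (x + n • dir s), w.length = n.natAbs := by
  rcases Int.natAbs_eq n with h | h
  · obtain ⟨w, hw⟩ := Grid1_line s x n.natAbs
    refine ⟨w.copy rfl (by rw [← h]), by simpa using hw⟩
  · obtain ⟨w, hw⟩ := Grid1_line s (x + n • dir s) n.natAbs
    have e : x + n • dir s + (n.natAbs : ℤ) • dir s = x := by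
      rw [add_assoc, ← add_smul]
      have : n + (n.natAbs : ℤ) = 0 := by omega
      rw [this, zero_smul, add_zero]
    exact ⟨(w.copy rfl e).reverse, by simpa using hw⟩

private theorem Grid1_walk (S : Finset (Fin d)) (x y : V d) :
    ∃ (z : V d) (w : (grid d).Walk x z), (w.length : ℝ) = ∑ i ∈ S, |((y - x) i : ℝ)| ∧
      (∀ i ∈ S, z i = y i) ∧ ∀ i, i ∉ S → z i = x i := by
  classical
  induction S using Finset.induction_on with
  | empty => exact ⟨x, SimpleGraph.Walk.nil, by simp, by simp, by simp⟩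
  | insert s S hs ih =>
    obtain ⟨z, w, h1, h2, h3⟩ := ih
    obtain ⟨w', hw'⟩ := Grid1_line' s z (y s - x s)
    refine ⟨z + (y s - x s) • dir s, w.append w', ?_, ?_, ?_⟩
    · rw [SimpleGraph.Walk.length_append, hw', Finset.sum_insert hs, Nat.cast_add, h1, add_comm]
      congr 1
      rw [Nat.cast_natAbs]
      simp
    · intro i hi
      rw [Finset.mem_insert] at hi
      by_cases h : i = s
      · subst h
        simp [dir, h3 i hs]
      · have h4 : i ∈ S := by
          rcases hi with hi | hi
          · exact absurd hi h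
          · exact hi
        simp [dir, Pi.single_eq_of_ne h, h2 i h4]
    · intro i hi
      rw [Finset.mem_insert, not_or] at hi
      simp [dir, Pi.single_eq_of_ne hi.1, h3 i hi.2]

/-- There is a walk of length `nm (y - x)`. -/
theorem exists_walk (x y : V d) : ∃ w : (grid d).Walk x y, (w.length : ℝ) = nm (y - x) := by
  obtain ⟨z, w, h1, h2, -⟩ := Grid1_walk univ x y
  have e : z = y := by
    funext i
    exact h2 i (mem_univ i)
  subst e
  exact ⟨w, h1⟩

theorem nm_le_length {x y : V d} (w : (grid d).Walk x y) : nm (y - x) ≤ w.length := by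
  induction w with
  | nil => simp [nm]
  | @cons u v w h p ih =>
    have h1 : w - u = (v - u) + (w - v) := by abel
    rw [h1, SimpleGraph.Walk.length_cons]
    have h2 := nm_add_le (v - u) (w - v)
    have h3 := nm_adj h
    push_cast
    linarith

instance (x y : V d) : Nonempty ((grid d).Walk x y) := ⟨(exists_walk x y).choose⟩

theorem length_wedges {x y : V d} (w : (grid d).Walk x y) : (wedges w).length = w.length := by
  unfold wedges
  rw [List.length_map, SimpleGraph.Walk.length_edges]

theorem wedges_append {x y z : V d} (w : (grid d).Walk x y) (w' : (grid d).Walk y z) :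
    wedges (w.append w') = wedges w ++ wedges w' := by
  unfold wedges
  rw [SimpleGraph.Walk.edges_append, List.map_append]

theorem wedges_reverse {x y : V d} (w : (grid d).Walk x y) : wedges w.reverse = (wedges w).reverse := by
  unfold wedges
  rw [SimpleGraph.Walk.edges_reverse, List.map_reverse]

/-- A path has no repeated edge. -/
theorem wedges_nodup {x y : V d} {w : (grid d).Walk x y} (hw : w.IsPath) : (wedges w).Nodup := by
  unfold wedges
  have h1 : w.edges.Nodup := hw.isTrail.edges_nodup
  refine h1.map_on ?_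
  intro e he e' he' h
  exact ke_inj (w.edges_subset_edgeSet he) (w.edges_subset_edgeSet he') h

theorem cost_append (τ : Env d) {x y z : V d} (w : (grid d).Walk x y) (w' : (grid d).Walk y z) :
    cost τ (w.append w') = cost τ w + cost τ w' := by
  unfold cost
  rw [wedges_append, List.map_append, List.sum_append]

theorem cost_reverse (τ : Env d) {x y : V d} (w : (grid d).Walk x y) : cost τ w.reverse = cost τ w := by
  unfold cost
  rw [wedges_reverse, List.map_reverse, List.sum_reverse]

private theorem Grid1_sum_le {a : ℝ} (l : List (Edge d)) (f : Env d) (h : ∀ e, a ≤ f e) :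
    a * l.length ≤ (l.map f).sum := by
  induction l with
  | nil => simp
  | cons e l ih =>
    rw [List.map_cons, List.sum_cons, List.length_cons]
    push_cast
    have := h e
    linarith

private theorem Grid1_le_sum {b : ℝ} (l : List (Edge d)) (f : Env d) (h : ∀ e, f e ≤ b) :
    (l.map f).sum ≤ b * l.length := by
  induction l with
  | nil => simp
  | cons e l ih =>
    rw [List.map_cons, List.sum_cons, List.length_cons]
    push_cast
    have := h e
    linarith

section bd

variable {a b : ℝ} {τ : Env d} (hτ : Bd a b τ)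

include hτ

theorem le_cost {x y : V d} (w : (grid d).Walk x y) : a * w.length ≤ cost τ w := by
  have := Grid1_sum_le (wedges w) τ (fun e => (hτ e).1)
  rwa [length_wedges] at this

theorem cost_le {x y : V d} (w : (grid d).Walk x y) : cost τ w ≤ b * w.length := by
  have := Grid1_le_sum (wedges w) τ (fun e => (hτ e).2)
  rwa [length_wedges] at this

private theorem Grid1_cost_nonneg (ha : 0 ≤ a) {x y : V d} (w : (grid d).Walk x y) : 0 ≤ cost τ w :=
  le_trans (by positivity) (le_cost hτ w)

private theorem Grid1_bdd (ha : 0 ≤ a) (x y : V d) :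
    BddBelow (Set.range fun w : (grid d).Walk x y => cost τ w) := by
  refine ⟨0, ?_⟩
  rintro _ ⟨w, rfl⟩
  exact Grid1_cost_nonneg hτ ha w

theorem T_le_cost (ha : 0 ≤ a) {x y : V d} (w : (grid d).Walk x y) : T τ x y ≤ cost τ w :=
  ciInf_le (Grid1_bdd hτ ha x y) w

theorem T_nonneg (ha : 0 ≤ a) (x y : V d) : 0 ≤ T τ x y :=
  le_ciInf fun w => Grid1_cost_nonneg hτ ha w

theorem T_self (ha : 0 ≤ a) (x : V d) : T τ x x = 0 := by
  apply le_antisymm _ (T_nonneg hτ ha x x)
  refine (T_le_cost hτ ha (SimpleGraph.Walk.nil : (grid d).Walk x x)).trans ?_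
  simp [cost, wedges]

theorem T_triangle (ha : 0 ≤ a) (x y z : V d) : T τ x z ≤ T τ x y + T τ y z := by
  have h1 : ∀ w : (grid d).Walk x y, T τ x z - cost τ w ≤ T τ y z := by
    intro w
    apply le_ciInf
    intro w'
    have := T_le_cost hτ ha (w.append w')
    rw [cost_append] at this
    linarith
  have h2 : T τ x z - T τ y z ≤ T τ x y := by
    apply le_ciInf
    intro w
    have := h1 w
    linarith
  linarith

theorem T_lower (ha : 0 ≤ a) (x y : V d) : a * nm (y - x) ≤ T τ x y := by
  apply le_ciInf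
  intro w
  exact (mul_le_mul_of_nonneg_left (nm_le_length w) ha).trans (le_cost hτ w)

theorem T_upper (ha : 0 ≤ a) (x y : V d) : T τ x y ≤ b * nm (y - x) := by
  obtain ⟨w, hw⟩ := exists_walk x y
  rw [← hw]
  exact (T_le_cost hτ ha w).trans (cost_le hτ w)

/-- Lipschitz in the end point. -/
theorem T_lip (ha : 0 ≤ a) (x y y' : V d) : |T τ x y - T τ x y'| ≤ b * nm (y - y') := by
  rw [abs_le]
  have h1 := T_triangle hτ ha x y y'
  have h2 := T_triangle hτ ha x y' y
  have h3 := T_upper hτ ha y y'
  have h4 := T_upper hτ ha y' y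
  rw [nm_sub_comm] at h3
  constructor <;> linarith

end bd

private theorem Grid1_symm_le (τ : Env d) (x y : V d) :
    Set.range (fun w : (grid d).Walk x y => cost τ w) = Set.range (fun w : (grid d).Walk y x => cost τ w) := by
  ext r
  constructor
  · rintro ⟨w, rfl⟩
    exact ⟨w.reverse, cost_reverse τ w⟩
  · rintro ⟨w, rfl⟩
    exact ⟨w.reverse, cost_reverse τ w⟩

theorem T_symm (τ : Env d) (x y : V d) : T τ x y = T τ y x := by
  unfold T iInf
  rw [Grid1_symm_le]

section bd2

variable {a b : ℝ} {τ : Env d} (hτ : Bd a b τ)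

include hτ

/-- Lipschitz in the starting point. -/
theorem T_lip' (ha : 0 ≤ a) (x x' y : V d) : |T τ x y - T τ x' y| ≤ b * nm (x - x') := by
  rw [T_symm τ x y, T_symm τ x' y]
  exact T_lip hτ ha y x x'

end bd2

/-- an automorphism of the grid with the induced map on the edges -/
private theorem Grid1_map (τ τ' : Env d) (f : V d → V d) (hf : ∀ x y, (grid d).Adj x y → (grid d).Adj (f x) (f y))
    (hc : ∀ x y, (grid d).Adj x y → τ (ke s(f x, f y)) = τ' (ke s(x, y))) {x y : V d}
    (w : (grid d).Walk x y) : ∃ w' : (grid d).Walk (f x) (f y), cost τ w' = cost τ' w := by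
  induction w with
  | nil => exact ⟨SimpleGraph.Walk.nil, by simp [cost, wedges]⟩
  | @cons u v w h p ih =>
    obtain ⟨w', hw'⟩ := ih
    refine ⟨SimpleGraph.Walk.cons (hf _ _ h) w', ?_⟩
    unfold cost wedges at hw' ⊢
    rw [SimpleGraph.Walk.edges_cons, SimpleGraph.Walk.edges_cons, List.map_cons, List.map_cons,
      List.map_cons, List.map_cons, List.sum_cons, List.sum_cons, hw', hc _ _ h]

private theorem Grid1_aut (τ τ' : Env d) (f g : V d → V d)
    (hf : ∀ x y, (grid d).Adj x y → (grid d).Adj (f x) (f y))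
    (hg : ∀ x y, (grid d).Adj x y → (grid d).Adj (g x) (g y)) (hgf : ∀ x, g (f x) = x)
    (hfg : ∀ x, f (g x) = x)
    (hc : ∀ x y, (grid d).Adj x y → τ (ke s(f x, f y)) = τ' (ke s(x, y))) (x y : V d) :
    T τ' x y = T τ (f x) (f y) := by
  unfold T iInf
  congr 1
  ext r
  constructor
  · rintro ⟨w, rfl⟩
    obtain ⟨w', hw'⟩ := Grid1_map τ τ' f hf hc w
    exact ⟨w', hw'⟩
  · rintro ⟨w, rfl⟩
    have hc' : ∀ x y, (grid d).Adj x y → τ' (ke s(g x, g y)) = τ (ke s(x, y)) := by
      intro x y h
      rw [← hc _ _ (hg _ _ h), hfg, hfg]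
    obtain ⟨w', hw'⟩ := Grid1_map τ' τ g hg hc' w
    exact ⟨w'.copy (hgf x) (hgf y), by
      show cost τ' (w'.copy (hgf x) (hgf y)) = cost τ w
      rw [← hw']
      unfold cost wedges
      rw [SimpleGraph.Walk.edges_copy]⟩

/-- Shift covariance. -/
theorem T_sh (z : V d) (τ : Env d) (x y : V d) : T (sh z τ) x y = T τ (x + z) (y + z) := by
  refine Grid1_aut τ (sh z τ) (fun v => v + z) (fun v => v - z) ?_ ?_ ?_ ?_ ?_ x y
  · rintro x y ⟨s, h | h⟩
    · exact ⟨s, Or.inl (by rw [h]; abel)⟩
    · exact ⟨s, Or.inr (by rw [h]; abel)⟩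
  · rintro x y ⟨s, h | h⟩
    · exact ⟨s, Or.inl (by rw [h]; abel)⟩
    · exact ⟨s, Or.inr (by rw [h]; abel)⟩
  · intro x
    abel
  · intro x
    abel
  · rintro x y ⟨s, h | h⟩
    · subst h
      have e : x + dir s + z = (x + z) + dir s := by abel
      simp only [e, ke_dir, sh]
    · subst h
      have e : y + dir s + z = (y + z) + dir s := by abel
      simp only [e, ke_dir', sh]

/-- Reflection. -/
theorem T_rf (τ : Env d) (x y : V d) : T (rf τ) x y = T τ (-x) (-y) := by
  refine Grid1_aut τ (rf τ) (fun v => -v) (fun v => -v) ?_ ?_ ?_ ?_ ?_ x y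
  · rintro x y ⟨s, h | h⟩
    · exact ⟨s, Or.inr (by rw [h]; abel)⟩
    · exact ⟨s, Or.inl (by rw [h]; abel)⟩
  · rintro x y ⟨s, h | h⟩
    · exact ⟨s, Or.inr (by rw [h]; abel)⟩
    · exact ⟨s, Or.inl (by rw [h]; abel)⟩
  · intro x
    simp
  · intro x
    simp
  · rintro x y ⟨s, h | h⟩
    · subst h
      have e : -x = -(x + dir s) + dir s := by abel
      have e2 : (-(x + dir s) : V d) = -x - dir s := by abel
      conv_lhs => rw [e]
      rw [ke_dir', ke_dir, e2]
      rfl
    · subst h
      have e : -y = -(y + dir s) + dir s := by abel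
      have e2 : (-(y + dir s) : V d) = -y - dir s := by abel
      conv_lhs => rw [e]
      rw [ke_dir, ke_dir', e2]
      rfl

private theorem Grid1_sum_mono (l : List (Edge d)) {f g : Env d} (h : ∀ e, f e ≤ g e) :
    (l.map f).sum ≤ (l.map g).sum := by
  induction l with
  | nil => simp
  | cons e l ih =>
    rw [List.map_cons, List.sum_cons, List.map_cons, List.sum_cons]
    have := h e
    linarith

/-- Monotonicity in the environment. -/
theorem T_mono {a b : ℝ} (ha : 0 ≤ a) {τ τ' : Env d} (hτ : Bd a b τ) (h : ∀ e, τ e ≤ τ' e)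
    (x y : V d) : T τ x y ≤ T τ' x y := by
  apply le_ciInf
  intro w
  exact (T_le_cost hτ ha w).trans (Grid1_sum_mono _ h)

theorem Bd_sh {a b : ℝ} {τ : Env d} (hτ : Bd a b τ) (z : V d) : Bd a b (sh z τ) := fun _ => hτ _

theorem Bd_rf {a b : ℝ} {τ : Env d} (hτ : Bd a b τ) : Bd a b (rf τ) := fun _ => hτ _

end grid1

end Pool.Agent.W_1b8d5d_gd
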