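import Pool.Agent.W_1b8d5d_gd.Grid1

/-!
MP_1b8d5d_pr, general dimension: geodesics (port of `W_1b8d5d_h85.Grid2`).
-/

set_option autoImplicit false
set_option linter.unusedSectionVars false

namespace Pool.Agent.W_1b8d5d_gd

open Pool.Agent.W_1b8d5d_h85

variable {d : ℕ} [NeZero d]

private theorem grid2_cost_copy (τ : Env d) {x y x' y' : V d} (w : (grid d).Walk x y) (hx : x = x')
    (hy : y = y') : cost τ (w.copy hx hy) = cost τ w := by
  subst hx hy
  rfl

private theorem grid2_finite (x : V d) : ((grid d).neighborSet x).Finite := by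
  refine Set.Finite.subset ((Set.finite_range fun s : Fin d => x + dir s).union
    (Set.finite_range fun s : Fin d => x - dir s)) ?_
  rintro y ⟨s, h | h⟩
  · exact Or.inl ⟨s, h.symm⟩
  · refine Or.inr ⟨s, ?_⟩
    show x - dir s = y
    rw [h, add_sub_cancel_right]

private noncomputable instance grid2_lf : (grid d).LocallyFinite := fun x => (grid2_finite x).fintype

section bd

variable {a b : ℝ} {τ : Env d}

private theorem grid2_cost_bypass (hτ : Bd a b τ) (ha : 0 ≤ a) {x y : V d} (w : (grid d).Walk x y) :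
    cost τ w.bypass ≤ cost τ w := by
  unfold cost wedges
  refine List.Sublist.sum_le_sum ((w.edges_bypass_sublist_edges.map ke).map τ) ?_
  intro t ht
  obtain ⟨e, -, rfl⟩ := List.mem_map.1 ht
  exact ha.trans (hτ e).1

/-- Geodesics exist.  PROOF.  Paths of length `> (b/a) nm (y - x)` cost more than `T τ x y`; there are finitely many walks of
a given length (`SimpleGraph.Walk` of bounded length: the vertices stay in a finite box), so the infimum over the paths
(`Walk.bypass` does not increase the cost) is attained.  (Or: costs of paths of bounded length form a finite set.) -/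
theorem exists_geo (hτ : Bd a b τ) (ha : 0 < a) (x y : V d) : ∃ w : (grid d).Walk x y, IsGeo τ w := by
  obtain ⟨w₀, hw₀⟩ := exists_walk x y
  obtain ⟨N, hN⟩ := exists_nat_gt (max (b * nm (y - x) / a) (nm (y - x)))
  have hN1 : b * nm (y - x) < a * N := by
    have := (le_max_left _ _).trans_lt hN
    rw [div_lt_iff₀ ha] at this
    linarith
  have hN2 : w₀.length < N := by
    have := (le_max_right _ _).trans_lt hN
    rw [← hw₀] at this
    exact_mod_cast this
  have hne : ((grid d).finsetWalkLengthLT N x y).Nonempty :=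
    ⟨w₀, SimpleGraph.mem_finsetWalkLengthLT_iff.2 hN2⟩
  obtain ⟨w₁, hw₁, hmin⟩ := Finset.exists_min_image _ (fun w => cost τ w) hne
  have hmin' : ∀ w : (grid d).Walk x y, cost τ w₁ ≤ cost τ w := by
    intro w
    by_cases h : w.length < N
    · exact hmin w (SimpleGraph.mem_finsetWalkLengthLT_iff.2 h)
    · push Not at h
      have h1 := hmin w₀ (SimpleGraph.mem_finsetWalkLengthLT_iff.2 hN2)
      have h2 := cost_le hτ w₀
      have h3 := le_cost hτ w
      rw [hw₀] at h2
      have h4 : a * (N : ℝ) ≤ a * w.length := by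
        have : (N : ℝ) ≤ w.length := by exact_mod_cast h
        exact mul_le_mul_of_nonneg_left this ha.le
      linarith
  refine ⟨w₁.bypass, w₁.bypass_isPath, le_antisymm ?_ (T_le_cost hτ ha.le _)⟩
  exact le_ciInf fun w => (grid2_cost_bypass hτ ha.le w₁).trans (hmin' w)

open Classical in
/-- A fixed choice of a geodesic. -/
noncomputable def geo (τ : Env d) (x y : V d) : (grid d).Walk x y :=
  if h : ∃ w : (grid d).Walk x y, IsGeo τ w then h.choose else Classical.arbitrary _

theorem geo_isGeo (hτ : Bd a b τ) (ha : 0 < a) (x y : V d) : IsGeo τ (geo τ x y) := by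
  have h := exists_geo hτ ha x y
  unfold geo
  rw [dif_pos h]
  exact h.choose_spec

theorem geo_length (hτ : Bd a b τ) (ha : 0 < a) {x y : V d} {w : (grid d).Walk x y} (hw : IsGeo τ w) :
    a * w.length ≤ b * nm (y - x) := by
  have h1 := le_cost hτ w
  have h2 := T_upper hτ ha.le x y
  rw [hw.2] at h1
  exact h1.trans h2

/-- Three pieces of a walk. -/
private theorem grid2_split {x y : V d} (w : (grid d).Walk x y) {i j : ℕ} (hij : i ≤ j) :
    ∃ w' : (grid d).Walk (w.getVert i) (w.getVert j), w'.IsSubwalk w ∧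
      w'.length = min (j - i) (w.length - i) ∧
      (∀ l, l ≤ j - i → w'.getVert l = w.getVert (i + l)) ∧
      ∃ w'' : (grid d).Walk (w.getVert j) y, ∀ τ : Env d,
        cost τ w = cost τ (w.take i) + cost τ w' + cost τ w'' := by
  have h1 : (w.drop i).getVert (j - i) = w.getVert j := by
    rw [SimpleGraph.Walk.drop_getVert, Nat.add_sub_cancel' hij]
  refine ⟨((w.drop i).take (j - i)).copy rfl h1, ?_, ?_, ?_,
    ((w.drop i).drop (j - i)).copy h1 rfl, ?_⟩
  · exact (((w.drop i).isSubwalk_take (j - i)).trans (w.isSubwalk_drop i)).copy _ _ rfl rfl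
  · simp
  · intro l hl
    simp [hl]
  · intro τ
    rw [grid2_cost_copy, grid2_cost_copy, add_assoc, ← cost_append,
      SimpleGraph.Walk.append_take_drop_eq, ← cost_append, SimpleGraph.Walk.append_take_drop_eq]

/-- Along a geodesic the passage times add up. -/
theorem geo_sub (hτ : Bd a b τ) (ha : 0 ≤ a) {x y : V d} {w : (grid d).Walk x y} (hw : IsGeo τ w)
    {i j : ℕ} (hij : i ≤ j) :
    T τ (w.getVert i) (w.getVert j) = T τ x (w.getVert j) - T τ x (w.getVert i) := by
  obtain ⟨w', -, -, -, w'', hc⟩ := grid2_split w hij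
  have h0 := hc τ
  rw [hw.2] at h0
  have h1 := T_le_cost hτ ha (w.take i)
  have h2 := T_le_cost hτ ha w'
  have h3 := T_le_cost hτ ha w''
  have h4 := T_triangle hτ ha x (w.getVert i) (w.getVert j)
  have h5 := T_triangle hτ ha x (w.getVert j) y
  linarith

theorem geo_add (hτ : Bd a b τ) (ha : 0 ≤ a) {x y : V d} {w : (grid d).Walk x y} (hw : IsGeo τ w)
    (i : ℕ) : T τ x (w.getVert i) + T τ (w.getVert i) y = T τ x y := by
  have h0 : cost τ w = cost τ (w.take i) + cost τ (w.drop i) := by
    rw [← cost_append, SimpleGraph.Walk.append_take_drop_eq]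
  rw [hw.2] at h0
  have h1 := T_le_cost hτ ha (w.take i)
  have h2 := T_le_cost hτ ha (w.drop i)
  have h3 := T_triangle hτ ha x (w.getVert i) y
  linarith

/-- A piece of a geodesic is a geodesic: there is a geodesic from `w.getVert i` to `w.getVert j` whose vertices are vertices
`w.getVert l`, `i ≤ l ≤ j`, and whose edges are edges of `w`. -/
theorem geo_piece (hτ : Bd a b τ) (ha : 0 ≤ a) {x y : V d} {w : (grid d).Walk x y} (hw : IsGeo τ w)
    {i j : ℕ} (hij : i ≤ j) (hj : j ≤ w.length) :
    ∃ w' : (grid d).Walk (w.getVert i) (w.getVert j), IsGeo τ w' ∧ w'.length = j - i ∧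
      (∀ l, l ≤ j - i → w'.getVert l = w.getVert (i + l)) ∧ ∀ e ∈ wedges w', e ∈ wedges w := by
  obtain ⟨w', hs, hl, hv, w'', hc⟩ := grid2_split w hij
  refine ⟨w', ⟨SimpleGraph.Walk.isPath_of_isSubwalk hs hw.1, ?_⟩, ?_, hv, ?_⟩
  · have h0 := hc τ
    rw [hw.2] at h0
    have h1 := T_le_cost hτ ha (w.take i)
    have h2 := T_le_cost hτ ha w'
    have h3 := T_le_cost hτ ha w''
    have h4 := T_triangle hτ ha x (w.getVert i) (w.getVert j)
    have h5 := T_triangle hτ ha x (w.getVert j) y
    linarith
  · rw [hl]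
    omega
  · intro e he
    unfold wedges at he ⊢
    obtain ⟨e', he', rfl⟩ := List.mem_map.1 he
    exact List.mem_map.2 ⟨e', hs.edges_subset he', rfl⟩

/-- All vertices of a geodesic are near the starting point. -/
theorem geo_near (hτ : Bd a b τ) (ha : 0 < a) {x y : V d} {w : (grid d).Walk x y} (hw : IsGeo τ w)
    (i : ℕ) : nm (w.getVert i - x) ≤ b / a * nm (y - x) := by
  have h1 := geo_add hτ ha.le hw i
  have h2 := T_nonneg hτ ha.le (w.getVert i) y
  have h3 := T_lower hτ ha.le x (w.getVert i)
  have h4 := T_upper hτ ha.le x y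
  rw [div_mul_eq_mul_div, le_div_iff₀ ha]
  linarith

end bd

/-- First passage.  `f` changes by at most `c` along an edge; a walk from `{f < α}` to `{f ≥ α}` has a first vertex with
`f ≥ α`, and it satisfies `f < α + c` (`≤ α + c`). -/
theorem first_passage (f : V d → ℝ) (c : ℝ) (hf : ∀ x y, (grid d).Adj x y → |f y - f x| ≤ c) (α : ℝ)
    {x y : V d} (w : (grid d).Walk x y) (hx : f x < α) (hy : α ≤ f y) :
    ∃ i ≤ w.length, α ≤ f (w.getVert i) ∧ f (w.getVert i) < α + c ∧
      ∀ j < i, f (w.getVert j) < α := by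
  classical
  have hex : ∃ i, α ≤ f (w.getVert i) := ⟨w.length, by rwa [w.getVert_length]⟩
  have hle : Nat.find hex ≤ w.length := Nat.find_min' hex (by rwa [w.getVert_length])
  have hlt : ∀ j < Nat.find hex, f (w.getVert j) < α := fun j hj => not_le.1 (Nat.find_min hex hj)
  refine ⟨Nat.find hex, hle, Nat.find_spec hex, ?_, hlt⟩
  obtain ⟨k, hk⟩ : ∃ k, Nat.find hex = k + 1 := by
    refine Nat.exists_eq_succ_of_ne_zero fun h0 => ?_
    have h1 := Nat.find_spec hex
    rw [h0, w.getVert_zero] at h1
    exact absurd hx (not_lt.2 h1)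
  rw [hk]
  have h2 := hlt k (by omega)
  have h3 := hf _ _ (w.adj_getVert_succ (i := k) (by omega))
  have h4 := le_abs_self (f (w.getVert (k + 1)) - f (w.getVert k))
  linarith

end Pool.Agent.W_1b8d5d_gd
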