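import Pool.Agent.W_1b8d5d_h85.ExpConc
import Pool.Agent.W_1b8d5d_gd.Grid3

/-!
MP_1b8d5d_pr: passage times over paths of bounded length in a finite product environment: Efron-Stein
variance bound, exponential concentration, lower tail of the passage time.
-/

set_option autoImplicit false

namespace Pool.Agent.W_1b8d5d_gd

open Finset Pool.Agent.W_1b8d5d_h85

variable {d : ℕ}

private theorem LowTail_finite (x : V d) : ((grid d).neighborSet x).Finite := by
  refine Set.Finite.subset (Set.toFinite
    (Set.range (fun s : Fin d => x + dir s) ∪ Set.range (fun s : Fin d => x - dir s))) ?_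
  rintro y ⟨s, h | h⟩
  · exact Or.inl ⟨s, h.symm⟩
  · exact Or.inr ⟨s, by simp [h]⟩

private noncomputable instance LowTail_lf : (grid d).LocallyFinite := fun x => (LowTail_finite x).fintype

variable [NeZero d]

/-- The passage time over the paths with at most `L` edges. -/
noncomputable def TL (L : ℕ) (τ : Env d) (x y : V d) : ℝ :=
  ⨅ w : {w : (grid d).Walk x y // w.IsPath ∧ w.length ≤ L}, cost τ w.1

instance LowTail_fin (L : ℕ) (x y : V d) : Finite {w : (grid d).Walk x y // w.IsPath ∧ w.length ≤ L} := by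
  classical
  have h : Set.Finite {w : (grid d).Walk x y | w.IsPath ∧ w.length ≤ L} := by
    refine Set.Finite.subset ((grid d).finsetWalkLengthLT (L + 1) x y).finite_toSet ?_
    intro w hw
    rw [Finset.mem_coe, SimpleGraph.mem_finsetWalkLengthLT_iff]
    exact Nat.lt_succ_of_le hw.2
  exact h.to_subtype

theorem LowTail_nonempty {L : ℕ} {x y : V d} (hL : nm (y - x) ≤ L) :
    Nonempty {w : (grid d).Walk x y // w.IsPath ∧ w.length ≤ L} := by
  classical
  obtain ⟨w, hw⟩ := exists_walk x y
  refine ⟨⟨w.bypass, w.bypass_isPath, ?_⟩⟩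
  have h1 : (w.length : ℝ) ≤ L := by rw [hw]; exact hL
  have h2 : w.length ≤ L := by exact_mod_cast h1
  exact (w.length_bypass_le_length).trans h2

/-- The minimum is attained. -/
theorem TL_attained {L : ℕ} {x y : V d} (hL : nm (y - x) ≤ L) (τ : Env d) :
    ∃ w : (grid d).Walk x y, w.IsPath ∧ w.length ≤ L ∧ cost τ w = TL L τ x y := by
  have := LowTail_nonempty hL
  obtain ⟨w, hw⟩ := exists_eq_ciInf_of_finite
    (f := fun w : {w : (grid d).Walk x y // w.IsPath ∧ w.length ≤ L} => cost τ w.1)
  exact ⟨w.1, w.2.1, w.2.2, hw⟩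

theorem TL_le_cost {L : ℕ} {x y : V d} (τ : Env d) (w : (grid d).Walk x y) (h1 : w.IsPath)
    (h2 : w.length ≤ L) : TL L τ x y ≤ cost τ w :=
  ciInf_le (Set.finite_range fun w : {w : (grid d).Walk x y // w.IsPath ∧ w.length ≤ L} =>
    cost τ w.1).bddBelow ⟨w, h1, h2⟩

theorem T_le_TL {a b : ℝ} {τ : Env d} (hτ : Bd a b τ) (ha : 0 ≤ a) {L : ℕ} {x y : V d}
    (hL : nm (y - x) ≤ L) : T τ x y ≤ TL L τ x y := by
  obtain ⟨w, -, -, hw⟩ := TL_attained hL τ
  rw [← hw]
  exact T_le_cost hτ ha w

/-- Either the passage time is that over short paths or a long path is at least as cheap. -/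
theorem T_eq_TL_or {a b : ℝ} {τ : Env d} (hτ : Bd a b τ) (ha : 0 < a) {L : ℕ} {x y : V d}
    (hL : nm (y - x) ≤ L) :
    T τ x y = TL L τ x y ∨ ∃ w : (grid d).Walk x y, w.IsPath ∧ L < w.length ∧ cost τ w = T τ x y := by
  obtain ⟨w, hw1, hw2⟩ := exists_geo hτ ha x y
  rcases le_or_gt w.length L with h | h
  · left
    refine le_antisymm (T_le_TL hτ ha.le hL) ?_
    rw [← hw2]
    exact TL_le_cost τ w hw1 h
  · exact Or.inr ⟨w, hw1, h, hw2⟩

section prod

variable {J β : Type} [Fintype J] [DecidableEq J] [Fintype β] [Nonempty β]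

/-- `env` is an environment on a finite product space: the passage time of the edge `e` depends only on the
coordinate `idx e`; the edges near `x` have different coordinates. -/
structure Loc (h : ℝ) (L : ℕ) (x : V d) (env : (J → β) → Env d) (idx : Edge d → J) : Prop where
  bd : ∀ ω, Bd 0 h (env ω)
  loc : ∀ ω i u e, idx e ≠ i → env (Function.update ω i u) e = env ω e
  inj : ∀ e e' : Edge d, nm (e.1 - x) ≤ L → nm (e'.1 - x) ≤ L → idx e = idx e' → e = e'

variable {h : ℝ} {L : ℕ} {x y : V d} {env : (J → β) → Env d} {idx : Edge d → J}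

private theorem LowTail_step (hl : Loc h L x env idx) (ω : J → β) (i : J) (u : β)
    (w : (grid d).Walk x y) (hw : w.IsPath) (hwL : w.length ≤ L) :
    cost (env (Function.update ω i u)) w ≤
      cost (env ω) w + if i ∈ (wedges w).toFinset.image idx then h else 0 := by
  classical
  rw [cost_path _ hw, cost_path _ hw]
  have hnear : ∀ e ∈ (wedges w).toFinset, nm (e.1 - x) ≤ L := by
    intro e he
    refine (wedges_near w (List.mem_toFinset.1 he)).trans ?_
    exact_mod_cast hwL
  split_ifs with hi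
  · obtain ⟨e0, he0, hei⟩ := mem_image.1 hi
    rw [← Finset.add_sum_erase _ _ he0, ← Finset.add_sum_erase (a := e0) _ (env ω) he0]
    have h1 : ∑ e ∈ (wedges w).toFinset.erase e0, env (Function.update ω i u) e =
        ∑ e ∈ (wedges w).toFinset.erase e0, env ω e := by
      refine sum_congr rfl fun e he => hl.loc ω i u e fun hc => ?_
      rw [mem_erase] at he
      exact he.1 (hl.inj e e0 (hnear e he.2) (hnear e0 he0) (hc.trans hei.symm))
    rw [h1]
    have h2 := (hl.bd (Function.update ω i u) e0).2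
    have h3 := (hl.bd ω e0).1
    linarith
  · have h1 : ∑ e ∈ (wedges w).toFinset, env (Function.update ω i u) e =
        ∑ e ∈ (wedges w).toFinset, env ω e := by
      refine sum_congr rfl fun e he => hl.loc ω i u e fun hc => hi (mem_image.2 ⟨e, he, hc⟩)
    rw [h1, add_zero]

private theorem LowTail_inc (hl : Loc h L x env idx) (hL : nm (y - x) ≤ L) (ω : J → β) :
    ∃ A : Finset J, A.card ≤ L ∧ ∀ i u,
      TL L (env (Function.update ω i u)) x y ≤ TL L (env ω) x y + if i ∈ A then h else 0 := by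
  classical
  obtain ⟨w, hw1, hw2, hw3⟩ := TL_attained hL (env ω)
  refine ⟨(wedges w).toFinset.image idx, ?_, fun i u => ?_⟩
  · refine card_image_le.trans ((List.toFinset_card_le _).trans ?_)
    rw [length_wedges]
    exact hw2
  · rw [← hw3]
    exact (TL_le_cost _ w hw1 hw2).trans (LowTail_step hl ω i u w hw1 hw2)

private theorem LowTail_abs (hl : Loc h L x env idx) (hL : nm (y - x) ≤ L) (h0 : 0 ≤ h)
    (ω : J → β) (i : J) (u : β) :
    |TL L (env (Function.update ω i u)) x y - TL L (env ω) x y| ≤ h := by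
  have key : ∀ (ω : J → β) (i : J) (u : β),
      TL L (env (Function.update ω i u)) x y ≤ TL L (env ω) x y + h := by
    intro ω i u
    obtain ⟨A, -, hA⟩ := LowTail_inc hl hL ω
    have h1 := hA i u
    have h2 : (if i ∈ A then h else 0) ≤ h := by
      split_ifs
      · exact le_rfl
      · exact h0
    linarith
  have h1 := key ω i u
  have h2 := key (Function.update ω i u) i (ω i)
  rw [Function.update_idem, Function.update_eq_self] at h2
  rw [abs_le]
  constructor <;> linarith

private theorem LowTail_sq (hl : Loc h L x env idx) (hL : nm (y - x) ≤ L) (h0 : 0 ≤ h)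
    (ω : J → β) :
    ∑ i, Ex (fun u => (max (TL L (env (Function.update ω i u)) x y - TL L (env ω) x y) 0) ^ 2) ≤
      h ^ 2 * L := by
  classical
  obtain ⟨A, hA1, hA2⟩ := LowTail_inc hl hL ω
  have h1 : ∀ i, Ex (fun u => (max (TL L (env (Function.update ω i u)) x y -
      TL L (env ω) x y) 0) ^ 2) ≤ if i ∈ A then h ^ 2 else 0 := by
    intro i
    refine Ex_le_of_le fun u => ?_
    have h2 := hA2 i u
    split_ifs at h2 ⊢ with hi
    · have h3 : max (TL L (env (Function.update ω i u)) x y - TL L (env ω) x y) 0 ≤ h :=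
        max_le (by linarith) h0
      exact pow_le_pow_left₀ (le_max_right _ _) h3 2
    · rw [max_eq_right (by linarith)]
      norm_num
  refine (sum_le_sum fun i _ => h1 i).trans ?_
  rw [sum_ite_mem, univ_inter, sum_const, nsmul_eq_mul, mul_comm]
  have h3 : (A.card : ℝ) ≤ L := by exact_mod_cast hA1
  exact mul_le_mul_of_nonneg_left h3 (sq_nonneg h)

/-- Efron-Stein: the variance of the passage time over short paths. -/
theorem TL_var (hl : Loc h L x env idx) (hL : nm (y - x) ≤ L) (h0 : 0 ≤ h) :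
    Vr (fun ω => TL L (env ω) x y) ≤ h ^ 2 * L := by
  refine (efron_stein' _).trans ?_
  rw [← Ex_sum]
  exact Ex_le_of_le (LowTail_sq hl hL h0)

/-- Exponential concentration of the passage time over short paths. -/
theorem TL_conc (hl : Loc h L x env idx) (hL : nm (y - x) ≤ L) (h0 : 0 < h) (hL1 : 1 ≤ L) (s : ℝ) :
    Pr (fun ω => s ≤ |TL L (env ω) x y - Ex (fun ω => TL L (env ω) x y)|) ≤
      4 * Real.exp (-(s / (2 * (h * Real.sqrt L)))) := by
  have hL' : (1 : ℝ) ≤ L := by exact_mod_cast hL1
  have h1 := exp_conc (fun ω => TL L (env ω) x y) (v := h ^ 2 * L) (c := h)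
    (LowTail_sq hl hL h0.le) (LowTail_abs hl hL h0.le)
    (by nlinarith [sq_nonneg h]) (by positivity) s
  rw [Real.sqrt_mul (sq_nonneg h), Real.sqrt_sq h0.le] at h1
  exact h1

/-- The lower tail of the passage time: the Peierls event says that long paths from `x` cost more than the
mean. -/
theorem T_low {a : ℝ} (hl : Loc h L x env idx) (ha : 0 < a) (hb : ∀ ω, Bd a h (env ω))
    (hL : nm (y - x) ≤ L) (h0 : 0 < h) (hL1 : 1 ≤ L) {s : ℝ} (hs : 0 ≤ s) :
    Pr (fun ω => T (env ω) x y ≤ Ex (fun ω => T (env ω) x y) - s) ≤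
      4 * Real.exp (-(s / (2 * (h * Real.sqrt L)))) +
      Pr (fun ω => ∃ w : (grid d).Walk x y, w.IsPath ∧ L < w.length ∧
        cost (env ω) w ≤ Ex (fun ω => T (env ω) x y)) := by
  have h1 : Ex (fun ω => T (env ω) x y) ≤ Ex (fun ω => TL L (env ω) x y) :=
    Ex_mono fun ω => T_le_TL (hb ω) ha.le hL
  refine le_trans ?_ (add_le_add (TL_conc hl hL h0 hL1 s) le_rfl)
  refine (Pr_mono fun ω hω => ?_).trans (Pr_or _ _)
  rcases T_eq_TL_or (hb ω) ha hL with h2 | ⟨w, hw1, hw2, hw3⟩
  · left
    rw [h2] at hω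
    rw [le_abs]
    right
    linarith
  · right
    refine ⟨w, hw1, hw2, ?_⟩
    rw [hw3]
    linarith

/-- The variance of the passage time, with the Peierls event: for `0 ≤ T ≤ M` the change from `TL` to `T` costs
`M²` times the probability of the Peierls event. -/
theorem T_var {a M : ℝ} (hl : Loc h L x env idx) (ha : 0 < a) (hb : ∀ ω, Bd a h (env ω))
    (hL : nm (y - x) ≤ L) (h0 : 0 < h) (hM : h * L ≤ M) :
    Vr (fun ω => T (env ω) x y) ≤ 2 * (h ^ 2 * L) + 2 * (M ^ 2 *
      Pr (fun ω => ∃ w : (grid d).Walk x y, w.IsPath ∧ L < w.length ∧ cost (env ω) w ≤ M)) := by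
  have hM0 : 0 ≤ M := le_trans (by positivity) hM
  have h1 : Vr (fun ω => T (env ω) x y) ≤
      Ex (fun ω => (T (env ω) x y - Ex (fun ω => TL L (env ω) x y)) ^ 2) := Vr_le _ _
  refine h1.trans ?_
  have h3 := TL_var hl hL h0.le
  have h2 : Ex (fun ω => (T (env ω) x y - Ex (fun ω => TL L (env ω) x y)) ^ 2) ≤
      2 * Vr (fun ω => TL L (env ω) x y) + 2 * (M ^ 2 *
      Pr (fun ω => ∃ w : (grid d).Walk x y, w.IsPath ∧ L < w.length ∧ cost (env ω) w ≤ M)) := by
    classical
    unfold Vr
    rw [Pr_def, ← Ex_mul_left (M ^ 2), ← Ex_mul_left 2, ← Ex_mul_left 2, ← Ex_add]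
    refine Ex_mono fun ω => ?_
    have hTL : TL L (env ω) x y ≤ M := by
      obtain ⟨w, hw1, hw2, hw3⟩ := TL_attained hL (env ω)
      rw [← hw3]
      refine (cost_le (hb ω) w).trans (le_trans ?_ hM)
      have : (w.length : ℝ) ≤ L := by exact_mod_cast hw2
      exact mul_le_mul_of_nonneg_left this h0.le
    have hT0 := T_nonneg (hb ω) ha.le x y
    have hT1 := T_le_TL (hb ω) ha.le hL
    set t := T (env ω) x y
    set t' := TL L (env ω) x y with ht'
    set m := Ex (fun ω => TL L (env ω) x y)
    rcases T_eq_TL_or (hb ω) ha hL with h4 | ⟨w, hw1, hw2, hw3⟩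
    · have h5 : t = t' := h4
      rw [h5]
      have h6 : 0 ≤ 2 * (M ^ 2 * (if ∃ w : (grid d).Walk x y, w.IsPath ∧ L < w.length ∧
          cost (env ω) w ≤ M then (1 : ℝ) else 0)) := by
        split_ifs <;> positivity
      nlinarith [sq_nonneg (t' - m)]
    · rw [if_pos ⟨w, hw1, hw2, by rw [hw3]; exact hT1.trans hTL⟩]
      have h6 : (t' - t) ^ 2 ≤ M ^ 2 := by
        apply pow_le_pow_left₀ (by linarith)
        linarith
      nlinarith [sq_nonneg ((t' - m) + (t' - t))]
  linarith

end prod

end Pool.Agent.W_1b8d5d_gd
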